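import Mathlib

noncomputable section
open scoped Classical

namespace Pool.Agent.Helper544.Chain4

/-- norm in skew coordinates -/
def N (x y : ℝ) : ℝ := Real.sqrt (3 * x ^ 2 + y ^ 2)

theorem N_nonneg (x y : ℝ) : 0 ≤ N x y := Real.sqrt_nonneg _
theorem N_sq (x y : ℝ) : N x y ^ 2 = 3 * x ^ 2 + y ^ 2 := Real.sq_sqrt (by positivity)
theorem N_pos_left {x : ℝ} (y : ℝ) (h : 0 < x) : 0 < N x y := Real.sqrt_pos.2 (by positivity)
theorem N_pos_right (x : ℝ) {y : ℝ} (h : 0 < y) : 0 < N x y := Real.sqrt_pos.2 (by positivity)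
theorem continuous_N : Continuous (fun q : ℝ × ℝ => N q.1 q.2) := by
  unfold N; fun_prop
theorem N_le {x y c : ℝ} (hc : 0 ≤ c) (h : 3 * x ^ 2 + y ^ 2 ≤ c ^ 2) : N x y ≤ c := by
  unfold N
  rw [Real.sqrt_le_left hc]; exact h
theorem le_N {x y c : ℝ} (h : c ^ 2 ≤ 3 * x ^ 2 + y ^ 2) : c ≤ N x y := by
  unfold N
  exact Real.le_sqrt_of_sq_le h
theorem N_neg_right (x y : ℝ) : N x (-y) = N x y := by unfold N; congr 1; ring
theorem N_neg_left (x y : ℝ) : N (-x) y = N x y := by unfold N; congr 1; ring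

theorem hasDerivAt_N {f g : ℝ → ℝ} {f' g' t : ℝ} (hf : HasDerivAt f f' t) (hg : HasDerivAt g g' t)
    (h : 0 < N (f t) (g t)) :
    HasDerivAt (fun t => N (f t) (g t)) ((3 * f t * f' + g t * g') / N (f t) (g t)) t := by
  have h0 : 3 * (f t) ^ 2 + (g t) ^ 2 ≠ 0 := by
    rw [← N_sq]; positivity
  have h1 : HasDerivAt (fun t => 3 * (f t) ^ 2 + (g t) ^ 2) (3 * (2 * f t * f') + 2 * g t * g') t := by
    have := ((hf.pow 2).const_mul 3).add (hg.pow 2)
    refine (this.congr_deriv ?_)
    simp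
  have h2 := h1.sqrt h0
  unfold N
  convert h2 using 1
  have h3 : Real.sqrt (3 * f t ^ 2 + g t ^ 2) ≠ 0 := h.ne'
  field_simp

/-- sign of the derivative at a minimum over an interval -/
theorem deriv_sign {f : ℝ → ℝ} {lo hi x g : ℝ} (hx : x ∈ Set.Icc lo hi)
    (hmin : ∀ t ∈ Set.Icc lo hi, f x ≤ f t) (hd : HasDerivAt f g x) :
    (x < hi → 0 ≤ g) ∧ (lo < x → g ≤ 0) := by
  rw [hasDerivAt_iff_tendsto_slope] at hd
  constructor
  · intro h
    have h1 : Filter.Tendsto (slope f x) (nhdsWithin x (Set.Ioi x)) (nhds g) :=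
      hd.mono_left (nhdsWithin_mono _ (fun t ht => ne_of_gt ht))
    refine ge_of_tendsto h1 ?_
    filter_upwards [Ioo_mem_nhdsGT h] with t ht
    rw [slope_def_field]
    have := hmin t ⟨le_trans hx.1 ht.1.le, ht.2.le⟩
    exact div_nonneg (by linarith) (by linarith [ht.1])
  · intro h
    have h1 : Filter.Tendsto (slope f x) (nhdsWithin x (Set.Iio x)) (nhds g) :=
      hd.mono_left (nhdsWithin_mono _ (fun t ht => ne_of_lt ht))
    refine le_of_tendsto h1 ?_
    filter_upwards [Ioo_mem_nhdsLT h] with t ht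
    rw [slope_def_field]
    have := hmin t ⟨ht.1.le, le_trans ht.2.le hx.2⟩
    exact div_nonpos_of_nonneg_of_nonpos (by linarith) (by linarith [ht.2])

section min
variable {X : Type} (n : ℕ) (V : ℕ → X → ℝ) (L : ℕ → X → X → ℝ)

def En (y : ℕ → X) : ℝ := ∑ k ∈ Finset.range (n + 1), V k (y k) +
  ∑ k ∈ Finset.range n, L k (y k) (y (k + 1))

theorem En_update (y : ℕ → X) (m : ℕ) (z : X) (hm : m ≤ n) :
    En n V L (Function.update y m z) = En n V L y + (V m z - V m (y m)) +
      (if m < n then L m z (y (m + 1)) - L m (y m) (y (m + 1)) else 0) +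
      (if 0 < m then L (m - 1) (y (m - 1)) z - L (m - 1) (y (m - 1)) (y m) else 0) := by
  have e1 : ∑ k ∈ Finset.range (n + 1), V k (Function.update y m z k) =
      ∑ k ∈ Finset.range (n + 1), V k (y k) + (V m z - V m (y m)) := by
    have : ∀ k ∈ Finset.range (n + 1), V k (Function.update y m z k) =
        V k (y k) + (if k = m then (V m z - V m (y m)) else 0) := by
      intro k _
      by_cases h : k = m
      · subst h; simp
      · simp [h]
    rw [Finset.sum_congr rfl this, Finset.sum_add_distrib, Finset.sum_ite_eq', if_pos]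
    rw [Finset.mem_range]; omega
  have e2 : ∑ k ∈ Finset.range n, L k (Function.update y m z k) (Function.update y m z (k + 1)) =
      ∑ k ∈ Finset.range n, L k (y k) (y (k + 1)) +
      (if m < n then L m z (y (m + 1)) - L m (y m) (y (m + 1)) else 0) +
      (if 0 < m then L (m - 1) (y (m - 1)) z - L (m - 1) (y (m - 1)) (y m) else 0) := by
    have : ∀ k ∈ Finset.range n, L k (Function.update y m z k) (Function.update y m z (k + 1)) =
        L k (y k) (y (k + 1)) + (if k = m then L m z (y (m + 1)) - L m (y m) (y (m + 1)) else 0) +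
        (if k + 1 = m then L k (y k) z - L k (y k) (y m) else 0) := by
      intro k _
      by_cases h : k = m
      · subst h
        simp
      · by_cases h' : k + 1 = m
        · subst h'
          simp
        · simp [h, h']
    rw [Finset.sum_congr rfl this, Finset.sum_add_distrib, Finset.sum_add_distrib,
      Finset.sum_ite_eq']
    congr 1
    · simp only [Finset.mem_range]
    · cases m with
      | zero => simp
      | succ j =>
        simp only [Nat.succ_pos, if_true, Nat.add_sub_cancel, Nat.add_right_cancel_iff]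
        rw [Finset.sum_ite_eq', if_pos]
        rw [Finset.mem_range]; omega
  unfold En
  rw [e1, e2]
  ring

theorem exists_min [TopologicalSpace X] (box : ℕ → Set X) (hc : ∀ k, IsCompact (box k))
    (hne : ∀ k, (box k).Nonempty)
    (hV : ∀ k, Continuous (V k)) (hL : ∀ k, Continuous (fun q : X × X => L k q.1 q.2)) :
    ∃ y : ℕ → X, (∀ k, y k ∈ box k) ∧ ∀ m, m ≤ n → ∀ z ∈ box m,
      V m (y m) + (if m < n then L m (y m) (y (m + 1)) else 0) +
        (if 0 < m then L (m - 1) (y (m - 1)) (y m) else 0) ≤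
      V m z + (if m < n then L m z (y (m + 1)) else 0) +
        (if 0 < m then L (m - 1) (y (m - 1)) z else 0) := by
  have hcomp : IsCompact (Set.pi Set.univ box) := isCompact_univ_pi hc
  have hne' : (Set.pi Set.univ box).Nonempty := Set.univ_pi_nonempty_iff.2 hne
  have hcont : Continuous (En n V L) := by
    unfold En
    refine Continuous.add ?_ ?_
    · exact continuous_finsetSum _ fun k _ => (hV k).comp (continuous_apply k)
    · refine continuous_finsetSum _ fun k _ => ?_
      have h2 : Continuous (fun y : ℕ → X => (y k, y (k + 1))) :=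
        (continuous_apply k).prodMk (continuous_apply (k + 1))
      exact (hL k).comp h2
  obtain ⟨y, hy, hmin⟩ := hcomp.exists_isMinOn hne' hcont.continuousOn
  refine ⟨y, fun k => hy k (Set.mem_univ k), ?_⟩
  intro m hm z hz
  have hmem : Function.update y m z ∈ Set.pi Set.univ box := by
    intro j _
    by_cases hj : j = m
    · subst hj; simpa using hz
    · rw [Function.update_of_ne hj]; exact hy j (Set.mem_univ j)
  have h1 := hmin hmem
  simp only [Set.mem_ofPred_eq] at h1
  rw [En_update n V L y m z hm] at h1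
  split_ifs at h1 ⊢ <;> linarith
end min


/-! ### the concrete chain -/

def ep : ℝ := 1 / 1000
def b : ℝ := 1001 / 1000

def Gp (p h : ℝ) : ℝ := 3 * (1 - p) / N (1 - p) (b - h) + 3 * (1 - p) / N (1 - p) (b + h)
  - 3 * p / N p (b + 3 - h) - 3 * p / N p (b + 3 + h)
def Gh (p h : ℝ) : ℝ := (b + h) / N (1 - p) (b + h) - (b - h) / N (1 - p) (b - h)
  + (b + 3 + h) / N p (b + 3 + h) - (b + 3 - h) / N p (b + 3 - h)

def Vf (n k : ℕ) (z : ℝ × ℝ) : ℝ :=
  if k = 0 then N 1 (b - z.2) + (z.2 + b + 3) / 2 else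
    N (1 - z.1) (b - z.2) + N (1 - z.1) (b + z.2) + N z.1 (b + 3 - z.2) + N z.1 (b + 3 + z.2) +
      (if k < n then N (1 + b - z.1) z.2 else 0)

def Lf (z w : ℝ × ℝ) : ℝ := N (z.1 + w.1) (z.2 - w.2)

def box (k : ℕ) : Set (ℝ × ℝ) := if k = 0 then {0} ×ˢ Set.Icc 0 ep else Set.Icc (11 / 25) (9 / 20) ×ˢ Set.Icc 0 ep

theorem ep_pos : 0 < ep := by unfold ep; norm_num

theorem box_compact (k : ℕ) : IsCompact (box k) := by
  unfold box
  split_ifs
  · exact isCompact_singleton.prod isCompact_Icc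
  · exact isCompact_Icc.prod isCompact_Icc

theorem box_nonempty (k : ℕ) : (box k).Nonempty := by
  unfold box
  split_ifs
  · exact ⟨(0, 0), by simp [ep_pos.le]⟩
  · exact ⟨(11/25, 0), by simp [ep_pos.le]; norm_num⟩

theorem Vf_cont (n k : ℕ) : Continuous (Vf n k) := by
  unfold Vf N
  split_ifs <;> fun_prop

theorem Lf_cont : Continuous (fun q : (ℝ × ℝ) × (ℝ × ℝ) => Lf q.1 q.2) := by
  unfold Lf N
  fun_prop

theorem yN_mono {x y y' : ℝ} (h0 : 0 ≤ y) (h : y ≤ y') (hN : 0 < N x y) : y / N x y ≤ y' / N x y' := by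
  have hN' : 0 < N x y' := by
    refine lt_of_lt_of_le hN ?_
    unfold N
    apply Real.sqrt_le_sqrt
    nlinarith
  rw [div_le_div_iff₀ hN hN']
  apply le_of_sq_le_sq _ (mul_nonneg (le_trans h0 h) hN.le)
  rw [mul_pow, mul_pow, N_sq, N_sq]
  nlinarith [sq_nonneg x, mul_nonneg (sq_nonneg x) (show 0 ≤ y' ^ 2 - y ^ 2 by nlinarith)]

theorem Gh_zero (p : ℝ) : Gh p 0 = 0 := by unfold Gh; simp

theorem Gh_nonneg {p h : ℝ} (hh : 0 ≤ h) (hh' : h ≤ ep) : 0 ≤ Gh p h := by
  have e : ep = 1 / 1000 := rfl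
  have e' : b = 1001 / 1000 := rfl
  have h1 := yN_mono (x := 1 - p) (y := b - h) (y' := b + h) (by linarith) (by linarith)
    (N_pos_right _ (by linarith))
  have h2 := yN_mono (x := p) (y := b + 3 - h) (y' := b + 3 + h) (by linarith) (by linarith)
    (N_pos_right _ (by linarith))
  unfold Gh
  linarith

theorem xN_le (x y : ℝ) (hx : 0 < x) : 3 * x / N x y ≤ 17321 / 10000 := by
  rw [div_le_iff₀ (N_pos_left y hx)]
  apply le_of_sq_le_sq _ (mul_nonneg (by norm_num) (N_nonneg _ _))
  rw [mul_pow (17321 / 10000 : ℝ), N_sq]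
  nlinarith [sq_nonneg x, sq_nonneg y]

theorem le_xN {x y : ℝ} (hx : 11 / 25 ≤ x) (hy : -ep ≤ y) (hy' : y ≤ ep) : 17320 / 10000 ≤ 3 * x / N x y := by
  have hx0 : 0 < x := by linarith
  have e : ep = 1 / 1000 := rfl
  rw [le_div_iff₀ (N_pos_left y hx0)]
  apply le_of_sq_le_sq _ (by positivity)
  rw [mul_pow (17320 / 10000 : ℝ), N_sq]
  have h1 : y ^ 2 ≤ (1 / 1000) ^ 2 := by rw [e] at hy hy'; nlinarith
  have h2 : (11 / 25) ^ 2 ≤ x ^ 2 := by nlinarith
  nlinarith

theorem Gp_lo {h : ℝ} (hh : 0 ≤ h) (hh' : h ≤ ep) : 1759 / 1000 ≤ Gp (11 / 25) h := by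
  have e : ep = 1 / 1000 := rfl
  have e' : b = 1001 / 1000 := rfl
  have h1 : N (1 - 11 / 25) (b - h) ≤ 13946 / 10000 := N_le (by norm_num) (by rw [e'] ; nlinarith)
  have h2 : N (1 - 11 / 25) (b + h) ≤ 13946 / 10000 := N_le (by norm_num) (by rw [e'] ; nlinarith)
  have h3 : 407 / 100 ≤ N (11 / 25) (b + 3 - h) := le_N (by rw [e'] ; nlinarith)
  have h4 : 407 / 100 ≤ N (11 / 25) (b + 3 + h) := le_N (by rw [e'] ; nlinarith)
  have p1 : 0 < N (1 - 11 / 25) (b - h) := N_pos_left _ (by norm_num)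
  have p2 : 0 < N (1 - 11 / 25) (b + h) := N_pos_left _ (by norm_num)
  have p3 : 0 < N (11 / 25) (b + 3 - h) := N_pos_left _ (by norm_num)
  have p4 : 0 < N (11 / 25) (b + 3 + h) := N_pos_left _ (by norm_num)
  have q1 : 1204 / 1000 ≤ 3 * (1 - 11 / 25) / N (1 - 11 / 25) (b - h) := by
    rw [le_div_iff₀ p1]; linarith
  have q2 : 1204 / 1000 ≤ 3 * (1 - 11 / 25) / N (1 - 11 / 25) (b + h) := by
    rw [le_div_iff₀ p2]; linarith
  have q3 : 3 * (11 / 25) / N (11 / 25) (b + 3 - h) ≤ 3244 / 10000 := by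
    rw [div_le_iff₀ p3]; linarith
  have q4 : 3 * (11 / 25) / N (11 / 25) (b + 3 + h) ≤ 3244 / 10000 := by
    rw [div_le_iff₀ p4]; linarith
  unfold Gp
  linarith


theorem Gp_hi {h : ℝ} (hh : 0 ≤ h) (hh' : h ≤ ep) : Gp (9 / 20) h ≤ 17276 / 10000 := by
  have e : ep = 1 / 1000 := rfl
  have e' : b = 1001 / 1000 := rfl
  have h1 : 1381 / 1000 ≤ N (1 - 9 / 20) (b - h) := le_N (by rw [e'] ; nlinarith)
  have h2 : 1381 / 1000 ≤ N (1 - 9 / 20) (b + h) := le_N (by rw [e'] ; nlinarith)
  have h3 : N (9 / 20) (b + 3 - h) ≤ 40773 / 10000 := N_le (by norm_num) (by rw [e'] ; nlinarith)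
  have h4 : N (9 / 20) (b + 3 + h) ≤ 40773 / 10000 := N_le (by norm_num) (by rw [e'] ; nlinarith)
  have p1 : 0 < N (1 - 9 / 20) (b - h) := N_pos_left _ (by norm_num)
  have p2 : 0 < N (1 - 9 / 20) (b + h) := N_pos_left _ (by norm_num)
  have p3 : 0 < N (9 / 20) (b + 3 - h) := N_pos_left _ (by norm_num)
  have p4 : 0 < N (9 / 20) (b + 3 + h) := N_pos_left _ (by norm_num)
  have q1 : 3 * (1 - 9 / 20) / N (1 - 9 / 20) (b - h) ≤ 11948 / 10000 := by
    rw [div_le_iff₀ p1]; linarith
  have q2 : 3 * (1 - 9 / 20) / N (1 - 9 / 20) (b + h) ≤ 11948 / 10000 := by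
    rw [div_le_iff₀ p2]; linarith
  have q3 : 3310 / 10000 ≤ 3 * (9 / 20) / N (9 / 20) (b + 3 - h) := by
    rw [le_div_iff₀ p3]; linarith
  have q4 : 3310 / 10000 ≤ 3 * (9 / 20) / N (9 / 20) (b + 3 + h) := by
    rw [le_div_iff₀ p4]; linarith
  unfold Gp
  linarith

theorem exists_eqs (n : ℕ) (hn : 1 ≤ n) : ∃ p h : ℕ → ℝ, p 0 = 0 ∧ (∀ k, 0 ≤ h k ∧ h k ≤ ep) ∧
    (∀ k, 1 ≤ k → 11 / 25 ≤ p k ∧ p k ≤ 9 / 20) ∧
    (b - h 0) / N 1 (b - h 0) = 1 / 2 + (h 0 - h 1) / N (p 0 + p 1) (h 0 - h 1) ∧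
    ∀ m, 1 ≤ m → m ≤ n →
      (Gp (p m) (h m) + (if m < n then 3 * (1 + b - p m) / N (1 + b - p m) (h m) -
        3 * (p m + p (m + 1)) / N (p m + p (m + 1)) (h m - h (m + 1)) else 0) =
        3 * (p (m - 1) + p m) / N (p (m - 1) + p m) (h (m - 1) - h m)) ∧
      (Gh (p m) (h m) + (if m < n then h m / N (1 + b - p m) (h m) +
        (h m - h (m + 1)) / N (p m + p (m + 1)) (h m - h (m + 1)) else 0) =
        (h (m - 1) - h m) / N (p (m - 1) + p m) (h (m - 1) - h m)) := by
  have e : ep = 1 / 1000 := rfl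
  have e' : b = 1001 / 1000 := rfl
  obtain ⟨y, hy, hmin⟩ := exists_min n (Vf n) (fun _ => Lf) box box_compact box_nonempty
    (Vf_cont n) (fun _ => Lf_cont)
  set p : ℕ → ℝ := fun k => (y k).1 with hp
  set h : ℕ → ℝ := fun k => (y k).2 with hh
  have hy' : ∀ k, y k = (p k, h k) := fun k => rfl
  have hh0 : ∀ k, 0 ≤ h k ∧ h k ≤ ep := by
    intro k
    have := hy k
    unfold box at this
    split_ifs at this
    · exact this.2
    · exact this.2
  have hp0 : p 0 = 0 := by
    have := hy 0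
    unfold box at this
    rw [if_pos rfl] at this
    exact this.1
  have hp1 : ∀ k, 1 ≤ k → 11 / 25 ≤ p k ∧ p k ≤ 9 / 20 := by
    intro k hk
    have := hy k
    unfold box at this
    rw [if_neg (by omega)] at this
    exact this.1
  have hpn : ∀ k, 0 ≤ p k := by
    intro k
    rcases Nat.eq_zero_or_pos k with hk | hk
    · rw [hk, hp0]
    · linarith [(hp1 k hk).1]
  refine ⟨p, h, hp0, hh0, hp1, ?_, ?_⟩
  · -- vertex 0
    have hm := hmin 0 (Nat.zero_le _)
    have hd : HasDerivAt (fun t : ℝ => N 1 (b - t) + (t + b + 3) / 2 + N (p 0 + p 1) (t - h 1))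
        (-((b - h 0) / N 1 (b - h 0)) + 1 / 2 + (h 0 - h 1) / N (p 0 + p 1) (h 0 - h 1)) (h 0) := by
      have d1 : HasDerivAt (fun t : ℝ => N 1 (b - t)) ((3 * 1 * 0 + (b - h 0) * (-1)) / N 1 (b - h 0)) (h 0) :=
        hasDerivAt_N (hasDerivAt_const _ _) (by simpa using (hasDerivAt_id (h 0)).const_sub b)
          (N_pos_left _ (by norm_num))
      have d2 : HasDerivAt (fun t : ℝ => (t + b + 3) / 2) (1 / 2) (h 0) := by
        simpa using (((hasDerivAt_id (h 0)).add_const b).add_const 3).div_const 2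
      have d3 : HasDerivAt (fun t : ℝ => N (p 0 + p 1) (t - h 1))
          ((3 * (p 0 + p 1) * 0 + (h 0 - h 1) * 1) / N (p 0 + p 1) (h 0 - h 1)) (h 0) :=
        hasDerivAt_N (hasDerivAt_const _ _) (by simpa using (hasDerivAt_id (h 0)).sub_const (h 1))
          (N_pos_left _ (by linarith [(hp1 1 le_rfl).1]))
      refine ((d1.add d2).add d3).congr_deriv ?_
      ring
    have hmin0 : ∀ t ∈ Set.Icc 0 ep, N 1 (b - h 0) + (h 0 + b + 3) / 2 + N (p 0 + p 1) (h 0 - h 1) ≤
        N 1 (b - t) + (t + b + 3) / 2 + N (p 0 + p 1) (t - h 1) := by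
      intro t ht
      have := hm (0, t) (by
        unfold box
        rw [if_pos rfl]
        exact ⟨rfl, ht⟩)
      rw [if_pos (by omega), if_neg (by omega), if_pos (by omega), if_neg (by omega)] at this
      unfold Vf Lf at this
      rw [if_pos rfl, if_pos rfl] at this
      rw [hp0]
      have e0 : (y 0).1 = 0 := hp0
      simp only [e0] at this
      simp only [hp, hh]
      linarith
    have hs := deriv_sign (hh0 0) hmin0 hd
    have hDpos : 0 < N (p 0 + p 1) (h 0 - h 1) := N_pos_left _ (by linarith [(hp1 1 le_rfl).1])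
    have g1 : 0 ≤ -((b - h 0) / N 1 (b - h 0)) + 1 / 2 + (h 0 - h 1) / N (p 0 + p 1) (h 0 - h 1) := by
      rcases (hh0 0).2.lt_or_eq with hlt | heq
      · exact hs.1 hlt
      · have hN : N 1 (b - h 0) = 2 := by
          rw [heq, e, e']
          unfold N
          rw [show (3 * (1:ℝ) ^ 2 + (1001 / 1000 - 1 / 1000) ^ 2) = 2 ^ 2 by norm_num]
          exact Real.sqrt_sq (by norm_num)
        rw [hN, heq]
        have : 0 ≤ (ep - h 1) / N (p 0 + p 1) (ep - h 1) :=
          div_nonneg (by linarith [(hh0 1).2]) (N_nonneg _ _)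
        rw [e, e'] at *
        linarith
    have g2 : -((b - h 0) / N 1 (b - h 0)) + 1 / 2 + (h 0 - h 1) / N (p 0 + p 1) (h 0 - h 1) ≤ 0 := by
      rcases (hh0 0).1.lt_or_eq with hlt | heq
      · exact hs.2 hlt
      · rw [← heq]
        have h1 : 1 / 2 ≤ (b - 0) / N 1 (b - 0) := by
          rw [le_div_iff₀ (N_pos_left _ (by norm_num))]
          have : N 1 (b - 0) ≤ 2 * (b - 0) := N_le (by rw [e']; norm_num) (by rw [e']; norm_num)
          linarith
        have : (0 - h 1) / N (p 0 + p 1) (0 - h 1) ≤ 0 :=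
          div_nonpos_of_nonpos_of_nonneg (by linarith [(hh0 1).1]) (N_nonneg _ _)
        linarith
    linarith
  · intro m hm1 hmn
    have hm0 : m ≠ 0 := by omega
    have hm := hmin m hmn
    have hpm := hp1 m hm1
    have hhm := hh0 m
    have hpm' := hpn (m - 1)
    have hpm'' := hpn (m + 1)
    have pos1 : 0 < N (1 - p m) (b - h m) := N_pos_left _ (by linarith)
    have pos2 : 0 < N (1 - p m) (b + h m) := N_pos_left _ (by linarith)
    have pos3 : 0 < N (p m) (b + 3 - h m) := N_pos_left _ (by linarith)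
    have pos4 : 0 < N (p m) (b + 3 + h m) := N_pos_left _ (by linarith)
    have pos5 : 0 < N (1 + b - p m) (h m) := N_pos_left _ (by linarith)
    have pos6 : 0 < N (p (m - 1) + p m) (h (m - 1) - h m) := N_pos_left _ (by linarith)
    have pos7 : 0 < N (p m + p (m + 1)) (h m - h (m + 1)) := N_pos_left _ (by linarith)
    have hmin' : ∀ s t, s ∈ Set.Icc (11 / 25 : ℝ) (9 / 20) → t ∈ Set.Icc 0 ep →
        N (1 - p m) (b - h m) + N (1 - p m) (b + h m) + N (p m) (b + 3 - h m) + N (p m) (b + 3 + h m) +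
          (if m < n then N (1 + b - p m) (h m) + N (p m + p (m + 1)) (h m - h (m + 1)) else 0) +
          N (p (m - 1) + p m) (h (m - 1) - h m) ≤
        N (1 - s) (b - t) + N (1 - s) (b + t) + N s (b + 3 - t) + N s (b + 3 + t) +
          (if m < n then N (1 + b - s) t + N (s + p (m + 1)) (t - h (m + 1)) else 0) +
          N (p (m - 1) + s) (h (m - 1) - t) := by
      intro s t hs ht
      have := hm (s, t) (by
        unfold box
        rw [if_neg hm0]
        exact ⟨hs, ht⟩)
      rw [if_pos (show 0 < m by omega), if_pos (show 0 < m by omega)] at this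
      unfold Vf Lf at this
      rw [if_neg hm0, if_neg hm0] at this
      simp only [hp, hh]
      split_ifs at this ⊢ <;> linarith
    have hdR : -ep ≤ h m - h (m + 1) ∧ h m - h (m + 1) ≤ ep := by
      constructor <;> linarith [(hh0 (m + 1)).1, (hh0 (m + 1)).2, hhm.1, hhm.2]
    have hdL : -ep ≤ h (m - 1) - h m ∧ h (m - 1) - h m ≤ ep := by
      constructor <;> linarith [(hh0 (m - 1)).1, (hh0 (m - 1)).2, hhm.1, hhm.2]
    constructor
    · -- p-derivative
      have d1 : HasDerivAt (fun s : ℝ => N (1 - s) (b - h m))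
          ((3 * (1 - p m) * (-1) + (b - h m) * 0) / N (1 - p m) (b - h m)) (p m) :=
        hasDerivAt_N (by simpa using (hasDerivAt_id (p m)).const_sub 1) (hasDerivAt_const _ _) pos1
      have d2 : HasDerivAt (fun s : ℝ => N (1 - s) (b + h m))
          ((3 * (1 - p m) * (-1) + (b + h m) * 0) / N (1 - p m) (b + h m)) (p m) :=
        hasDerivAt_N (by simpa using (hasDerivAt_id (p m)).const_sub 1) (hasDerivAt_const _ _) pos2
      have d3 : HasDerivAt (fun s : ℝ => N s (b + 3 - h m))
          ((3 * (p m) * 1 + (b + 3 - h m) * 0) / N (p m) (b + 3 - h m)) (p m) :=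
        hasDerivAt_N (hasDerivAt_id (p m)) (hasDerivAt_const _ _) pos3
      have d4 : HasDerivAt (fun s : ℝ => N s (b + 3 + h m))
          ((3 * (p m) * 1 + (b + 3 + h m) * 0) / N (p m) (b + 3 + h m)) (p m) :=
        hasDerivAt_N (hasDerivAt_id (p m)) (hasDerivAt_const _ _) pos4
      have d5 : HasDerivAt (fun s : ℝ => N (1 + b - s) (h m))
          ((3 * (1 + b - p m) * (-1) + (h m) * 0) / N (1 + b - p m) (h m)) (p m) :=
        hasDerivAt_N (by simpa using (hasDerivAt_id (p m)).const_sub (1 + b)) (hasDerivAt_const _ _) pos5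
      have d6 : HasDerivAt (fun s : ℝ => N (s + p (m + 1)) (h m - h (m + 1)))
          ((3 * (p m + p (m + 1)) * 1 + (h m - h (m + 1)) * 0) / N (p m + p (m + 1)) (h m - h (m + 1))) (p m) :=
        hasDerivAt_N (by simpa using (hasDerivAt_id (p m)).add_const (p (m + 1))) (hasDerivAt_const _ _) pos7
      have d7 : HasDerivAt (fun s : ℝ => N (p (m - 1) + s) (h (m - 1) - h m))
          ((3 * (p (m - 1) + p m) * 1 + (h (m - 1) - h m) * 0) / N (p (m - 1) + p m) (h (m - 1) - h m)) (p m) :=
        hasDerivAt_N (by simpa using (hasDerivAt_id (p m)).const_add (p (m - 1))) (hasDerivAt_const _ _) pos6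
      have d56 : HasDerivAt (fun s : ℝ => if m < n then N (1 + b - s) (h m) + N (s + p (m + 1)) (h m - h (m + 1)) else 0)
          (-(if m < n then 3 * (1 + b - p m) / N (1 + b - p m) (h m) -
            3 * (p m + p (m + 1)) / N (p m + p (m + 1)) (h m - h (m + 1)) else 0)) (p m) := by
        split_ifs
        · refine (d5.add d6).congr_deriv ?_
          ring
        · simpa using hasDerivAt_const (p m) (0 : ℝ)
      have hd : HasDerivAt (fun s : ℝ => N (1 - s) (b - h m) + N (1 - s) (b + h m) + N s (b + 3 - h m) + N s (b + 3 + h m) +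
          (if m < n then N (1 + b - s) (h m) + N (s + p (m + 1)) (h m - h (m + 1)) else 0) +
          N (p (m - 1) + s) (h (m - 1) - h m))
          (-(Gp (p m) (h m) + (if m < n then 3 * (1 + b - p m) / N (1 + b - p m) (h m) -
            3 * (p m + p (m + 1)) / N (p m + p (m + 1)) (h m - h (m + 1)) else 0)) +
            3 * (p (m - 1) + p m) / N (p (m - 1) + p m) (h (m - 1) - h m)) (p m) := by
        refine (((((d1.add d2).add d3).add d4).add d56).add d7).congr_deriv ?_
        unfold Gp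
        ring
      have hs := deriv_sign (lo := 11 / 25) (hi := 9 / 20) hpm (fun s hs => hmin' s (h m) hs hhm) hd
      have cL := xN_le (p (m - 1) + p m) (h (m - 1) - h m) (by linarith)
      have cL' := le_xN (x := p (m - 1) + p m) (y := h (m - 1) - h m) (by linarith) hdL.1 hdL.2
      have cR := xN_le (p m + p (m + 1)) (h m - h (m + 1)) (by linarith)
      have cR' := le_xN (x := p m + p (m + 1)) (y := h m - h (m + 1)) (by linarith) hdR.1 hdR.2
      have cE := xN_le (1 + b - p m) (h m) (by linarith)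
      have cE' := le_xN (x := 1 + b - p m) (y := h m) (by linarith) (by linarith) (by linarith)
      have g1 : 0 ≤ (-(Gp (p m) (h m) + (if m < n then 3 * (1 + b - p m) / N (1 + b - p m) (h m) -
            3 * (p m + p (m + 1)) / N (p m + p (m + 1)) (h m - h (m + 1)) else 0)) +
            3 * (p (m - 1) + p m) / N (p (m - 1) + p m) (h (m - 1) - h m)) := by
        rcases hpm.2.lt_or_eq with hlt | heq
        · exact hs.1 hlt
        · have := Gp_hi hhm.1 hhm.2
          rw [← heq] at this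
          split_ifs <;> linarith
      have g2 : (-(Gp (p m) (h m) + (if m < n then 3 * (1 + b - p m) / N (1 + b - p m) (h m) -
            3 * (p m + p (m + 1)) / N (p m + p (m + 1)) (h m - h (m + 1)) else 0)) +
            3 * (p (m - 1) + p m) / N (p (m - 1) + p m) (h (m - 1) - h m)) ≤ 0 := by
        rcases hpm.1.lt_or_eq with hlt | heq
        · exact hs.2 hlt
        · have := Gp_lo hhm.1 hhm.2
          rw [heq] at this
          split_ifs <;> linarith
      linarith
    · -- h-derivative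
      have d1 : HasDerivAt (fun t : ℝ => N (1 - p m) (b - t))
          ((3 * (1 - p m) * 0 + (b - h m) * (-1)) / N (1 - p m) (b - h m)) (h m) :=
        hasDerivAt_N (hasDerivAt_const _ _) (by simpa using (hasDerivAt_id (h m)).const_sub b) pos1
      have d2 : HasDerivAt (fun t : ℝ => N (1 - p m) (b + t))
          ((3 * (1 - p m) * 0 + (b + h m) * 1) / N (1 - p m) (b + h m)) (h m) :=
        hasDerivAt_N (hasDerivAt_const _ _) (by simpa using (hasDerivAt_id (h m)).const_add b) pos2
      have d3 : HasDerivAt (fun t : ℝ => N (p m) (b + 3 - t))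
          ((3 * (p m) * 0 + (b + 3 - h m) * (-1)) / N (p m) (b + 3 - h m)) (h m) :=
        hasDerivAt_N (hasDerivAt_const _ _) (by simpa using (hasDerivAt_id (h m)).const_sub (b + 3)) pos3
      have d4 : HasDerivAt (fun t : ℝ => N (p m) (b + 3 + t))
          ((3 * (p m) * 0 + (b + 3 + h m) * 1) / N (p m) (b + 3 + h m)) (h m) :=
        hasDerivAt_N (hasDerivAt_const _ _) (by simpa using (hasDerivAt_id (h m)).const_add (b + 3)) pos4
      have d5 : HasDerivAt (fun t : ℝ => N (1 + b - p m) t)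
          ((3 * (1 + b - p m) * 0 + (h m) * 1) / N (1 + b - p m) (h m)) (h m) :=
        hasDerivAt_N (hasDerivAt_const _ _) (hasDerivAt_id (h m)) pos5
      have d6 : HasDerivAt (fun t : ℝ => N (p m + p (m + 1)) (t - h (m + 1)))
          ((3 * (p m + p (m + 1)) * 0 + (h m - h (m + 1)) * 1) / N (p m + p (m + 1)) (h m - h (m + 1))) (h m) :=
        hasDerivAt_N (hasDerivAt_const _ _) (by simpa using (hasDerivAt_id (h m)).sub_const (h (m + 1))) pos7
      have d7 : HasDerivAt (fun t : ℝ => N (p (m - 1) + p m) (h (m - 1) - t))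
          ((3 * (p (m - 1) + p m) * 0 + (h (m - 1) - h m) * (-1)) / N (p (m - 1) + p m) (h (m - 1) - h m)) (h m) :=
        hasDerivAt_N (hasDerivAt_const _ _) (by simpa using (hasDerivAt_id (h m)).const_sub (h (m - 1))) pos6
      have d56 : HasDerivAt (fun t : ℝ => if m < n then N (1 + b - p m) t + N (p m + p (m + 1)) (t - h (m + 1)) else 0)
          (if m < n then h m / N (1 + b - p m) (h m) +
        (h m - h (m + 1)) / N (p m + p (m + 1)) (h m - h (m + 1)) else 0) (h m) := by
        split_ifs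
        · refine (d5.add d6).congr_deriv ?_
          ring
        · exact hasDerivAt_const (h m) (0 : ℝ)
      have hd : HasDerivAt (fun t : ℝ => N (1 - p m) (b - t) + N (1 - p m) (b + t) + N (p m) (b + 3 - t) + N (p m) (b + 3 + t) +
          (if m < n then N (1 + b - p m) t + N (p m + p (m + 1)) (t - h (m + 1)) else 0) +
          N (p (m - 1) + p m) (h (m - 1) - t))
          (Gh (p m) (h m) + (if m < n then h m / N (1 + b - p m) (h m) +
        (h m - h (m + 1)) / N (p m + p (m + 1)) (h m - h (m + 1)) else 0) -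
        (h (m - 1) - h m) / N (p (m - 1) + p m) (h (m - 1) - h m)) (h m) := by
        refine (((((d1.add d2).add d3).add d4).add d56).add d7).congr_deriv ?_
        unfold Gh
        ring
      have hs := deriv_sign (lo := 0) (hi := ep) hhm (fun t ht => hmin' (p m) t hpm ht) hd
      have g1 : 0 ≤ (Gh (p m) (h m) + (if m < n then h m / N (1 + b - p m) (h m) +
        (h m - h (m + 1)) / N (p m + p (m + 1)) (h m - h (m + 1)) else 0) -
        (h (m - 1) - h m) / N (p (m - 1) + p m) (h (m - 1) - h m)) := by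
        rcases hhm.2.lt_or_eq with hlt | heq
        · exact hs.1 hlt
        · have k1 := Gh_nonneg (p := p m) hhm.1 hhm.2
          have k2 : 0 ≤ h m / N (1 + b - p m) (h m) := div_nonneg hhm.1 (N_nonneg _ _)
          have k3 : 0 ≤ (h m - h (m + 1)) / N (p m + p (m + 1)) (h m - h (m + 1)) :=
            div_nonneg (by linarith [(hh0 (m + 1)).2]) (N_nonneg _ _)
          have k4 : (h (m - 1) - h m) / N (p (m - 1) + p m) (h (m - 1) - h m) ≤ 0 :=
            div_nonpos_of_nonpos_of_nonneg (by linarith [(hh0 (m - 1)).2]) (N_nonneg _ _)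
          split_ifs <;> linarith
      have g2 : (Gh (p m) (h m) + (if m < n then h m / N (1 + b - p m) (h m) +
        (h m - h (m + 1)) / N (p m + p (m + 1)) (h m - h (m + 1)) else 0) -
        (h (m - 1) - h m) / N (p (m - 1) + p m) (h (m - 1) - h m)) ≤ 0 := by
        rcases hhm.1.lt_or_eq with hlt | heq
        · exact hs.2 hlt
        · have k1 := Gh_zero (p := p m)
          have k2 : h m / N (1 + b - p m) (h m) = 0 := by rw [← heq]; simp
          have k3 : (h m - h (m + 1)) / N (p m + p (m + 1)) (h m - h (m + 1)) ≤ 0 :=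
            div_nonpos_of_nonpos_of_nonneg (by linarith [(hh0 (m + 1)).1]) (N_nonneg _ _)
          have k4 : 0 ≤ (h (m - 1) - h m) / N (p (m - 1) + p m) (h (m - 1) - h m) :=
            div_nonneg (by linarith [(hh0 (m - 1)).1]) (N_nonneg _ _)
          rw [heq] at k1
          split_ifs <;> linarith
      linarith

end Pool.Agent.Helper544.Chain4
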