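import Mathlib
import Pool.Agent.Helper544.Chain4

noncomputable section
open scoped Classical

namespace Pool.Agent.Helper544.Chain4

theorem ydiff {x y y' : ℝ} (hN : 0 < N x y) (hN' : 0 < N x y') (hD : 0 < y' * N x y + y * N x y') :
    y' / N x y' - y / N x y =
      3 * x ^ 2 * (y' ^ 2 - y ^ 2) / (N x y * N x y' * (y' * N x y + y * N x y')) := by
  have h1 := N_sq x y
  have h2 := N_sq x y'
  rw [div_sub_div _ _ hN'.ne' hN.ne', div_eq_div_iff (by positivity) (by positivity)]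
  linear_combination (N x y * N x y') * (y' ^ 2 * h1 - y ^ 2 * h2)

theorem xdiff {x x' y : ℝ} (hN : 0 < N x y) (hN' : 0 < N x' y) (hD : 0 < x * N x' y + x' * N x y) :
    3 * x / N x y - 3 * x' / N x' y =
      3 * y ^ 2 * (x ^ 2 - x' ^ 2) / (N x y * N x' y * (x * N x' y + x' * N x y)) := by
  have h1 := N_sq x y
  have h2 := N_sq x' y
  rw [div_sub_div _ _ hN.ne' hN'.ne', div_eq_div_iff (by positivity) (by positivity)]
  linear_combination 3 * (N x y * N x' y) * (x ^ 2 * h2 - x' ^ 2 * h1)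

theorem hdiff {x y y' : ℝ} (hN : 0 < N x y) (hN' : 0 < N x y') :
    3 * x / N x y - 3 * x / N x y' =
      3 * x * (y' ^ 2 - y ^ 2) / (N x y * N x y' * (N x y + N x y')) := by
  have h1 := N_sq x y
  have h2 := N_sq x y'
  rw [div_sub_div _ _ hN.ne' hN'.ne', div_eq_div_iff (by positivity) (by positivity)]
  linear_combination 3 * x * (N x y * N x y') * (h2 - h1)

theorem ydiff_le {x y y' a c : ℝ} (ha : 0 < a) (hc : 0 < c) (h1 : a ≤ N x y) (h2 : a ≤ N x y')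
    (h3 : c ≤ y) (h4 : y ≤ y') :
    y' / N x y' - y / N x y ≤ 3 * x ^ 2 * (y' ^ 2 - y ^ 2) / (2 * c * a ^ 3) := by
  have p1 : 0 < N x y := by linarith
  have p2 : 0 < N x y' := by linarith
  have p3 : 0 < y := by linarith
  have p4 : 0 < y' := by linarith
  rw [ydiff p1 p2 (by positivity)]
  apply div_le_div_of_nonneg_left
  · have : 0 ≤ y' ^ 2 - y ^ 2 := by nlinarith
    positivity
  · positivity
  · calc 2 * c * a ^ 3 = a * a * (c * a + c * a) := by ring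
      _ ≤ N x y * N x y' * (y' * N x y + y * N x y') := by
        gcongr
        linarith

theorem le_ydiff {x y y' a c : ℝ} (ha : 0 < N x y) (ha' : 0 < N x y') (h1 : N x y ≤ a) (h2 : N x y' ≤ a)
    (h0 : 0 < y) (h3 : y' ≤ c) (h4 : y ≤ y') :
    3 * x ^ 2 * (y' ^ 2 - y ^ 2) / (2 * c * a ^ 3) ≤ y' / N x y' - y / N x y := by
  have p4 : 0 < y' := by linarith
  have p5 : 0 < a := by linarith
  have p6 : y ≤ c := by linarith
  have p7 : 0 < c := by linarith
  rw [ydiff ha ha' (by positivity)]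
  apply div_le_div_of_nonneg_left
  · have : 0 ≤ y' ^ 2 - y ^ 2 := by nlinarith
    positivity
  · positivity
  · calc N x y * N x y' * (y' * N x y + y * N x y') ≤ a * a * (c * a + c * a) := by
          gcongr
      _ = 2 * c * a ^ 3 := by ring

theorem le_xdiff {x x' y a : ℝ} (hx' : 0 < x') (h1 : N x y ≤ a) (h2 : N x' y ≤ a)
    (h : x' ≤ x) :
    3 * y ^ 2 * (x - x') / a ^ 3 ≤ 3 * x / N x y - 3 * x' / N x' y := by
  have hx : 0 < x := by linarith
  have p1 : 0 < N x y := N_pos_left _ hx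
  have p2 : 0 < N x' y := N_pos_left _ hx'
  have ha : 0 < a := by linarith
  rw [xdiff p1 p2 (by positivity)]
  have e : 3 * y ^ 2 * (x - x') / a ^ 3 = 3 * y ^ 2 * (x ^ 2 - x' ^ 2) / (a * a * (x * a + x' * a)) := by
    have : x + x' ≠ 0 := by positivity
    field_simp
    ring
  rw [e]
  apply div_le_div_of_nonneg_left
  · have : 0 ≤ x ^ 2 - x' ^ 2 := by nlinarith
    positivity
  · positivity
  · gcongr

/-- range of parameters -/
def InBox (p h : ℝ) : Prop := 11 / 25 ≤ p ∧ p ≤ 9 / 20 ∧ 0 ≤ h ∧ h ≤ ep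

theorem rS_le {p h : ℝ} (H : InBox p h) : N (1 - p) (b - h) ≤ 13946 / 10000 ∧ N (1 - p) (b + h) ≤ 13946 / 10000 := by
  obtain ⟨h1, h2, h3, h4⟩ := H
  have e : ep = 1 / 1000 := rfl
  have e' : b = 1001 / 1000 := rfl
  have k : (1 - p) ^ 2 ≤ (14 / 25) ^ 2 := by nlinarith
  exact ⟨N_le (by norm_num) (by rw [e'] ; nlinarith), N_le (by norm_num) (by rw [e'] ; nlinarith)⟩

theorem le_rS {p h : ℝ} (H : InBox p h) : 1381 / 1000 ≤ N (1 - p) (b - h) ∧ 1381 / 1000 ≤ N (1 - p) (b + h) := by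
  obtain ⟨h1, h2, h3, h4⟩ := H
  have e : ep = 1 / 1000 := rfl
  have e' : b = 1001 / 1000 := rfl
  have k : (11 / 20) ^ 2 ≤ (1 - p) ^ 2 := by nlinarith
  exact ⟨le_N (by rw [e'] ; nlinarith), le_N (by rw [e'] ; nlinarith)⟩

theorem rT_le {p h : ℝ} (H : InBox p h) : N p (b + 3 - h) ≤ 40773 / 10000 ∧ N p (b + 3 + h) ≤ 40773 / 10000 := by
  obtain ⟨h1, h2, h3, h4⟩ := H
  have e : ep = 1 / 1000 := rfl
  have e' : b = 1001 / 1000 := rfl
  have k : p ^ 2 ≤ (9 / 20) ^ 2 := by nlinarith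
  exact ⟨N_le (by norm_num) (by rw [e'] ; nlinarith), N_le (by norm_num) (by rw [e'] ; nlinarith)⟩

theorem le_rT {p h : ℝ} (H : InBox p h) : 407 / 100 ≤ N p (b + 3 - h) ∧ 407 / 100 ≤ N p (b + 3 + h) := by
  obtain ⟨h1, h2, h3, h4⟩ := H
  have e : ep = 1 / 1000 := rfl
  have e' : b = 1001 / 1000 := rfl
  have k : (11 / 25) ^ 2 ≤ p ^ 2 := by nlinarith
  exact ⟨le_N (by rw [e'] ; nlinarith), le_N (by rw [e'] ; nlinarith)⟩

theorem le_rR {p h : ℝ} (H : InBox p h) : 268 / 100 ≤ N (1 + b - p) h := by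
  obtain ⟨h1, h2, h3, h4⟩ := H
  have e' : b = 1001 / 1000 := rfl
  have k : (1551 / 1000) ^ 2 ≤ (1 + b - p) ^ 2 := by rw [e'] ; nlinarith
  exact le_N (by nlinarith)

theorem le_Gh {p h : ℝ} (H : InBox p h) : h / 2 ≤ Gh p h := by
  have H' := H
  obtain ⟨h1, h2, h3, h4⟩ := H'
  have e : ep = 1 / 1000 := rfl
  have e' : b = 1001 / 1000 := rfl
  have q2 := yN_mono (x := p) (y := b + 3 - h) (y' := b + 3 + h) (by linarith) (by linarith)
    (N_pos_right _ (by linarith))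
  have a1 := le_rS H
  have a2 := rS_le H
  have q1 := le_ydiff (x := 1 - p) (y := b - h) (y' := b + h) (a := 13946 / 10000) (c := 1002 / 1000)
    (by linarith) (by linarith) a2.1 a2.2 (by linarith) (by linarith) (by linarith)
  have q3 : h / 2 ≤ 3 * (1 - p) ^ 2 * ((b + h) ^ 2 - (b - h) ^ 2) / (2 * (1002 / 1000) * (13946 / 10000) ^ 3) := by
    rw [le_div_iff₀ (by norm_num)]
    have k : (11 / 20) ^ 2 ≤ (1 - p) ^ 2 := by nlinarith
    have k2 : (b + h) ^ 2 - (b - h) ^ 2 = 4 * b * h := by ring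
    rw [k2, e']
    have k3 : (11 / 20) ^ 2 * h ≤ (1 - p) ^ 2 * h := mul_le_mul_of_nonneg_right k h3
    nlinarith
  unfold Gh
  linarith

theorem Fh_le {p h : ℝ} (H : InBox p h) : Gh p h + h / N (1 + b - p) h ≤ 3 / 2 * h := by
  have H' := H
  obtain ⟨h1, h2, h3, h4⟩ := H'
  have e : ep = 1 / 1000 := rfl
  have e' : b = 1001 / 1000 := rfl
  have a1 := le_rS H
  have a2 := le_rT H
  have a3 := le_rR H
  have q1 := ydiff_le (x := 1 - p) (y := b - h) (y' := b + h) (a := 1381 / 1000) (c := 1)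
    (by norm_num) (by norm_num) a1.1 a1.2 (by linarith) (by linarith)
  have q2 := ydiff_le (x := p) (y := b + 3 - h) (y' := b + 3 + h) (a := 407 / 100) (c := 4)
    (by norm_num) (by norm_num) a2.1 a2.2 (by linarith) (by linarith)
  have q3 : 3 * (1 - p) ^ 2 * ((b + h) ^ 2 - (b - h) ^ 2) / (2 * 1 * (1381 / 1000) ^ 3) ≤ 72 / 100 * h := by
    rw [div_le_iff₀ (by norm_num)]
    have k : (1 - p) ^ 2 ≤ (14 / 25) ^ 2 := by nlinarith
    have k2 : (b + h) ^ 2 - (b - h) ^ 2 = 4 * b * h := by ring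
    rw [k2, e']
    have k3 : (1 - p) ^ 2 * h ≤ (14 / 25) ^ 2 * h := mul_le_mul_of_nonneg_right k h3
    nlinarith
  have q4 : 3 * p ^ 2 * ((b + 3 + h) ^ 2 - (b + 3 - h) ^ 2) / (2 * 4 * (407 / 100) ^ 3) ≤ 2 / 100 * h := by
    rw [div_le_iff₀ (by norm_num)]
    have k : p ^ 2 ≤ (9 / 20) ^ 2 := by nlinarith
    have k2 : (b + 3 + h) ^ 2 - (b + 3 - h) ^ 2 = 4 * (b + 3) * h := by ring
    rw [k2, e']
    have k3 : p ^ 2 * h ≤ (9 / 20) ^ 2 * h := mul_le_mul_of_nonneg_right k h3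
    nlinarith
  have q5 : h / N (1 + b - p) h ≤ 4 / 10 * h := by
    rw [div_le_iff₀ (by linarith)]
    nlinarith
  unfold Gh
  linarith


def Fp (p h : ℝ) : ℝ := Gp p h + 3 * (1 + b - p) / N (1 + b - p) h
def Fh (p h : ℝ) : ℝ := Gh p h + h / N (1 + b - p) h

/-- `Fp` decreases in `p` -/
theorem Fp_anti {p p' h : ℝ} (H : InBox p h) (H' : InBox p' h) (hle : p' ≤ p) :
    2 * (p - p') ≤ Fp p' h - Fp p h := by
  have K := H
  have K' := H'
  obtain ⟨h1, h2, h3, h4⟩ := K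
  obtain ⟨h1', h2', _, _⟩ := K'
  have e : ep = 1 / 1000 := rfl
  have e' : b = 1001 / 1000 := rfl
  have a1 := rS_le H
  have a1' := rS_le H'
  have q1 := le_xdiff (x := 1 - p') (x' := 1 - p) (y := b - h) (a := 13946 / 10000) (by linarith)
    a1'.1 a1.1 (by linarith)
  have q2 := le_xdiff (x := 1 - p') (x' := 1 - p) (y := b + h) (a := 13946 / 10000) (by linarith)
    a1'.2 a1.2 (by linarith)
  have q3 := le_xdiff (x := p) (x' := p') (y := b + 3 - h) (a := 40773 / 10000) (by linarith)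
    (rT_le H).1 (rT_le H').1 hle
  have q4 := le_xdiff (x := p) (x' := p') (y := b + 3 + h) (a := 40773 / 10000) (by linarith)
    (rT_le H).2 (rT_le H').2 hle
  have q5 := le_xdiff (x := 1 + b - p') (x' := 1 + b - p) (y := h) (a := max (N (1 + b - p') h) (N (1 + b - p) h)) (by linarith)
    (le_max_left _ _) (le_max_right _ _) (by linarith)
  have r1 : (p - p') ≤ 3 * (b - h) ^ 2 * ((1 - p') - (1 - p)) / (13946 / 10000) ^ 3 := by
    rw [le_div_iff₀ (by norm_num)]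
    have : 1 ≤ (b - h) ^ 2 := by nlinarith
    nlinarith [mul_le_mul_of_nonneg_right this (show 0 ≤ p - p' by linarith)]
  have r2 : (p - p') ≤ 3 * (b + h) ^ 2 * ((1 - p') - (1 - p)) / (13946 / 10000) ^ 3 := by
    rw [le_div_iff₀ (by norm_num)]
    have : 1 ≤ (b + h) ^ 2 := by nlinarith
    nlinarith [mul_le_mul_of_nonneg_right this (show 0 ≤ p - p' by linarith)]
  have r3 : 0 ≤ 3 * (b + 3 - h) ^ 2 * (p - p') / (40773 / 10000) ^ 3 := by
    have : 0 ≤ p - p' := by linarith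
    positivity
  have r4 : 0 ≤ 3 * (b + 3 + h) ^ 2 * (p - p') / (40773 / 10000) ^ 3 := by
    have : 0 ≤ p - p' := by linarith
    positivity
  have r5 : 0 ≤ 3 * h ^ 2 * ((1 + b - p') - (1 + b - p)) / (max (N (1 + b - p') h) (N (1 + b - p) h)) ^ 3 := by
    have : 0 ≤ (1 + b - p') - (1 + b - p) := by linarith
    have h6 : 0 ≤ max (N (1 + b - p') h) (N (1 + b - p) h) := le_trans (N_nonneg _ _) (le_max_left _ _)
    positivity
  unfold Fp Gp
  linarith

/-- two-sided bound for the variation of `3x / N x y` in `y` -/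
theorem hdiff_bd {x y y' lo hi δ u v : ℝ} (hx : 0 < x) (hlo : 0 < lo)
    (h1 : lo ≤ N x y) (h2 : lo ≤ N x y') (h3 : N x y ≤ hi) (h4 : N x y' ≤ hi)
    (hu : 0 ≤ u) (h5 : u ≤ y' + y) (h6 : y' + y ≤ v) (hδ : y' - y = δ) (hδ0 : 0 ≤ δ) :
    3 * x * δ * (u / (2 * hi ^ 3)) ≤ 3 * x / N x y - 3 * x / N x y' ∧
    3 * x / N x y - 3 * x / N x y' ≤ 3 * x * δ * (v / (2 * lo ^ 3)) := by
  have p1 : 0 < N x y := by linarith
  have p2 : 0 < N x y' := by linarith
  rw [hdiff p1 p2]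
  have e : 3 * x * (y' ^ 2 - y ^ 2) / (N x y * N x y' * (N x y + N x y')) =
      3 * x * δ * ((y' + y) / (N x y * N x y' * (N x y + N x y'))) := by
    rw [← hδ]; ring
  rw [e]
  have hhi : 0 < hi := by linarith
  have hsum : 0 ≤ y' + y := by linarith
  have hv0 : 0 ≤ v := by linarith
  have k1 : 2 * lo ^ 3 ≤ N x y * N x y' * (N x y + N x y') := by
    calc 2 * lo ^ 3 = lo * lo * (lo + lo) := by ring
      _ ≤ _ := by gcongr
  have k2 : N x y * N x y' * (N x y + N x y') ≤ 2 * hi ^ 3 := by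
    calc N x y * N x y' * (N x y + N x y') ≤ hi * hi * (hi + hi) := by gcongr
      _ = _ := by ring
  constructor
  · gcongr
  · gcongr


theorem Fp_h {q h h' : ℝ} (H : InBox q h) (H' : InBox q h') (hle : h' ≤ h) :
    |Fp q h - Fp q h'| ≤ 3 / 100 * (h - h') := by
  have K := H
  have K' := H'
  obtain ⟨h1, h2, h3, h4⟩ := K
  obtain ⟨_, _, h3', h4'⟩ := K'
  have e : ep = 1 / 1000 := rfl
  have e' : b = 1001 / 1000 := rfl
  set δ := h - h' with hδ
  have hδ0 : 0 ≤ δ := by linarith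
  obtain ⟨l1, u1⟩ := hdiff_bd (x := 1 - q) (y := b - h) (y' := b - h') (lo := 1381 / 1000) (hi := 13946 / 10000)
    (δ := δ) (u := 2) (v := 2004 / 1000) (by linarith) (by norm_num) (le_rS H).1 (le_rS H').1
    (rS_le H).1 (rS_le H').1 (by norm_num) (by linarith) (by linarith) (by linarith) hδ0
  obtain ⟨l2, u2⟩ := hdiff_bd (x := 1 - q) (y := b + h') (y' := b + h) (lo := 1381 / 1000) (hi := 13946 / 10000)
    (δ := δ) (u := 2) (v := 2004 / 1000) (by linarith) (by norm_num) (le_rS H').2 (le_rS H).2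
    (rS_le H').2 (rS_le H).2 (by norm_num) (by linarith) (by linarith) (by linarith) hδ0
  obtain ⟨l3, u3⟩ := hdiff_bd (x := q) (y := b + 3 - h) (y' := b + 3 - h') (lo := 407 / 100) (hi := 40773 / 10000)
    (δ := δ) (u := 8) (v := 8004 / 1000) (by linarith) (by norm_num) (le_rT H).1 (le_rT H').1
    (rT_le H).1 (rT_le H').1 (by norm_num) (by linarith) (by linarith) (by linarith) hδ0
  obtain ⟨l4, u4⟩ := hdiff_bd (x := q) (y := b + 3 + h') (y' := b + 3 + h) (lo := 407 / 100) (hi := 40773 / 10000)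
    (δ := δ) (u := 8) (v := 8004 / 1000) (by linarith) (by norm_num) (le_rT H').2 (le_rT H).2
    (rT_le H').2 (rT_le H).2 (by norm_num) (by linarith) (by linarith) (by linarith) hδ0
  obtain ⟨l5, u5⟩ := hdiff_bd (x := 1 + b - q) (y := h') (y' := h) (lo := 268 / 100)
    (hi := max (N (1 + b - q) h') (N (1 + b - q) h))
    (δ := δ) (u := 0) (v := 2 / 1000) (by linarith) (by norm_num) (le_rR H') (le_rR H)
    (le_max_left _ _) (le_max_right _ _) (by norm_num) (by linarith) (by linarith) (by linarith) hδ0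
  rw [zero_div, mul_zero] at l5
  have hqδ : q * δ ≤ 9 / 20 * δ := mul_le_mul_of_nonneg_right h2 hδ0
  have hqδ' : 11 / 25 * δ ≤ q * δ := mul_le_mul_of_nonneg_right h1 hδ0
  have m1 : 3 * (1 - q) * δ * (2004 / 1000 / (2 * (1381 / 1000) ^ 3)) - 3 * (1 - q) * δ * (2 / (2 * (13946 / 10000) ^ 3)) ≤
      2 / 100 * δ := by
    have : 3 * (1 - q) * δ * (2004 / 1000 / (2 * (1381 / 1000) ^ 3)) - 3 * (1 - q) * δ * (2 / (2 * (13946 / 10000) ^ 3)) =
      (δ - q * δ) * (3 * (2004 / 1000 / (2 * (1381 / 1000) ^ 3) - 2 / (2 * (13946 / 10000) ^ 3))) := by ring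
    rw [this]
    have h6 : (3 * (2004 / 1000 / (2 * (1381 / 1000) ^ 3) - 2 / (2 * (13946 / 10000) ^ 3)) : ℝ) ≤ 355 / 10000 := by norm_num
    have h6' : (0:ℝ) ≤ (3 * (2004 / 1000 / (2 * (1381 / 1000) ^ 3) - 2 / (2 * (13946 / 10000) ^ 3)) : ℝ) := by norm_num
    calc _ ≤ (14 / 25 * δ) * (355 / 10000) := mul_le_mul (by linarith only [hqδ']) h6 h6' (by linarith only [hδ0])
      _ ≤ _ := by linarith only [hδ0]
  have m2 : 3 * q * δ * (8004 / 1000 / (2 * (407 / 100) ^ 3)) - 3 * q * δ * (8 / (2 * (40773 / 10000) ^ 3)) ≤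
      1 / 1000 * δ := by
    have : 3 * q * δ * (8004 / 1000 / (2 * (407 / 100) ^ 3)) - 3 * q * δ * (8 / (2 * (40773 / 10000) ^ 3)) =
      (q * δ) * (3 * (8004 / 1000 / (2 * (407 / 100) ^ 3) - 8 / (2 * (40773 / 10000) ^ 3))) := by ring
    rw [this]
    have h6 : (3 * (8004 / 1000 / (2 * (407 / 100) ^ 3) - 8 / (2 * (40773 / 10000) ^ 3)) : ℝ) ≤ 2 / 1000 := by norm_num
    have h6' : (0:ℝ) ≤ (3 * (8004 / 1000 / (2 * (407 / 100) ^ 3) - 8 / (2 * (40773 / 10000) ^ 3)) : ℝ) := by norm_num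
    calc _ ≤ (9 / 20 * δ) * (2 / 1000) := mul_le_mul hqδ h6 h6' (by linarith only [hδ0])
      _ ≤ _ := by linarith only [hδ0]
  have m3 : 3 * (1 + b - q) * δ * (2 / 1000 / (2 * (268 / 100) ^ 3)) ≤ 1 / 1000 * δ := by
    have : 3 * (1 + b - q) * δ * (2 / 1000 / (2 * (268 / 100) ^ 3)) =
      ((1 + b) * δ - q * δ) * (3 * (2 / 1000 / (2 * (268 / 100) ^ 3))) := by ring
    rw [this]
    have h6 : (3 * (2 / 1000 / (2 * (268 / 100) ^ 3)) : ℝ) ≤ 2 / 10000 := by norm_num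
    have h6' : (0:ℝ) ≤ (3 * (2 / 1000 / (2 * (268 / 100) ^ 3)) : ℝ) := by norm_num
    have h8 : (1 + b) * δ - q * δ ≤ 2 * δ := by rw [e'] ; linarith only [hqδ', hδ0]
    calc _ ≤ (2 * δ) * (2 / 10000) := mul_le_mul h8 h6 h6' (by linarith only [hδ0])
      _ ≤ _ := by linarith only [hδ0]
  unfold Fp Gp
  rw [abs_le]
  constructor
  · linarith only [l1, u1, l2, u2, l3, u3, l4, u4, l5, u5, m1, m2, m3, hδ0]
  · linarith only [l1, u1, l2, u2, l3, u3, l4, u4, l5, u5, m1, m2, m3, hδ0]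

end Pool.Agent.Helper544.Chain4
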