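import Mathlib
import Pool.Agent.Helper544.Chain4b

noncomputable section
open scoped Classical

namespace Pool.Agent.Helper544.Chain4

structure Sys (n : ℕ) (p h : ℕ → ℝ) : Prop where
  hn : 1 ≤ n
  p0 : p 0 = 0
  hb : ∀ k, 0 ≤ h k ∧ h k ≤ ep
  pb : ∀ k, 1 ≤ k → 11 / 25 ≤ p k ∧ p k ≤ 9 / 20
  e0 : (b - h 0) / N 1 (b - h 0) = 1 / 2 + (h 0 - h 1) / N (p 0 + p 1) (h 0 - h 1)
  eP : ∀ m, 1 ≤ m → m ≤ n →
      (Gp (p m) (h m) + (if m < n then 3 * (1 + b - p m) / N (1 + b - p m) (h m) -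
        3 * (p m + p (m + 1)) / N (p m + p (m + 1)) (h m - h (m + 1)) else 0) =
        3 * (p (m - 1) + p m) / N (p (m - 1) + p m) (h (m - 1) - h m))
  eH : ∀ m, 1 ≤ m → m ≤ n →
      (Gh (p m) (h m) + (if m < n then h m / N (1 + b - p m) (h m) +
        (h m - h (m + 1)) / N (p m + p (m + 1)) (h m - h (m + 1)) else 0) =
        (h (m - 1) - h m) / N (p (m - 1) + p m) (h (m - 1) - h m))

theorem exists_Sys (n : ℕ) (hn : 1 ≤ n) : ∃ p h, Sys n p h := by
  obtain ⟨p, h, h1, h2, h3, h4, h5⟩ := exists_eqs n hn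
  exact ⟨p, h, hn, h1, h2, h3, h4, fun m a b => (h5 m a b).1, fun m a b => (h5 m a b).2⟩

def sv (n : ℕ) (p h : ℕ → ℝ) (k : ℕ) : ℝ :=
  if k < n then (h k - h (k + 1)) / N (p k + p (k + 1)) (h k - h (k + 1)) else
    - h k / N (1 + b - p k) (h k)
def cv (n : ℕ) (p h : ℕ → ℝ) (k : ℕ) : ℝ :=
  if k < n then 3 * (p k + p (k + 1)) / N (p k + p (k + 1)) (h k - h (k + 1)) else
    3 * (1 + b - p k) / N (1 + b - p k) (h k)

namespace Sys
variable {n : ℕ} {p h : ℕ → ℝ} (S : Sys n p h)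
include S

theorem pn (k : ℕ) : 0 ≤ p k ∧ p k ≤ 9 / 20 := by
  rcases Nat.eq_zero_or_pos k with hk | hk
  · rw [hk, S.p0]; norm_num
  · constructor <;> linarith [(S.pb k hk).1, (S.pb k hk).2]

theorem psum (k : ℕ) : 11 / 25 ≤ p k + p (k + 1) := by
  linarith [(S.pn k).1, (S.pb (k + 1) (by omega)).1]

theorem inbox {k : ℕ} (hk : 1 ≤ k) : InBox (p k) (h k) :=
  ⟨(S.pb k hk).1, (S.pb k hk).2, (S.hb k).1, (S.hb k).2⟩

theorem Dpos (k : ℕ) : 0 < N (p k + p (k + 1)) (h k - h (k + 1)) :=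
  N_pos_left _ (by linarith [S.psum k])

theorem Rpos (k : ℕ) : 0 < N (1 + b - p k) (h k) := by
  have e' : b = 1001 / 1000 := rfl
  exact N_pos_left _ (by linarith [(S.pn k).2])

theorem eP' {m : ℕ} (h1 : 1 ≤ m) (h2 : m ≤ n) : Fp (p m) (h m) = cv n p h (m - 1) + cv n p h m := by
  have := S.eP m h1 h2
  unfold Fp cv
  rw [if_pos (show m - 1 < n by omega), Nat.sub_add_cancel h1]
  split_ifs at this ⊢ with hmn
  · linarith
  · linarith

theorem eH' {m : ℕ} (h1 : 1 ≤ m) (h2 : m ≤ n) : Fh (p m) (h m) = sv n p h (m - 1) - sv n p h m := by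
  have := S.eH m h1 h2
  unfold Fh sv
  rw [if_pos (show m - 1 < n by omega), Nat.sub_add_cancel h1]
  split_ifs at this ⊢ with hmn
  · linarith
  · have e : - h m / N (1 + b - p m) (h m) = -(h m / N (1 + b - p m) (h m)) := by ring
    linarith

theorem e0' : (b - h 0) / N 1 (b - h 0) = 1 / 2 + sv n p h 0 := by
  rw [S.e0]
  unfold sv
  rw [if_pos (by have := S.hn; omega)]

theorem c2 (k : ℕ) : cv n p h k ^ 2 + 3 * sv n p h k ^ 2 = 3 := by
  unfold cv sv
  split_ifs with hk
  · have h1 := S.Dpos k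
    have h2 := N_sq (p k + p (k + 1)) (h k - h (k + 1))
    rw [div_pow, div_pow, ← mul_div_assoc, ← add_div, div_eq_iff (by positivity), h2]
    ring
  · have h1 := S.Rpos k
    have h2 := N_sq (1 + b - p k) (h k)
    rw [div_pow, div_pow, ← mul_div_assoc, ← add_div, div_eq_iff (by positivity), h2]
    ring

theorem c_lo (k : ℕ) : 17320 / 10000 ≤ cv n p h k := by
  have e : ep = 1 / 1000 := rfl
  have e' : b = 1001 / 1000 := rfl
  unfold cv
  split_ifs with hk
  · exact le_xN (S.psum k) (by linarith [(S.hb k).1, (S.hb (k + 1)).2]) (by linarith [(S.hb k).2, (S.hb (k + 1)).1])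
  · exact le_xN (by linarith [(S.pn k).2]) (by linarith [(S.hb k).1]) (S.hb k).2

theorem Fh_nonneg' {k : ℕ} (hk : 1 ≤ k) : h k / 2 ≤ Fh (p k) (h k) := by
  have h1 := le_Gh (S.inbox hk)
  have h2 : 0 ≤ h k / N (1 + b - p k) (h k) := div_nonneg (S.hb k).1 (N_nonneg _ _)
  unfold Fh
  linarith

theorem s_last : h n / 2 ≤ sv n p h (n - 1) := by
  have := S.eH n S.hn le_rfl
  rw [if_neg (by omega), add_zero] at this
  unfold sv
  rw [if_pos (show n - 1 < n by have := S.hn; omega), Nat.sub_add_cancel S.hn, ← this]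
  exact le_Gh (S.inbox S.hn)

theorem s_last' : sv n p h (n - 1) = Gh (p n) (h n) := by
  have := S.eH n S.hn le_rfl
  rw [if_neg (by omega), add_zero] at this
  unfold sv
  rw [if_pos (show n - 1 < n by have := S.hn; omega), Nat.sub_add_cancel S.hn, ← this]

theorem s_step {m : ℕ} (h1 : 1 ≤ m) (h2 : m ≤ n) : sv n p h (m - 1) = Fh (p m) (h m) + sv n p h m := by
  linarith [S.eH' h1 h2]

theorem s_nonneg_aux : ∀ j, j < n → 0 ≤ sv n p h (n - 1 - j) := by
  intro j
  induction j with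
  | zero =>
    intro _
    have := S.s_last
    rw [Nat.sub_zero]
    linarith [(S.hb n).1]
  | succ j ih =>
    intro hj
    have h1 := ih (by omega)
    have h2 := S.s_step (m := n - 1 - j) (by omega) (by omega)
    have h3 := S.Fh_nonneg' (k := n - 1 - j) (by omega)
    rw [show n - 1 - (j + 1) = n - 1 - j - 1 by omega, h2]
    linarith [(S.hb (n - 1 - j)).1]

theorem s_nonneg {k : ℕ} (hk : k < n) : 0 ≤ sv n p h k := by
  have := S.s_nonneg_aux (n - 1 - k) (by omega)
  rwa [show n - 1 - (n - 1 - k) = k by omega] at this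

theorem sv_lt {k : ℕ} (hk : k < n) : h k - h (k + 1) = sv n p h k * N (p k + p (k + 1)) (h k - h (k + 1)) := by
  unfold sv
  rw [if_pos hk, div_mul_cancel₀]
  exact (S.Dpos k).ne'

theorem h_last_pos : 0 < h n := by
  have hn := S.hn
  rcases (S.hb n).1.lt_or_eq with h1 | h1
  · exact h1
  exfalso
  have key : ∀ j, j < n → h (n - j) = 0 ∧ sv n p h (n - 1 - j) = 0 := by
    intro j
    induction j with
    | zero =>
      intro _
      refine ⟨by rw [Nat.sub_zero]; exact h1.symm, ?_⟩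
      rw [Nat.sub_zero, S.s_last', ← h1, Gh_zero]
    | succ j ih =>
      intro hj
      obtain ⟨h2, h3⟩ := ih (by omega)
      have h4 := S.sv_lt (k := n - 1 - j) (by omega)
      rw [h3, zero_mul] at h4
      have h5 : h (n - 1 - j) = 0 := by
        rw [show n - 1 - j + 1 = n - j by omega, h2] at h4
        linarith
      have h6 := S.s_step (m := n - 1 - j) (by omega) (by omega)
      refine ⟨by rw [show n - (j + 1) = n - 1 - j by omega]; exact h5, ?_⟩
      rw [show n - 1 - (j + 1) = n - 1 - j - 1 by omega, h6, h3, h5]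
      unfold Fh
      rw [Gh_zero]
      simp
  obtain ⟨h2, h3⟩ := key (n - 1) (by omega)
  rw [show n - (n - 1) = 0 + 1 by omega] at h2
  rw [show n - 1 - (n - 1) = 0 by omega] at h3
  have h4 := S.sv_lt (k := 0) (by omega)
  rw [h3, zero_mul, h2] at h4
  have h5 : h 0 = 0 := by linarith
  have h6 := S.e0'
  rw [h3, h5] at h6
  have e' : b = 1001 / 1000 := rfl
  have h7 : 0 < N 1 (b - 0) := N_pos_left _ (by norm_num)
  rw [div_eq_iff h7.ne'] at h6
  have h8 := N_sq 1 (b - 0)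
  have h9 : N 1 (b - 0) = 2 * (b - 0) := by linarith
  rw [h9, e'] at h8
  norm_num at h8

theorem s_pos {k : ℕ} (hk : k < n) : 0 < sv n p h k := by
  have hn := S.hn
  have key : ∀ j, j < n → 0 < sv n p h (n - 1 - j) := by
    intro j
    induction j with
    | zero =>
      intro _
      have := S.s_last
      rw [Nat.sub_zero]
      linarith [S.h_last_pos]
    | succ j ih =>
      intro hj
      have h1 := ih (by omega)
      have h2 := S.s_step (m := n - 1 - j) (by omega) (by omega)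
      have h3 := S.Fh_nonneg' (k := n - 1 - j) (by omega)
      rw [show n - 1 - (j + 1) = n - 1 - j - 1 by omega, h2]
      linarith [(S.hb (n - 1 - j)).1]
  have := key (n - 1 - k) (by omega)
  rwa [show n - 1 - (n - 1 - k) = k by omega] at this

theorem h_lt {k : ℕ} (hk : k < n) : h (k + 1) < h k := by
  have h1 := S.sv_lt hk
  have h2 : 0 < sv n p h k * N (p k + p (k + 1)) (h k - h (k + 1)) := mul_pos (S.s_pos hk) (S.Dpos k)
  linarith

theorem h_anti {i j : ℕ} (hij : i < j) (hj : j ≤ n) : h j < h i := by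
  induction j with
  | zero => omega
  | succ j ih =>
    rcases Nat.lt_succ_iff_lt_or_eq.1 hij with h1 | h1
    · exact lt_trans (S.h_lt (by omega)) (ih h1 (by omega))
    · subst h1; exact S.h_lt (by omega)

theorem h_pos {k : ℕ} (hk : k ≤ n) : 0 < h k := by
  rcases hk.lt_or_eq with h1 | h1
  · exact lt_trans S.h_last_pos (S.h_anti h1 le_rfl)
  · rw [h1]; exact S.h_last_pos

theorem h0_lt : h 0 < ep := by
  have e : ep = 1 / 1000 := rfl
  have e' : b = 1001 / 1000 := rfl
  rcases (S.hb 0).2.lt_or_eq with h1 | h1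
  · exact h1
  exfalso
  have h2 := S.e0'
  have h3 := S.s_pos (k := 0) (by have := S.hn; omega)
  have hN : N 1 (b - h 0) = 2 := by
    rw [h1, e, e']
    unfold N
    rw [show (3 * (1:ℝ) ^ 2 + (1001 / 1000 - 1 / 1000) ^ 2) = 2 ^ 2 by norm_num]
    exact Real.sqrt_sq (by norm_num)
  rw [hN, h1] at h2
  rw [e, e'] at h2
  norm_num at h2
  linarith

/-- consecutive vertices of the chain are nearly vertically above each other -/
theorem near_step {i : ℕ} (hi : 1 ≤ i) (hin : i < n) : |p i - p (i + 1)| ≤ (h i - h (i + 1)) / 40 := by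
  have e : ep = 1 / 1000 := rfl
  have e' : b = 1001 / 1000 := rfl
  set s0 := sv n p h (i - 1) with hs0
  set s1 := sv n p h i with hs1
  set s2 := sv n p h (i + 1) with hs2
  set D := N (p i + p (i + 1)) (h i - h (i + 1)) with hD
  have H1 := S.inbox hi
  have H2 := S.inbox (show 1 ≤ i + 1 by omega)
  have s1pos : 0 < s1 := S.s_pos hin
  have hΔ : h i - h (i + 1) = s1 * D := S.sv_lt hin
  have hDlo : 152 / 100 ≤ D := by
    apply le_N
    have h1 : 88 / 100 ≤ p i + p (i + 1) := by linarith [H1.1, H2.1]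
    nlinarith [sq_nonneg (h i - h (i + 1))]
  have hDhi : D ≤ 156 / 100 := by
    apply N_le (by norm_num)
    have h1 : p i + p (i + 1) ≤ 9 / 10 := by linarith [H1.2.1, H2.2.1]
    have h1' : 0 ≤ p i + p (i + 1) := by linarith [H1.1, H2.1]
    have h2 : h i - h (i + 1) ≤ 1 / 1000 := by linarith [H1.2.2.2, H2.2.2.1]
    have h3 : -(1 / 1000) ≤ h i - h (i + 1) := by linarith [H1.2.2.1, H2.2.2.2]
    nlinarith
  have st1 : s0 = Fh (p i) (h i) + s1 := S.s_step hi hin.le
  have st2 : s1 = Fh (p (i + 1)) (h (i + 1)) + s2 := S.s_step (m := i + 1) (by omega) (by omega)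
  have fl1 := S.Fh_nonneg' hi
  have fl2 := S.Fh_nonneg' (show 1 ≤ i + 1 by omega)
  have fu1 : Fh (p i) (h i) ≤ 3 / 2 * h i := Fh_le H1
  have fu2 : Fh (p (i + 1)) (h (i + 1)) ≤ 3 / 2 * h (i + 1) := Fh_le H2
  have hi0 := (S.hb i)
  have hi1 := (S.hb (i + 1))
  have s2bd : -s1 ≤ s2 ∧ s2 ≤ s1 ∧ h (i + 1) ≤ 2 * s1 := by
    by_cases hlast : i + 1 < n
    · have h1 : 0 < s2 := S.s_pos hlast
      refine ⟨by linarith, by linarith, by linarith⟩
    · have hin' : i + 1 = n := by omega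
      have h1 : h (i + 1) / 2 ≤ s1 := by
        have := S.s_last
        rw [← hin'] at this
        rw [hin'] at this
        rw [hin', hs1, show i = n - 1 by omega]
        exact this
      have h2 : s2 = -(h (i + 1) / N (1 + b - p (i + 1)) (h (i + 1))) := by
        rw [hs2]
        unfold sv
        rw [if_neg hlast]
        ring
      have h3 : h (i + 1) / N (1 + b - p (i + 1)) (h (i + 1)) ≤ h (i + 1) / 2 := by
        apply div_le_div_of_nonneg_left hi1.1 (by norm_num)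
        linarith [le_rR H2]
      have h4 : 0 ≤ h (i + 1) / N (1 + b - p (i + 1)) (h (i + 1)) := div_nonneg hi1.1 (N_nonneg _ _)
      refine ⟨by linarith, by linarith, by linarith⟩
  obtain ⟨b1, b2, b3⟩ := s2bd
  have hDs : s1 * D ≤ s1 * (156 / 100) := mul_le_mul_of_nonneg_left hDhi s1pos.le
  have hDs' : s1 * (152 / 100) ≤ s1 * D := mul_le_mul_of_nonneg_left hDlo s1pos.le
  have hhi : h i ≤ 356 / 100 * s1 := by linarith
  have hs0u : s0 ≤ 634 / 100 * s1 := by linarith
  have hs0l : s1 ≤ s0 := by linarith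
  have hdiff : s0 - s2 ≤ 3 / 1000 := by linarith
  have hdiff0 : 0 ≤ s0 - s2 := by linarith
  have hsum : 0 ≤ s0 + s2 ∧ s0 + s2 ≤ 734 / 100 * s1 := ⟨by linarith, by linarith⟩
  set c0 := cv n p h (i - 1) with hc0
  set c2 := cv n p h (i + 1) with hc2
  have q0 : c0 ^ 2 + 3 * s0 ^ 2 = 3 := S.c2 (i - 1)
  have q2 : c2 ^ 2 + 3 * s2 ^ 2 = 3 := S.c2 (i + 1)
  have l0 : 17320 / 10000 ≤ c0 := S.c_lo (i - 1)
  have l2 : 17320 / 10000 ≤ c2 := S.c_lo (i + 1)
  have hprod : (c2 - c0) * (c0 + c2) = 3 * ((s0 - s2) * (s0 + s2)) := by linear_combination q2 - q0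
  have hcc : 0 ≤ c2 - c0 ∧ c2 - c0 ≤ 3 / 100 * s1 := by
    have h1 : 0 ≤ (s0 - s2) * (s0 + s2) := mul_nonneg hdiff0 hsum.1
    have h2 : (s0 - s2) * (s0 + s2) ≤ 3 / 1000 * (734 / 100 * s1) :=
      mul_le_mul hdiff hsum.2 hsum.1 (by norm_num)
    have h3 : 0 ≤ c2 - c0 := by
      by_contra hneg
      push Not at hneg
      have := mul_neg_of_neg_of_pos hneg (show 0 < c0 + c2 by linarith only [l0, l2])
      linarith only [this, hprod, h1]
    refine ⟨h3, ?_⟩
    have h4 : (c2 - c0) * (34640 / 10000) ≤ (c2 - c0) * (c0 + c2) :=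
      mul_le_mul_of_nonneg_left (by linarith only [l0, l2]) h3
    linarith only [h4, hprod, h2, s1pos]
  have eq1 : Fp (p i) (h i) = c0 + cv n p h i := S.eP' hi hin.le
  have eq2 : Fp (p (i + 1)) (h (i + 1)) = cv n p h i + c2 := S.eP' (m := i + 1) (by omega) (by omega)
  have hvar := Fp_h (q := p (i + 1)) (h := h i) (h' := h (i + 1)) ⟨H2.1, H2.2.1, H1.2.2.1, H1.2.2.2⟩ H2 (S.h_lt hin).le
  rw [abs_le] at hvar
  have hs1Δ : s1 ≤ (h i - h (i + 1)) * (2 / 3) := by linarith
  rw [abs_le]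
  rcases le_total (p (i + 1)) (p i) with hle | hle
  · have h1 := Fp_anti (p := p i) (p' := p (i + 1)) (h := h i) H1 ⟨H2.1, H2.2.1, H1.2.2.1, H1.2.2.2⟩ hle
    constructor <;> linarith
  · have h1 := Fp_anti (p := p (i + 1)) (p' := p i) (h := h i) ⟨H2.1, H2.2.1, H1.2.2.1, H1.2.2.2⟩ H1 hle
    constructor <;> linarith

theorem near {i j : ℕ} (hi : 1 ≤ i) (hij : i ≤ j) (hj : j ≤ n) : |p i - p j| ≤ (h i - h j) / 40 := by
  induction j with
  | zero => omega
  | succ j ih =>
    rcases Nat.le_succ_iff_eq_or_le.1 hij with h1 | h1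
    · rw [h1]; simp
    · have h2 := ih h1 (by omega)
      have h3 := S.near_step (i := j) (by omega) (by omega)
      calc |p i - p (j + 1)| = |(p i - p j) + (p j - p (j + 1))| := by congr 1; ring
        _ ≤ |p i - p j| + |p j - p (j + 1)| := abs_add_le _ _
        _ ≤ _ := by linarith

end Sys

end Pool.Agent.Helper544.Chain4
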