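import Mathlib

noncomputable section
open scoped Classical

namespace Pool.Agent.Helper544.Planar

/-- unit vector pointing from `a` to `b` -/
def uv (a b : ℂ) : ℂ := (b - a) / (‖b - a‖ : ℂ)

theorem uv_neg (a b : ℂ) : uv b a = - uv a b := by
  unfold uv
  rw [norm_sub_rev]
  ring

/-- point with parameter `s` on the line from `a` to `b` -/
def pt (a b : ℂ) (s : ℝ) : ℂ := a + (s : ℂ) * (b - a)

theorem pt_zero (a b : ℂ) : pt a b 0 = a := by simp [pt]
theorem pt_one (a b : ℂ) : pt a b 1 = b := by simp [pt]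
theorem pt_rev (a b : ℂ) (s : ℝ) : pt b a (1 - s) = pt a b s := by
  simp only [pt]; push_cast; ring
theorem pt_sub (a b : ℂ) (s t : ℝ) : pt a b t - pt a b s = ((t - s : ℝ) : ℂ) * (b - a) := by
  simp only [pt]; push_cast; ring
theorem pt_inj {a b : ℂ} (h : a ≠ b) {s t : ℝ} (e : pt a b s = pt a b t) : s = t := by
  have h1 : pt a b t - pt a b s = 0 := by rw [e]; ring
  rw [pt_sub] at h1
  rcases mul_eq_zero.1 h1 with h2 | h2
  · have : t - s = 0 := by exact_mod_cast h2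
    linarith
  · exact absurd (sub_eq_zero.1 h2).symm h

theorem mem_seg {a b z : ℂ} : z ∈ segment ℝ a b ↔ ∃ s : ℝ, 0 ≤ s ∧ s ≤ 1 ∧ z = pt a b s := by
  rw [segment_eq_image']
  constructor
  · rintro ⟨s, ⟨h0, h1⟩, rfl⟩
    exact ⟨s, h0, h1, by simp [pt]⟩
  · rintro ⟨s, h0, h1, rfl⟩
    exact ⟨s, ⟨h0, h1⟩, by simp [pt]⟩

theorem mem_openSeg {a b z : ℂ} : z ∈ openSegment ℝ a b ↔ ∃ s : ℝ, 0 < s ∧ s < 1 ∧ z = pt a b s := by
  rw [openSegment_eq_image']
  constructor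
  · rintro ⟨s, ⟨h0, h1⟩, rfl⟩
    exact ⟨s, h0, h1, by simp [pt]⟩
  · rintro ⟨s, h0, h1, rfl⟩
    exact ⟨s, ⟨h0, h1⟩, by simp [pt]⟩

theorem uv_pt {a b : ℂ} {s t : ℝ} (h : s < t) : uv (pt a b s) (pt a b t) = uv a b := by
  unfold uv
  rw [pt_sub]
  have h1 : (0:ℝ) < t - s := by linarith
  rw [norm_mul, Complex.norm_real, Real.norm_eq_abs, abs_of_pos h1]
  have h2 : ((t - s : ℝ) : ℂ) ≠ 0 := by exact_mod_cast h1.ne'
  by_cases h3 : b - a = 0
  · simp [h3]
  · have h4 : (‖b - a‖ : ℂ) ≠ 0 := by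
      exact_mod_cast (norm_ne_zero_iff.2 h3)
    push_cast at *
    field_simp

variable {ι : Type} [Fintype ι]

/-- an immersed (possibly self-crossing) weighted straight-line drawing -/
structure Drawing (ι : Type) where
  pos : ι → ℂ
  W : ι → ι → ℕ
  inj : Function.Injective pos
  symm : ∀ x y, W x y = W y x
  diag : ∀ x, W x x = 0
  ovl : ∀ x y z t, W x y ≠ 0 → W z t ≠ 0 → ¬ ((x = z ∧ y = t) ∨ (x = t ∧ y = z)) →
    ∀ p q, p ∈ segment ℝ (pos x) (pos y) → p ∈ segment ℝ (pos z) (pos t) →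
      q ∈ segment ℝ (pos x) (pos y) → q ∈ segment ℝ (pos z) (pos t) → p = q

namespace Drawing

variable (D : Drawing ι)

theorem ne_of_W {x y : ι} (h : D.W x y ≠ 0) : D.pos x ≠ D.pos y := by
  intro e
  have := D.inj e
  subst this
  exact h (D.diag x)

/-- crossing points -/
def X : Set ℂ := {p | ∃ x y z t, D.W x y ≠ 0 ∧ D.W z t ≠ 0 ∧ ¬ ((x = z ∧ y = t) ∨ (x = t ∧ y = z)) ∧
    p ∈ segment ℝ (D.pos x) (D.pos y) ∧ p ∈ segment ℝ (D.pos z) (D.pos t)}

/-- vertices of the planarised drawing -/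
def VS : Set ℂ := Set.range D.pos ∪ D.X

theorem X_finite : D.X.Finite := by
  have : D.X ⊆ ⋃ (x : ι), ⋃ (y : ι), ⋃ (z : ι), ⋃ (t : ι), {p | D.W x y ≠ 0 ∧ D.W z t ≠ 0 ∧ ¬ ((x = z ∧ y = t) ∨ (x = t ∧ y = z)) ∧
    p ∈ segment ℝ (D.pos x) (D.pos y) ∧ p ∈ segment ℝ (D.pos z) (D.pos t)} := by
    rintro p ⟨x, y, z, t, h⟩
    simp only [Set.mem_iUnion]
    exact ⟨x, y, z, t, h⟩
  refine Set.Finite.subset ?_ this
  refine Set.finite_iUnion fun x => Set.finite_iUnion fun y => Set.finite_iUnion fun z => Set.finite_iUnion fun t => ?_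
  apply Set.Subsingleton.finite
  rintro p ⟨h1, h2, h3, h4, h5⟩ q ⟨_, _, _, h6, h7⟩
  exact D.ovl x y z t h1 h2 h3 p q h4 h5 h6 h7

theorem VS_finite : D.VS.Finite := (Set.finite_range D.pos).union D.X_finite

/-- vertex finset -/
def V : Finset ℂ := D.VS_finite.toFinset

theorem mem_V {z : ℂ} : z ∈ D.V ↔ z ∈ D.VS := by
  simp [V]

theorem pos_mem (x : ι) : D.pos x ∈ D.V := by
  rw [mem_V]; exact Or.inl ⟨x, rfl⟩

/-- `w` is the vertex following `v` on the segment from `pos x` to `pos y` -/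
def Nx (v w : ℂ) (x y : ι) : Prop :=
  D.W x y ≠ 0 ∧ v ∈ D.V ∧ w ∈ D.V ∧ ∃ s s' : ℝ, 0 ≤ s ∧ s < s' ∧ s' ≤ 1 ∧
    v = pt (D.pos x) (D.pos y) s ∧ w = pt (D.pos x) (D.pos y) s' ∧
    ∀ r, s < r → r < s' → pt (D.pos x) (D.pos y) r ∉ D.V

/-- multiplicity of the planarised drawing -/
def m (v w : ℂ) : ℕ := ∑ x, ∑ y, if D.Nx v w x y then D.W x y else 0

theorem Nx.symm {v w : ℂ} {x y : ι} (h : D.Nx v w x y) : D.Nx w v y x := by
  obtain ⟨h1, h2, h3, s, s', h4, h5, h6, h7, h8, h9⟩ := h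
  refine ⟨by rw [D.symm]; exact h1, h3, h2, 1 - s', 1 - s, by linarith, by linarith, by linarith, ?_, ?_, ?_⟩
  · rw [pt_rev]; exact h8
  · rw [pt_rev]; exact h7
  · intro r hr1 hr2
    have := h9 (1 - r) (by linarith) (by linarith)
    rw [← pt_rev] at this
    simpa using this

theorem Nx_symm {v w : ℂ} {x y : ι} : D.Nx v w x y ↔ D.Nx w v y x :=
  ⟨fun h => Nx.symm D h, fun h => Nx.symm D h⟩

theorem m_symm (v w : ℂ) : D.m v w = D.m w v := by
  unfold m
  rw [Finset.sum_comm]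
  refine Finset.sum_congr rfl fun y _ => Finset.sum_congr rfl fun x _ => ?_
  by_cases h : D.Nx v w x y
  · rw [if_pos h, if_pos (Nx.symm D h), D.symm]
  · rw [if_neg h, if_neg (fun h' => h (Nx.symm D h'))]

theorem Nx.ne {v w : ℂ} {x y : ι} (h : D.Nx v w x y) : v ≠ w := by
  obtain ⟨h1, h2, h3, s, s', h4, h5, h6, h7, h8, h9⟩ := h
  intro e
  rw [h7, h8] at e
  have := pt_inj (D.ne_of_W h1) e
  linarith

theorem Nx.seg {v w : ℂ} {x y : ι} (h : D.Nx v w x y) :
    v ∈ segment ℝ (D.pos x) (D.pos y) ∧ w ∈ segment ℝ (D.pos x) (D.pos y) := by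
  obtain ⟨h1, h2, h3, s, s', h4, h5, h6, h7, h8, h9⟩ := h
  exact ⟨mem_seg.2 ⟨s, h4, by linarith, h7⟩, mem_seg.2 ⟨s', by linarith, h6, h8⟩⟩

theorem Nx.uv {v w : ℂ} {x y : ι} (h : D.Nx v w x y) : uv v w = uv (D.pos x) (D.pos y) := by
  obtain ⟨h1, h2, h3, s, s', h4, h5, h6, h7, h8, h9⟩ := h
  rw [h7, h8, uv_pt h5]

theorem Nx.unique {v w : ℂ} {x y x' y' : ι} (h : D.Nx v w x y) (h' : D.Nx v w x' y') :
    x = x' ∧ y = y' := by
  have hs := Nx.seg D h
  have hs' := Nx.seg D h'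
  have hne := Nx.ne D h
  have h1 := h.1
  have h1' := h'.1
  by_contra hcon
  by_cases hsw : x = y' ∧ y = x'
  · obtain ⟨rfl, rfl⟩ := hsw
    have e1 := Nx.uv D h
    have e2 := Nx.uv D h'
    rw [e1] at e2
    rw [uv_neg (D.pos x) (D.pos y)] at e2
    have : Planar.uv (D.pos x) (D.pos y) = 0 := by
      have h2 : (2:ℂ) * Planar.uv (D.pos x) (D.pos y) = 0 := by linear_combination e2
      simpa using h2
    unfold Planar.uv at this
    have hne' := D.ne_of_W h1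
    have h3 : D.pos y - D.pos x ≠ 0 := sub_ne_zero.2 hne'.symm
    have h4 : (‖D.pos y - D.pos x‖ : ℂ) ≠ 0 := by exact_mod_cast (norm_ne_zero_iff.2 h3)
    exact (div_ne_zero h3 h4) this
  · exact hne (D.ovl x y x' y' h1 h1' (by
      rintro (h | h)
      · exact hcon h
      · exact hsw h) v w hs.1 hs'.1 hs.2 hs'.2)

theorem m_eq {v w : ℂ} {x y : ι} (h : D.Nx v w x y) : D.m v w = D.W x y := by
  unfold m
  rw [Finset.sum_eq_single x, Finset.sum_eq_single y]
  · rw [if_pos h]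
  · intro y' _ hy
    rw [if_neg]
    intro h'
    exact hy (Nx.unique D h h').2.symm
  · simp
  · intro x' _ hx
    refine Finset.sum_eq_zero fun y' _ => ?_
    rw [if_neg]
    intro h'
    exact hx (Nx.unique D h h').1.symm
  · simp

theorem exists_Nx {v w : ℂ} (h : D.m v w ≠ 0) : ∃ x y, D.Nx v w x y := by
  by_contra hcon
  push Not at hcon
  apply h
  unfold m
  refine Finset.sum_eq_zero fun x _ => Finset.sum_eq_zero fun y _ => ?_
  rw [if_neg (hcon x y)]

theorem m_ne_zero_iff {v w : ℂ} : D.m v w ≠ 0 ↔ ∃ x y, D.Nx v w x y := by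
  constructor
  · exact D.exists_Nx
  · rintro ⟨x, y, h⟩
    rw [D.m_eq h]; exact h.1

/-- half-open incidence -/
def Ho (v : ℂ) (x y : ι) : Prop := ∃ s : ℝ, 0 ≤ s ∧ s < 1 ∧ v = pt (D.pos x) (D.pos y) s

theorem exists_next {v : ℂ} {x y : ι} (hW : D.W x y ≠ 0) (hv : v ∈ D.V) (h : D.Ho v x y) :
    ∃ w, D.Nx v w x y := by
  obtain ⟨s, h0, h1, rfl⟩ := h
  -- set of parameters
  let T : Finset ℂ := D.V.filter (fun w => ∃ r : ℝ, s < r ∧ r ≤ 1 ∧ w = pt (D.pos x) (D.pos y) r)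
  have hT : T.Nonempty := ⟨D.pos y, by
    simp only [T, Finset.mem_filter]
    exact ⟨D.pos_mem y, 1, h1, le_refl _, (pt_one _ _).symm⟩⟩
  obtain ⟨w, hw, hmin⟩ := Finset.exists_min_image T (fun w => ‖w - pt (D.pos x) (D.pos y) s‖) hT
  simp only [T, Finset.mem_filter] at hw
  obtain ⟨hwV, r, hr1, hr2, rfl⟩ := hw
  refine ⟨_, hW, hv, hwV, s, r, h0, hr1, hr2, rfl, rfl, ?_⟩
  intro r' h3 h4 hmem
  have := hmin (pt (D.pos x) (D.pos y) r') (by
    simp only [T, Finset.mem_filter]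
    exact ⟨hmem, r', h3, by linarith, rfl⟩)
  simp only [pt_sub, norm_mul, Complex.norm_real, Real.norm_eq_abs] at this
  rw [abs_of_pos (by linarith), abs_of_pos (by linarith)] at this
  have hpos : 0 < ‖D.pos y - D.pos x‖ := norm_pos_iff.2 (sub_ne_zero.2 (D.ne_of_W hW).symm)
  nlinarith

theorem next_unique {v w w' : ℂ} {x y : ι} (h : D.Nx v w x y) (h' : D.Nx v w' x y) : w = w' := by
  obtain ⟨h1, h2, h3, s, s', h4, h5, h6, h7, h8, h9⟩ := h
  obtain ⟨g1, g2, g3, t, t', g4, g5, g6, g7, g8, g9⟩ := h'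
  have hst : s = t := pt_inj (D.ne_of_W h1) (h7 ▸ g7)
  subst hst
  rcases lt_trichotomy s' t' with h | h | h
  · exact absurd (h8 ▸ h3) (g9 s' h5 h)
  · rw [h8, g8, h]
  · exact absurd (g8 ▸ g3) (h9 t' g5 h)

theorem Nx.ho {v w : ℂ} {x y : ι} (h : D.Nx v w x y) : D.Ho v x y := by
  obtain ⟨h1, h2, h3, s, s', h4, h5, h6, h7, h8, h9⟩ := h
  exact ⟨s, h4, by linarith, h7⟩

theorem sum_formula {v : ℂ} (hv : v ∈ D.V) :
    ∑ w ∈ D.V, (D.m v w : ℂ) * uv v w =
      ∑ x, ∑ y, if D.Ho v x y then (D.W x y : ℂ) * uv (D.pos x) (D.pos y) else 0 := by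
  have step1 : ∀ w ∈ D.V, (D.m v w : ℂ) * uv v w =
      ∑ x, ∑ y, if D.Nx v w x y then (D.W x y : ℂ) * uv (D.pos x) (D.pos y) else 0 := by
    intro w _
    unfold m
    push_cast
    rw [Finset.sum_mul]
    refine Finset.sum_congr rfl fun x _ => ?_
    rw [Finset.sum_mul]
    refine Finset.sum_congr rfl fun y _ => ?_
    by_cases h : D.Nx v w x y
    · rw [if_pos h, if_pos h, Nx.uv D h]
    · rw [if_neg h, if_neg h, zero_mul]
  rw [Finset.sum_congr rfl step1, Finset.sum_comm]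
  refine Finset.sum_congr rfl fun x _ => ?_
  rw [Finset.sum_comm]
  refine Finset.sum_congr rfl fun y _ => ?_
  by_cases hW : D.W x y = 0
  · simp [hW]
  by_cases hH : D.Ho v x y
  · obtain ⟨w, hw⟩ := D.exists_next hW hv hH
    rw [if_pos hH, Finset.sum_eq_single w]
    · rw [if_pos hw]
    · intro w' _ hne
      rw [if_neg]
      intro h'
      exact hne (D.next_unique h' hw)
    · intro h'
      exact absurd hw.2.2.1 h'
  · rw [if_neg hH]
    refine Finset.sum_eq_zero fun w _ => ?_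
    rw [if_neg]
    intro h'
    exact hH (Nx.ho D h')

/-- open incidence -/
def Op (v : ℂ) (x y : ι) : Prop := ∃ s : ℝ, 0 < s ∧ s < 1 ∧ v = pt (D.pos x) (D.pos y) s

theorem Op_symm {v : ℂ} {x y : ι} : D.Op v x y ↔ D.Op v y x := by
  constructor <;>
  · rintro ⟨s, h0, h1, rfl⟩
    exact ⟨1 - s, by linarith, by linarith, (pt_rev _ _ _).symm⟩

theorem open_sum_zero (v : ℂ) :
    ∑ x, ∑ y, (if D.Op v x y then (D.W x y : ℂ) * uv (D.pos x) (D.pos y) else 0) = 0 := by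
  set S := ∑ x, ∑ y, (if D.Op v x y then (D.W x y : ℂ) * uv (D.pos x) (D.pos y) else 0) with hS
  have h : S = -S := by
    conv_lhs => rw [hS, Finset.sum_comm]
    rw [hS, ← Finset.sum_neg_distrib]
    refine Finset.sum_congr rfl fun x _ => ?_
    rw [← Finset.sum_neg_distrib]
    refine Finset.sum_congr rfl fun y _ => ?_
    by_cases h : D.Op v y x
    · rw [if_pos h, if_pos (D.Op_symm.1 h), D.symm y x, uv_neg (D.pos x) (D.pos y)]
      ring
    · rw [if_neg h, if_neg (fun h' => h (D.Op_symm.1 h'))]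
      simp
  have h2 : (2:ℂ) * S = 0 := by linear_combination h
  simpa using h2

theorem Ho_iff {v : ℂ} {x y : ι} (hW : D.W x y ≠ 0) :
    D.Ho v x y ↔ (v = D.pos x ∨ D.Op v x y) := by
  constructor
  · rintro ⟨s, h0, h1, rfl⟩
    rcases h0.eq_or_lt with h | h
    · left; rw [← h, pt_zero]
    · right; exact ⟨s, h, h1, rfl⟩
  · rintro (h | ⟨s, h0, h1, h⟩)
    · exact ⟨0, le_refl _, by norm_num, by rw [pt_zero]; exact h⟩
    · exact ⟨s, h0.le, h1, h⟩

theorem not_both {v : ℂ} {x y : ι} (hW : D.W x y ≠ 0) : ¬ (v = D.pos x ∧ D.Op v x y) := by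
  rintro ⟨h, s, h0, h1, h2⟩
  rw [h] at h2
  have h3 : pt (D.pos x) (D.pos y) 0 = pt (D.pos x) (D.pos y) s := by rw [pt_zero]; exact h2
  have := pt_inj (D.ne_of_W hW) h3
  linarith

theorem sum_formula2 {v : ℂ} (hv : v ∈ D.V) :
    ∑ w ∈ D.V, (D.m v w : ℂ) * uv v w =
      ∑ x, ∑ y, if v = D.pos x then (D.W x y : ℂ) * uv (D.pos x) (D.pos y) else 0 := by
  have h0 := D.open_sum_zero v
  have h00 : (∑ x, ∑ y, if v = D.pos x then (D.W x y : ℂ) * uv (D.pos x) (D.pos y) else 0) =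
      (∑ x, ∑ y, if v = D.pos x then (D.W x y : ℂ) * uv (D.pos x) (D.pos y) else 0) +
      ∑ x, ∑ y, (if D.Op v x y then (D.W x y : ℂ) * uv (D.pos x) (D.pos y) else 0) := by
    rw [h0, add_zero]
  rw [D.sum_formula hv, h00, ← Finset.sum_add_distrib]
  refine Finset.sum_congr rfl fun x _ => ?_
  rw [← Finset.sum_add_distrib]
  refine Finset.sum_congr rfl fun y _ => ?_
  by_cases hW : D.W x y = 0
  · simp [hW]
  by_cases h1 : v = D.pos x
  · have h2 : ¬ D.Op v x y := fun h => D.not_both hW ⟨h1, h⟩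
    rw [if_pos ((D.Ho_iff hW).2 (Or.inl h1)), if_pos h1, if_neg h2, add_zero]
  · by_cases h2 : D.Op v x y
    · rw [if_pos ((D.Ho_iff hW).2 (Or.inr h2)), if_neg h1, if_pos h2, zero_add]
    · rw [if_neg (fun h => ((D.Ho_iff hW).1 h).elim h1 h2), if_neg h1, if_neg h2, add_zero]

theorem imb_pos (x0 : ι) :
    ∑ w ∈ D.V, (D.m (D.pos x0) w : ℂ) * uv (D.pos x0) w =
      ∑ y, (D.W x0 y : ℂ) * uv (D.pos x0) (D.pos y) := by
  rw [D.sum_formula2 (D.pos_mem x0), Finset.sum_eq_single x0]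
  · simp
  · intro x _ hx
    refine Finset.sum_eq_zero fun y _ => ?_
    rw [if_neg]
    intro h
    exact hx (D.inj h).symm
  · simp

theorem imb_cross {v : ℂ} (hv : v ∈ D.V) (hv' : v ∉ Set.range D.pos) :
    ∑ w ∈ D.V, (D.m v w : ℂ) * uv v w = 0 := by
  rw [D.sum_formula2 hv]
  refine Finset.sum_eq_zero fun x _ => Finset.sum_eq_zero fun y _ => ?_
  rw [if_neg]
  intro h
  exact hv' ⟨x, h.symm⟩

/-- degree lower bound from a finset of darts leaving `v` -/
theorem degree_le {v : ℂ} (hv : v ∈ D.V) (S : Finset (ι × ι))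
    (hS : ∀ p ∈ S, D.W p.1 p.2 ≠ 0 ∧ D.Ho v p.1 p.2) :
    S.card ≤ (D.V.filter (fun w => D.m v w ≠ 0)).card := by
  have hex : ∀ p : ι × ι, ∃ w, p ∈ S → D.Nx v w p.1 p.2 := by
    intro p
    by_cases hp : p ∈ S
    · obtain ⟨w, hw⟩ := D.exists_next (hS p hp).1 hv (hS p hp).2
      exact ⟨w, fun _ => hw⟩
    · exact ⟨0, fun h => absurd h hp⟩
  choose f hf using hex
  refine Finset.card_le_card_of_injOn f ?_ ?_
  · intro p hp
    have h := hf p hp
    simp only [Finset.coe_filter, Set.mem_ofPred_eq]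
    exact ⟨h.2.2.1, D.m_ne_zero_iff.2 ⟨p.1, p.2, h⟩⟩
  · intro p hp q hq e
    have h1 := hf p hp
    have h2 := hf q hq
    rw [e] at h1
    have := Nx.unique D h1 h2
    exact Prod.ext this.1 this.2

theorem degree_pos (x0 : ι) :
    (Finset.univ.filter (fun y => D.W x0 y ≠ 0)).card ≤
      (D.V.filter (fun w => D.m (D.pos x0) w ≠ 0)).card := by
  have := D.degree_le (D.pos_mem x0) ((Finset.univ.filter (fun y => D.W x0 y ≠ 0)).image (fun y => (x0, y))) (by
    intro p hp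
    simp only [Finset.mem_image, Finset.mem_filter, Finset.mem_univ, true_and] at hp
    obtain ⟨y, hy, rfl⟩ := hp
    exact ⟨hy, (D.Ho_iff hy).2 (Or.inl rfl)⟩)
  rwa [Finset.card_image_of_injective _ (by intro a b h; simpa using h)] at this

theorem degree_cross {v : ℂ} (hv : v ∈ D.V) (hv' : v ∉ Set.range D.pos) :
    4 ≤ (D.V.filter (fun w => D.m v w ≠ 0)).card := by
  have hX : v ∈ D.X := by
    rcases D.mem_V.1 hv with h | h
    · exact absurd h hv'
    · exact h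
  obtain ⟨x, y, z, t, h1, h2, h3, h4, h5⟩ := hX
  have key : ∀ a b, D.W a b ≠ 0 → v ∈ segment ℝ (D.pos a) (D.pos b) → D.Ho v a b := by
    intro a b hab hseg
    obtain ⟨s, hs0, hs1, hs⟩ := mem_seg.1 hseg
    refine ⟨s, hs0, lt_of_le_of_ne hs1 ?_, hs⟩
    intro e
    rw [e, pt_one] at hs
    exact hv' ⟨b, hs.symm⟩
  have hxy : x ≠ y := by
    intro e; rw [e] at h1; exact h1 (D.diag y)
  have hzt : z ≠ t := by
    intro e; rw [e] at h2; exact h2 (D.diag t)
  have hcard : ({(x, y), (y, x), (z, t), (t, z)} : Finset (ι × ι)).card = 4 := by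
    push Not at h3
    rw [Finset.card_insert_of_notMem, Finset.card_insert_of_notMem, Finset.card_insert_of_notMem,
      Finset.card_singleton]
    · simp only [Finset.mem_singleton, Prod.mk.injEq, not_and]
      intro e1 _; exact hzt e1
    · simp only [Finset.mem_insert, Finset.mem_singleton, Prod.mk.injEq, not_or, not_and]
      refine ⟨fun e1 e2 => ?_, fun e1 e2 => ?_⟩
      · exact h3.2 e2 e1
      · exact h3.1 e2 e1
    · simp only [Finset.mem_insert, Finset.mem_singleton, Prod.mk.injEq, not_or, not_and]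
      refine ⟨fun e1 _ => hxy e1, fun e1 e2 => ?_, fun e1 e2 => ?_⟩
      · exact h3.1 e1 e2
      · exact h3.2 e1 e2
  rw [← hcard]
  apply D.degree_le hv
  intro p hp
  simp only [Finset.mem_insert, Finset.mem_singleton] at hp
  have h4' : v ∈ segment ℝ (D.pos y) (D.pos x) := by rw [segment_symm]; exact h4
  have h5' : v ∈ segment ℝ (D.pos t) (D.pos z) := by rw [segment_symm]; exact h5
  have h1' : D.W y x ≠ 0 := by rw [D.symm]; exact h1
  have h2' : D.W t z ≠ 0 := by rw [D.symm]; exact h2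
  rcases hp with rfl | rfl | rfl | rfl
  · exact ⟨h1, key _ _ h1 h4⟩
  · exact ⟨h1', key _ _ h1' h4'⟩
  · exact ⟨h2, key _ _ h2 h5⟩
  · exact ⟨h2', key _ _ h2' h5'⟩

theorem edge_mem {a b : ℂ} (h : D.m a b ≠ 0) : a ∈ D.V ∧ b ∈ D.V ∧ a ≠ b := by
  obtain ⟨x, y, h⟩ := D.exists_Nx h
  exact ⟨h.2.1, h.2.2.1, Nx.ne D h⟩

theorem no_interior {a b c : ℂ} (h : D.m a b ≠ 0) (hc : c ∈ D.V) : c ∉ openSegment ℝ a b := by
  obtain ⟨x, y, h1, h2, h3, s, s', h4, h5, h6, h7, h8, h9⟩ := D.exists_Nx h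
  intro hcon
  obtain ⟨r, hr0, hr1, hr⟩ := mem_openSeg.1 hcon
  have e : c = pt (D.pos x) (D.pos y) (s + r * (s' - s)) := by
    rw [hr, h7, h8]
    simp only [pt]; push_cast; ring
  refine h9 (s + r * (s' - s)) (by nlinarith) (by nlinarith) ?_
  rw [← e]; exact hc

theorem mem_of_open {a b z : ℂ} (hz : z ∈ segment ℝ a b) (h : z ∉ openSegment ℝ a b) : z = a ∨ z = b := by
  obtain ⟨s, h0, h1, hs⟩ := mem_seg.1 hz
  by_cases e0 : s = 0
  · left; rw [hs, e0, pt_zero]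
  by_cases e1 : s = 1
  · right; rw [hs, e1, pt_one]
  exact absurd (mem_openSeg.2 ⟨s, lt_of_le_of_ne h0 (Ne.symm e0), lt_of_le_of_ne h1 e1, hs⟩) h

theorem planar_aux {a b c d z : ℂ} {x y : ι} (h : D.Nx a b x y) (h' : D.Nx c d x y)
    (hne : ¬ (a = c ∧ b = d)) (hz : z ∈ segment ℝ a b) (hz' : z ∈ segment ℝ c d) :
    (z = a ∨ z = b) ∧ (z = c ∨ z = d) := by
  obtain ⟨h1, h2, h3, s, s', h4, h5, h6, h7, h8, h9⟩ := h
  obtain ⟨g1, g2, g3, t, t', g4, g5, g6, g7, g8, g9⟩ := h'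
  obtain ⟨r, hr0, hr1, hr⟩ := mem_seg.1 hz
  obtain ⟨q, hq0, hq1, hq⟩ := mem_seg.1 hz'
  have e : z = pt (D.pos x) (D.pos y) (s + r * (s' - s)) := by
    rw [hr, h7, h8]
    simp only [pt]; push_cast; ring
  have e' : z = pt (D.pos x) (D.pos y) (t + q * (t' - t)) := by
    rw [hq, g7, g8]
    simp only [pt]; push_cast; ring
  have ee : s + r * (s' - s) = t + q * (t' - t) := pt_inj (D.ne_of_W h1) (e ▸ e')
  set u := s + r * (s' - s) with hu
  have hu1 : s ≤ u := by nlinarith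
  have hu2 : u ≤ s' := by nlinarith
  have hu3 : t ≤ u := by nlinarith
  have hu4 : u ≤ t' := by nlinarith
  rcases lt_trichotomy s t with hst | hst | hst
  · -- s < t so s' ≤ t
    have h10 : s' ≤ t := by
      by_contra hcon
      push Not at hcon
      exact h9 t hst hcon (g7 ▸ g2)
    have e1 : u = s' := by linarith
    have e2 : u = t := by linarith
    refine ⟨Or.inr ?_, Or.inl ?_⟩
    · rw [e, e1, h8]
    · rw [e, e2, g7]
  · subst hst
    exfalso
    apply hne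
    refine ⟨by rw [h7, g7], ?_⟩
    rcases lt_trichotomy s' t' with h | h | h
    · exact absurd (h8 ▸ h3) (g9 s' h5 h)
    · rw [h8, g8, h]
    · exact absurd (g8 ▸ g3) (h9 t' g5 h)
  · have h10 : t' ≤ s := by
      by_contra hcon
      push Not at hcon
      exact g9 s hst hcon (h7 ▸ h2)
    have e1 : u = t' := by linarith
    have e2 : u = s := by linarith
    refine ⟨Or.inl ?_, Or.inr ?_⟩
    · rw [e, e2, h7]
    · rw [e, e1, g8]

theorem planar {a b c d : ℂ} (hab : D.m a b ≠ 0) (hcd : D.m c d ≠ 0)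
    (hne : ¬ ((a = c ∧ b = d) ∨ (a = d ∧ b = c))) {z : ℂ}
    (hz : z ∈ segment ℝ a b) (hz' : z ∈ segment ℝ c d) :
    (z = a ∨ z = b) ∧ (z = c ∨ z = d) := by
  obtain ⟨x, y, h⟩ := D.exists_Nx hab
  obtain ⟨x', y', h'⟩ := D.exists_Nx hcd
  push Not at hne
  by_cases hs : x = x' ∧ y = y'
  · obtain ⟨rfl, rfl⟩ := hs
    exact D.planar_aux h h' (fun hh => hne.1 hh.1 hh.2) hz hz'
  by_cases hs' : x = y' ∧ y = x'
  · obtain ⟨rfl, rfl⟩ := hs'
    have := D.planar_aux h (Nx.symm D h') (fun hh => hne.2 hh.1 hh.2) hz (by rw [segment_symm]; exact hz')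
    exact ⟨this.1, this.2.symm⟩
  · have hzx : z ∈ D.V := by
      rw [mem_V]
      right
      refine ⟨x, y, x', y', h.1, h'.1, ?_, ?_, ?_⟩
      · rintro (hh | hh)
        · exact hs hh
        · exact hs' hh
      · have := Nx.seg D h
        exact (convex_segment _ _).segment_subset this.1 this.2 hz
      · have := Nx.seg D h'
        exact (convex_segment _ _).segment_subset this.1 this.2 hz'
    exact ⟨mem_of_open hz (D.no_interior hab hzx), mem_of_open hz' (D.no_interior hcd hzx)⟩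

theorem m_le {n : ℕ} (hn : ∀ x y, D.W x y ≤ n) (a b : ℂ) : D.m a b ≤ n := by
  by_cases h : D.m a b = 0
  · rw [h]; exact Nat.zero_le _
  · obtain ⟨x, y, h⟩ := D.exists_Nx h
    rw [D.m_eq h]; exact hn x y

/-- every vertex lying on a drawn segment is joined to its endpoint -/
theorem conn_seg {x y : ι} (hW : D.W x y ≠ 0) :
    ∀ n : ℕ, ∀ v ∈ D.V, ∀ s : ℝ, 0 ≤ s → s ≤ 1 → v = pt (D.pos x) (D.pos y) s →
      (D.V.filter (fun w => ∃ r : ℝ, s < r ∧ r ≤ 1 ∧ w = pt (D.pos x) (D.pos y) r)).card ≤ n →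
      Relation.ReflTransGen (fun a b => D.m a b ≠ 0) v (D.pos y) := by
  intro n
  induction n with
  | zero =>
    intro v hv s h0 h1 hs hcard
    have : s = 1 := by
      by_contra hne
      have hlt : s < 1 := lt_of_le_of_ne h1 hne
      have hmem : D.pos y ∈ (D.V.filter (fun w => ∃ r : ℝ, s < r ∧ r ≤ 1 ∧ w = pt (D.pos x) (D.pos y) r)) := by
        rw [Finset.mem_filter]
        exact ⟨D.pos_mem y, 1, hlt, le_refl _, (pt_one _ _).symm⟩
      have := Finset.card_pos.2 ⟨_, hmem⟩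
      omega
    rw [hs, this, pt_one]
  | succ n ih =>
    intro v hv s h0 h1 hs hcard
    by_cases hne : s = 1
    · rw [hs, hne, pt_one]
    have hlt : s < 1 := lt_of_le_of_ne h1 hne
    obtain ⟨w, hw⟩ := D.exists_next hW hv ⟨s, h0, hlt, hs⟩
    have hw' := hw
    obtain ⟨k1, k2, k3, t, t', k4, k5, k6, k7, k8, k9⟩ := hw
    have hts : s = t := pt_inj (D.ne_of_W k1) (hs ▸ k7)
    subst hts
    refine Relation.ReflTransGen.head (D.m_ne_zero_iff.2 ⟨x, y, hw'⟩) ?_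
    refine ih w k3 t' (by linarith) k6 k8 ?_
    have hsub : (D.V.filter (fun w => ∃ r : ℝ, t' < r ∧ r ≤ 1 ∧ w = pt (D.pos x) (D.pos y) r)) ⊂
        (D.V.filter (fun w => ∃ r : ℝ, s < r ∧ r ≤ 1 ∧ w = pt (D.pos x) (D.pos y) r)) := by
      rw [Finset.ssubset_iff_of_subset]
      · refine ⟨w, ?_, ?_⟩
        · rw [Finset.mem_filter]; exact ⟨k3, t', k5, k6, k8⟩
        · rw [Finset.mem_filter]
          rintro ⟨_, r, hr1, hr2, hr3⟩
          have := pt_inj (D.ne_of_W k1) (k8 ▸ hr3)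
          linarith
      · intro q hq
        rw [Finset.mem_filter] at hq ⊢
        obtain ⟨hq1, r, hr1, hr2, hr3⟩ := hq
        exact ⟨hq1, r, by linarith, hr2, hr3⟩
    have := Finset.card_lt_card hsub
    omega

theorem conn_end {x y : ι} (hW : D.W x y ≠ 0) {v : ℂ} (hv : v ∈ D.V)
    (hs : v ∈ segment ℝ (D.pos x) (D.pos y)) :
    Relation.ReflTransGen (fun a b => D.m a b ≠ 0) v (D.pos y) := by
  obtain ⟨s, h0, h1, h2⟩ := mem_seg.1 hs
  exact D.conn_seg hW _ v hv s h0 h1 h2 le_rfl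

theorem rel_symm {a b : ℂ} (h : Relation.ReflTransGen (fun a b => D.m a b ≠ 0) a b) :
    Relation.ReflTransGen (fun a b => D.m a b ≠ 0) b a := by
  induction h with
  | refl => exact Relation.ReflTransGen.refl
  | tail _ hbc ih => exact Relation.ReflTransGen.head (by rw [D.m_symm]; exact hbc) ih

/-- connectivity of the planarised drawing from connectivity of the abstract graph -/
theorem connected
    (hconn : ∀ x y, Relation.ReflTransGen (fun a b => D.W a b ≠ 0) x y) :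
    ∀ a ∈ D.V, ∀ b ∈ D.V, Relation.ReflTransGen (fun a b => D.m a b ≠ 0) a b := by
  have hpp : ∀ x y, Relation.ReflTransGen (fun a b => D.m a b ≠ 0) (D.pos x) (D.pos y) := by
    intro x y
    induction hconn x y with
    | refl => exact Relation.ReflTransGen.refl
    | tail _ hbc ih =>
      refine ih.trans ?_
      exact D.conn_end hbc (D.pos_mem _) (left_mem_segment _ _ _)
  have hv : ∀ v ∈ D.V, ∃ x, Relation.ReflTransGen (fun a b => D.m a b ≠ 0) v (D.pos x) := by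
    intro v hv
    rcases D.mem_V.1 hv with ⟨x, rfl⟩ | ⟨x, y, z, t, h1, h2, h3, h4, h5⟩
    · exact ⟨x, Relation.ReflTransGen.refl⟩
    · exact ⟨y, D.conn_end h1 hv h4⟩
  intro a ha b hb
  obtain ⟨x, hx⟩ := hv a ha
  obtain ⟨y, hy⟩ := hv b hb
  exact (hx.trans (hpp x y)).trans (D.rel_symm hy)

end Drawing

end Pool.Agent.Helper544.Planar
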