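import Mathlib
import Pool.Agent.Helper544.Planar

noncomputable section
open scoped Classical

namespace Pool.Agent.Helper544.Planar

/-- a unit weight immersed drawing given by a list of edges -/
structure EdgeList (ι EK : Type) where
  pos : ι → ℂ
  src : EK → ι
  tgt : EK → ι
  inj : Function.Injective pos
  ne : ∀ e, src e ≠ tgt e
  ovl : ∀ e e', e ≠ e' → ∀ p q, p ∈ segment ℝ (pos (src e)) (pos (tgt e)) →
    p ∈ segment ℝ (pos (src e')) (pos (tgt e')) →
    q ∈ segment ℝ (pos (src e)) (pos (tgt e)) → q ∈ segment ℝ (pos (src e')) (pos (tgt e')) → p = q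

namespace EdgeList
variable {ι EK : Type} (E : EdgeList ι EK)

def Inc (e : EK) (x y : ι) : Prop := (E.src e = x ∧ E.tgt e = y) ∨ (E.src e = y ∧ E.tgt e = x)

theorem Inc_symm {e : EK} {x y : ι} : E.Inc e x y ↔ E.Inc e y x := by
  unfold Inc
  tauto

theorem Inc_unique {e e' : EK} {x y : ι} (h : E.Inc e x y) (h' : E.Inc e' x y) : e = e' := by
  by_contra hne
  have hxy : x ≠ y := by
    rcases h with h | h
    · rw [← h.1, ← h.2]; exact E.ne e
    · rw [← h.1, ← h.2]; exact (E.ne e).symm
  have key : ∀ e, E.Inc e x y → E.pos x ∈ segment ℝ (E.pos (E.src e)) (E.pos (E.tgt e)) ∧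
      E.pos y ∈ segment ℝ (E.pos (E.src e)) (E.pos (E.tgt e)) := by
    intro e h
    rcases h with h | h
    · rw [h.1, h.2]; exact ⟨left_mem_segment _ _ _, right_mem_segment _ _ _⟩
    · rw [h.1, h.2]; exact ⟨right_mem_segment _ _ _, left_mem_segment _ _ _⟩
  have := E.ovl e e' hne (E.pos x) (E.pos y) (key e h).1 (key e' h').1 (key e h).2 (key e' h').2
  exact hxy (E.inj this)

/-- adjacency weight -/
def W (x y : ι) : ℕ := if ∃ e, E.Inc e x y then 1 else 0

theorem W_ne {x y : ι} : E.W x y ≠ 0 ↔ ∃ e, E.Inc e x y := by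
  unfold W
  split_ifs with h
  · simp [h]
  · simp [h]

def toDrawing : Drawing ι where
  pos := E.pos
  W := E.W
  inj := E.inj
  symm := by
    intro x y
    unfold W
    congr 1
    simp only [eq_iff_iff]
    exact exists_congr fun e => E.Inc_symm
  diag := by
    intro x
    unfold W
    rw [if_neg]
    rintro ⟨e, h⟩
    rcases h with h | h
    · exact E.ne e (h.1.trans h.2.symm)
    · exact E.ne e (h.1.trans h.2.symm)
  ovl := by
    intro x y z t h1 h2 h3 p q hp hp' hq hq'
    obtain ⟨e, he⟩ := E.W_ne.1 h1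
    obtain ⟨e', he'⟩ := E.W_ne.1 h2
    have key : ∀ e x y, E.Inc e x y → segment ℝ (E.pos x) (E.pos y) =
        segment ℝ (E.pos (E.src e)) (E.pos (E.tgt e)) := by
      intro e x y h
      rcases h with h | h
      · rw [h.1, h.2]
      · rw [h.1, h.2, segment_symm]
    rw [key e x y he] at hp hq
    rw [key e' z t he'] at hp' hq'
    refine E.ovl e e' ?_ p q hp hp' hq hq'
    intro hee
    subst hee
    apply h3
    rcases he with ⟨a1, a2⟩ | ⟨a1, a2⟩ <;> rcases he' with ⟨b1, b2⟩ | ⟨b1, b2⟩
    · left; exact ⟨a1.symm.trans b1, a2.symm.trans b2⟩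
    · right; exact ⟨a1.symm.trans b1, a2.symm.trans b2⟩
    · right; exact ⟨a2.symm.trans b2, a1.symm.trans b1⟩
    · left; exact ⟨a2.symm.trans b2, a1.symm.trans b1⟩

theorem W_le (x y : ι) : E.W x y ≤ 1 := by
  unfold W
  split_ifs <;> simp

variable [Fintype EK]

theorem W_eq (x y : ι) : (E.W x y : ℂ) = ∑ e, ((if E.src e = x ∧ E.tgt e = y then 1 else 0) +
    (if E.src e = y ∧ E.tgt e = x then 1 else 0)) := by
  by_cases h : ∃ e, E.Inc e x y
  · obtain ⟨e, he⟩ := h
    have h1 : E.W x y = 1 := by unfold W; rw [if_pos ⟨e, he⟩]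
    rw [h1, Finset.sum_eq_single e]
    · rcases he with he | he
      · rw [if_pos he, if_neg]
        · simp
        · intro h2
          exact E.ne e (he.1.trans h2.2.symm)
      · rw [if_pos he, if_neg]
        · simp
        · intro h2
          exact E.ne e (h2.1.trans he.2.symm)
    · intro e' _ hne
      rw [if_neg, if_neg, add_zero]
      · intro h2
        exact hne (E.Inc_unique (Or.inr h2) he)
      · intro h2
        exact hne (E.Inc_unique (Or.inl h2) he)
    · simp
  · have h1 : E.W x y = 0 := by unfold W; rw [if_neg h]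
    rw [h1, Finset.sum_eq_zero]
    · simp
    · intro e _
      rw [if_neg, if_neg, add_zero]
      · intro h2; exact h ⟨e, Or.inr h2⟩
      · intro h2; exact h ⟨e, Or.inl h2⟩

theorem sum_W [Fintype ι] (x : ι) (f : ι → ℂ) : ∑ y, (E.W x y : ℂ) * f y =
    ∑ e, ((if E.src e = x then f (E.tgt e) else 0) + (if E.tgt e = x then f (E.src e) else 0)) := by
  have h1 : ∀ y, (E.W x y : ℂ) * f y = ∑ e, ((if E.tgt e = y then (if E.src e = x then f y else 0) else 0) +
      (if E.src e = y then (if E.tgt e = x then f y else 0) else 0)) := by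
    intro y
    rw [E.W_eq, Finset.sum_mul]
    refine Finset.sum_congr rfl fun e _ => ?_
    rw [add_mul]
    congr 1
    · by_cases h1 : E.src e = x <;> by_cases h2 : E.tgt e = y <;> simp [h1, h2]
    · by_cases h1 : E.src e = y <;> by_cases h2 : E.tgt e = x <;> simp [h1, h2]
  simp_rw [h1]
  rw [Finset.sum_comm]
  refine Finset.sum_congr rfl fun e _ => ?_
  rw [Finset.sum_add_distrib, Finset.sum_ite_eq, Finset.sum_ite_eq]
  simp

end EdgeList

end Pool.Agent.Helper544.Planar
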