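import Mathlib
import Pool.Agent.Helper544.Chain4c
import Pool.Agent.Helper544.EdgeDraw

noncomputable section
open scoped Classical

namespace Pool.Agent.Helper544.Net4

open Pool.Agent.Helper544.Chain4 Pool.Agent.Helper544.Planar

/-- vertices of the immersed net -/
inductive Vx (M : ℕ)
  | S (a c : Bool)
  | v
  | G
  | Y (k : Fin (M + 1)) (a : Bool)
  | T (k : Fin (M + 1)) (a c : Bool)
  | R (k : Fin M) (a : Bool)
  deriving Fintype

/-- edges of the immersed net -/
inductive Ed (M : ℕ)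
  | e1 (k : Fin (M + 1)) (a c : Bool)
  | e2 (k : Fin (M + 1)) (a c : Bool)
  | e3 (k : Fin (M + 1)) (a c : Bool)
  | e4 (k : Fin (M + 1)) (a c : Bool)
  | e5 (k : Fin M) (a : Bool)
  | e6 (k : Fin M) (a c : Bool)
  | e7 (k : Fin M) (a : Bool)
  | e8 (a : Bool)
  | e9 (a : Bool)
  | e10 (a : Bool)
  | e11

variable {M : ℕ}

def src : Ed M → Vx M
  | .e1 k a _ => .Y k a
  | .e2 k a _ => .Y k a
  | .e3 k a c => .T k a c
  | .e4 k a c => .T k a c
  | .e5 k a => .Y k.castSucc a
  | .e6 k a _ => .R k a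
  | .e7 k a => .Y k.castSucc a
  | .e8 _ => .v
  | .e9 _ => .v
  | .e10 _ => .G
  | .e11 => .v

def tgt : Ed M → Vx M
  | .e1 _ a c => .S a c
  | .e2 k a c => .T k a c
  | .e3 _ a c => .S a c
  | .e4 _ a c => .S (!a) c
  | .e5 k a => .R k a
  | .e6 _ a c => .S a c
  | .e7 k a => .Y k.succ (!a)
  | .e8 a => .Y 0 a
  | .e9 a => .S a true
  | .e10 a => .S a false
  | .e11 => .G

def sg : Bool → ℝ
  | true => 1
  | false => -1

@[simp] theorem sg_true : sg true = 1 := rfl
@[simp] theorem sg_false : sg false = -1 := rfl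
theorem sg_mul (a : Bool) : sg a * sg a = 1 := by cases a <;> simp
theorem sg_sq (a : Bool) : sg a ^ 2 = 1 := by cases a <;> simp
theorem sg_not (a : Bool) : sg (!a) = - sg a := by cases a <;> simp
theorem sg_ne (a : Bool) : sg a ≠ 0 := by cases a <;> simp

/-- point with skew coordinates -/
def P (x y : ℝ) : ℂ := ⟨Real.sqrt 3 * x, y⟩

theorem s3pos : (0:ℝ) < Real.sqrt 3 := Real.sqrt_pos.2 (by norm_num)
theorem s3sq : Real.sqrt 3 ^ 2 = 3 := Real.sq_sqrt (by norm_num)

theorem P_inj {x y x' y' : ℝ} (h : P x y = P x' y') : x = x' ∧ y = y' := by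
  have h1 := congrArg Complex.re h
  have h2 := congrArg Complex.im h
  simp only [P] at h1 h2
  exact ⟨mul_left_cancel₀ s3pos.ne' h1, h2⟩

variable (p h : ℕ → ℝ)

def BB (k : ℕ) (c : Bool) : ℝ := b + 3 - sg c * h k
def RR (k : ℕ) (c : Bool) : ℝ := 3 * p k ^ 2 + BB h k c ^ 2
def QQ (k : ℕ) : ℝ := 1 + b - p k
def rr (k : ℕ) : ℝ := 3 * QQ p k ^ 2 + h k ^ 2

/-- first coordinate -/
def X : Vx M → ℝ
  | .S a _ => sg a
  | .v => 0
  | .G => 0
  | .Y k a => sg a * p (k + 1)
  | .T k a c => sg a * (4 * p (k + 1) * BB h (k + 1) c / RR p h (k + 1) c)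
  | .R k a => sg a * (1 + b - 4 * b * QQ p (k + 1) ^ 2 / rr p h (k + 1))

/-- second coordinate -/
def Y : Vx M → ℝ
  | .S _ c => sg c * b
  | .v => h 0
  | .G => -ep
  | .Y k _ => h (k + 1)
  | .T k _ c => sg c * (b + 3 - 4 * BB h (k + 1) c ^ 2 / RR p h (k + 1) c)
  | .R k _ => 4 * b * QQ p (k + 1) * h (k + 1) / rr p h (k + 1)

def pos (x : Vx M) : ℂ := P (X p h x) (Y p h x)

/-- magnitude of the slope -/
def mg : Ed M → ℝ
  | .e1 k _ c => (b - sg c * h (k + 1)) / (1 - p (k + 1))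
  | .e2 k _ c => BB h (k + 1) c / p (k + 1)
  | .e3 k _ c => (BB h (k + 1) c + 3 * p (k + 1)) / (BB h (k + 1) c - p (k + 1))
  | .e4 k _ c => (BB h (k + 1) c - 3 * p (k + 1)) / (BB h (k + 1) c + p (k + 1))
  | .e5 k _ => h (k + 1) / QQ p (k + 1)
  | .e6 k _ c => (3 * QQ p (k + 1) - sg c * h (k + 1)) / (QQ p (k + 1) + sg c * h (k + 1))
  | .e7 k _ => (h (k + 1) - h (k + 2)) / (p (k + 1) + p (k + 2))
  | .e8 _ => (h 0 - h 1) / p 1
  | .e9 _ => b - h 0
  | .e10 _ => 1
  | .e11 => 0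

/-- sign of the slope -/
def sb : Ed M → Bool
  | .e1 _ a c => (a == c)
  | .e2 _ a c => !(a == c)
  | .e3 _ a c => (a == c)
  | .e4 _ a c => !(a == c)
  | .e5 _ a => !a
  | .e6 _ a c => (a == c)
  | .e7 _ a => a
  | .e8 a => !a
  | .e9 a => a
  | .e10 a => !a
  | .e11 => true

def sl (e : Ed M) : ℝ := sg (sb e) * mg p h e

/-- intercept -/
def ic : Ed M → ℝ
  | .e1 k a c => sg c * b - sl p h (.e1 k a c : Ed M) * sg a
  | .e2 _ _ c => sg c * (b + 3)
  | .e3 k a c => sg c * b - sl p h (.e3 k a c : Ed M) * sg a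
  | .e4 k a c => sg c * b + sl p h (.e4 k a c : Ed M) * sg a
  | .e5 k a => - sl p h (.e5 k a : Ed M) * sg a * (1 + b)
  | .e6 k a c => sg c * b - sl p h (.e6 k a c : Ed M) * sg a
  | .e7 k a => h (k + 1) - sl p h (.e7 k a : Ed M) * sg a * p (k + 1)
  | .e8 _ => h 0
  | .e9 _ => h 0
  | .e10 _ => -ep
  | .e11 => 0

/-- what the geometry needs to know -/
structure Good (n : ℕ) : Prop where
  p0 : p 0 = 0
  pb : ∀ k, 1 ≤ k → 11 / 25 ≤ p k ∧ p k ≤ 9 / 20
  hb : ∀ k, 0 ≤ h k ∧ h k ≤ ep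
  hpos : ∀ k, k ≤ n → 0 < h k
  h0 : h 0 < ep
  anti : ∀ i j, i < j → j ≤ n → h j < h i
  near : ∀ i j, 1 ≤ i → i ≤ j → j ≤ n → |p i - p j| ≤ (h i - h j) / 40

theorem good_of_Sys {n : ℕ} {p h : ℕ → ℝ} (S : Sys n p h) : Good p h n where
  p0 := S.p0
  pb := S.pb
  hb := S.hb
  hpos := fun _ hk => S.h_pos hk
  h0 := S.h0_lt
  anti := fun _ _ hij hj => S.h_anti hij hj
  near := fun _ _ h1 h2 h3 => S.near h1 h2 h3

variable {p h}

theorem b_eq : b = 1001 / 1000 := rfl
theorem ep_eq : ep = 1 / 1000 := rfl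

namespace Good
variable {n : ℕ} (g : Good p h n)
include g

theorem BBb (k : ℕ) (c : Bool) : 4 ≤ BB h k c ∧ BB h k c ≤ 4002 / 1000 := by
  have h1 := g.hb k
  have e1 := b_eq
  have e2 := ep_eq
  unfold BB
  cases c <;> simp <;> constructor <;> linarith [h1.1, h1.2]

theorem RRpos {k : ℕ} (c : Bool) : 0 < RR p h k c := by
  have h1 := g.BBb k c
  unfold RR
  nlinarith [sq_nonneg (p k)]

theorem QQb {k : ℕ} (hk : 1 ≤ k) : 1551 / 1000 ≤ QQ p k ∧ QQ p k ≤ 1561 / 1000 := by
  have h1 := g.pb k hk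
  have e1 := b_eq
  unfold QQ
  constructor <;> linarith [h1.1, h1.2]

theorem rrpos {k : ℕ} (hk : 1 ≤ k) : 0 < rr p h k := by
  have h1 := g.QQb hk
  unfold rr
  nlinarith [sq_nonneg (h k)]

end Good

/-- endpoints lie on the line of the edge -/
theorem on_line {n : ℕ} (g : Good p h n) (e : Ed M) (he : e ≠ .e11) :
    Y p h (src e) = sl p h e * X p h (src e) + ic p h e ∧
    Y p h (tgt e) = sl p h e * X p h (tgt e) + ic p h e := by
  have e1 := b_eq
  have e2 := ep_eq
  cases e with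
  | e1 k a c =>
    have h1 := g.pb (k + 1) (by omega)
    have h2 : 1 - p (k + 1) ≠ 0 := by linarith
    simp only [src, tgt, X, Y, ic, sl, mg, sb]
    constructor
    · cases a <;> cases c <;> simp <;> field_simp <;> ring
    · ring
  | e2 k a c =>
    have h1 := g.pb (k + 1) (by omega)
    have h2 : p (k + 1) ≠ 0 := by linarith
    have h3 := (g.RRpos (k := k + 1) c).ne'
    simp only [src, tgt, X, Y, ic, sl, mg, sb]
    constructor
    · cases a <;> cases c <;> simp [BB] <;> field_simp <;> ring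
    · cases a <;> cases c <;> simp <;> field_simp <;> ring
  | e3 k a c =>
    have h1 := g.pb (k + 1) (by omega)
    have h3 := (g.RRpos (k := k + 1) c).ne'
    have h4 := g.BBb (k + 1) c
    have h5 : BB h (k + 1) c - p (k + 1) ≠ 0 := by linarith
    simp only [src, tgt, X, Y, ic, sl, mg, sb]
    constructor
    · cases a <;> cases c <;> simp <;> field_simp <;> unfold RR <;> ring
    · ring
  | e4 k a c =>
    have h1 := g.pb (k + 1) (by omega)
    have h3 := (g.RRpos (k := k + 1) c).ne'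
    have h4 := g.BBb (k + 1) c
    have h5 : BB h (k + 1) c + p (k + 1) ≠ 0 := by linarith
    simp only [src, tgt, X, Y, ic, sl, mg, sb]
    constructor
    · cases a <;> cases c <;> simp <;> field_simp <;> unfold RR <;> ring
    · rw [sg_not a]; ring
  | e5 k a =>
    have h4 := g.QQb (k := k + 1) (by omega)
    have h3 := (g.rrpos (k := k + 1) (by omega)).ne'
    have h5 : QQ p (k + 1) ≠ 0 := by linarith
    simp only [src, tgt, X, Y, ic, sl, mg, sb, Fin.val_castSucc]
    constructor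
    · have h6 : p (k + 1) = 1 + b - QQ p (k + 1) := by unfold QQ; ring
      cases a <;> simp <;> rw [h6] <;> field_simp <;> ring
    · cases a <;> simp <;> field_simp <;> ring
  | e6 k a c =>
    have h4 := g.QQb (k := k + 1) (by omega)
    have h3 := (g.rrpos (k := k + 1) (by omega)).ne'
    have h7 := g.hb (k + 1)
    have h5 : QQ p (k + 1) + sg c * h (k + 1) ≠ 0 := by cases c <;> simp <;> linarith
    simp only [src, tgt, X, Y, ic, sl, mg, sb]
    constructor
    · cases a <;> cases c <;> simp at h5 ⊢ <;> field_simp <;> unfold rr <;> ring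
    · ring
  | e7 k a =>
    have h1 := g.pb (k + 1) (by omega)
    have h2 := g.pb (k + 2) (by omega)
    have h5 : p (k + 1) + p (k + 2) ≠ 0 := by linarith
    simp only [src, tgt, X, Y, ic, sl, mg, sb, Fin.val_castSucc, Fin.val_succ]
    constructor
    · ring
    · rw [sg_not]
      have h6 := sg_mul a
      field_simp
      ring_nf
      rw [sg_sq]
      ring
  | e8 a =>
    have h1 := g.pb 1 le_rfl
    have h5 : p 1 ≠ 0 := by linarith
    simp only [src, tgt, X, Y, ic, sl, mg, sb]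
    constructor
    · ring
    · cases a <;> simp <;> field_simp <;> ring
  | e9 a =>
    simp only [src, tgt, X, Y, ic, sl, mg, sb]
    constructor
    · ring
    · cases a <;> simp
  | e10 a =>
    simp only [src, tgt, X, Y, ic, sl, mg, sb]
    constructor
    · ring
    · cases a <;> simp <;> linarith
  | e11 => exact absurd rfl he

end Pool.Agent.Helper544.Net4
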