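import Mathlib
import Pool.Agent.Helper544.Net4

noncomputable section
open scoped Classical

namespace Pool.Agent.Helper544.Net4

open Pool.Agent.Helper544.Chain4 Pool.Agent.Helper544.Planar

variable {M : ℕ} {p h : ℕ → ℝ}

/-- slope class -/
def cls : Ed M → ℕ
  | .e1 _ _ _ => 4
  | .e2 _ _ _ => 6
  | .e3 _ _ _ => 3
  | .e4 _ _ _ => 1
  | .e5 _ _ => 0
  | .e6 _ _ _ => 5
  | .e7 _ _ => 0
  | .e8 _ => 0
  | .e9 _ => 2
  | .e10 _ => 2
  | .e11 => 7

def lo : ℕ → ℝ
  | 0 => 0
  | 1 => 59 / 100
  | 2 => 1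
  | 3 => 149 / 100
  | 4 => 178 / 100
  | 5 => 299 / 100
  | _ => 88 / 10

def hi : ℕ → ℝ
  | 0 => 1 / 100
  | 1 => 61 / 100
  | 2 => 1001 / 1000
  | 3 => 151 / 100
  | 4 => 183 / 100
  | 5 => 301 / 100
  | _ => 92 / 10

namespace Good

theorem mg_bd (g : Good p h (M + 1)) (e : Ed M) (he : e ≠ .e11) :
    0 < mg p h e ∧ lo (cls e) ≤ mg p h e ∧ mg p h e ≤ hi (cls e) ∧ mg p h e ≠ b ∧ cls e ≤ 6 := by
  have e1 := b_eq
  have e2 := ep_eq
  cases e with
  | e1 k a c =>
    have h1 := g.pb (k + 1) (by omega)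
    have h2 := g.hb (k + 1)
    have h3 : 0 < 1 - p (k + 1) := by linarith
    have h4 : 178 / 100 ≤ (b - sg c * h (k + 1)) / (1 - p (k + 1)) := by
      rw [le_div_iff₀ h3]; cases c <;> simp <;> linarith
    have h5 : (b - sg c * h (k + 1)) / (1 - p (k + 1)) ≤ 183 / 100 := by
      rw [div_le_iff₀ h3]; cases c <;> simp <;> linarith
    simp only [mg, cls, lo, hi]
    refine ⟨by linarith, h4, h5, by linarith, by norm_num⟩
  | e2 k a c =>
    have h1 := g.pb (k + 1) (by omega)
    have h2 := g.BBb (k + 1) c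
    have h3 : 0 < p (k + 1) := by linarith
    have h4 : 88 / 10 ≤ BB h (k + 1) c / p (k + 1) := by
      rw [le_div_iff₀ h3]; linarith
    have h5 : BB h (k + 1) c / p (k + 1) ≤ 92 / 10 := by
      rw [div_le_iff₀ h3]; linarith
    simp only [mg, cls, lo, hi]
    refine ⟨by linarith, h4, h5, by linarith, by norm_num⟩
  | e3 k a c =>
    have h1 := g.pb (k + 1) (by omega)
    have h2 := g.BBb (k + 1) c
    have h3 : 0 < BB h (k + 1) c - p (k + 1) := by linarith
    have h4 : 149 / 100 ≤ (BB h (k + 1) c + 3 * p (k + 1)) / (BB h (k + 1) c - p (k + 1)) := by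
      rw [le_div_iff₀ h3]; linarith
    have h5 : (BB h (k + 1) c + 3 * p (k + 1)) / (BB h (k + 1) c - p (k + 1)) ≤ 151 / 100 := by
      rw [div_le_iff₀ h3]; linarith
    simp only [mg, cls, lo, hi]
    refine ⟨by linarith, h4, h5, by linarith, by norm_num⟩
  | e4 k a c =>
    have h1 := g.pb (k + 1) (by omega)
    have h2 := g.BBb (k + 1) c
    have h3 : 0 < BB h (k + 1) c + p (k + 1) := by linarith
    have h4 : 59 / 100 ≤ (BB h (k + 1) c - 3 * p (k + 1)) / (BB h (k + 1) c + p (k + 1)) := by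
      rw [le_div_iff₀ h3]; linarith
    have h5 : (BB h (k + 1) c - 3 * p (k + 1)) / (BB h (k + 1) c + p (k + 1)) ≤ 61 / 100 := by
      rw [div_le_iff₀ h3]; linarith
    simp only [mg, cls, lo, hi]
    refine ⟨by linarith, h4, h5, by linarith, by norm_num⟩
  | e5 k a =>
    have h1 := g.QQb (k := k + 1) (by omega)
    have h2 := g.hb (k + 1)
    have h2' := g.hpos (k + 1) (by omega)
    have h3 : 0 < QQ p (k + 1) := by linarith
    have h4 : 0 < h (k + 1) / QQ p (k + 1) := div_pos h2' h3
    have h5 : h (k + 1) / QQ p (k + 1) ≤ 1 / 100 := by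
      rw [div_le_iff₀ h3]; linarith
    simp only [mg, cls, lo, hi]
    refine ⟨by linarith, h4.le, h5, by linarith, by norm_num⟩
  | e6 k a c =>
    have h1 := g.QQb (k := k + 1) (by omega)
    have h2 := g.hb (k + 1)
    have h3 : 0 < QQ p (k + 1) + sg c * h (k + 1) := by cases c <;> simp <;> linarith
    have h4 : 299 / 100 ≤ (3 * QQ p (k + 1) - sg c * h (k + 1)) / (QQ p (k + 1) + sg c * h (k + 1)) := by
      rw [le_div_iff₀ h3]; cases c <;> simp <;> linarith
    have h5 : (3 * QQ p (k + 1) - sg c * h (k + 1)) / (QQ p (k + 1) + sg c * h (k + 1)) ≤ 301 / 100 := by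
      rw [div_le_iff₀ h3]; cases c <;> simp <;> linarith
    simp only [mg, cls, lo, hi]
    refine ⟨by linarith, h4, h5, by linarith, by norm_num⟩
  | e7 k a =>
    have h1 := g.pb (k + 1) (by omega)
    have h1' := g.pb (k + 2) (by omega)
    have h2 := g.hb (k + 1)
    have h2' := g.hb (k + 2)
    have h2'' := g.anti (k + 1) (k + 2) (by omega) (by omega)
    have h3 : 0 < p (k + 1) + p (k + 2) := by linarith
    have h4 : 0 < (h (k + 1) - h (k + 2)) / (p (k + 1) + p (k + 2)) := div_pos (by linarith) h3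
    have h5 : (h (k + 1) - h (k + 2)) / (p (k + 1) + p (k + 2)) ≤ 1 / 100 := by
      rw [div_le_iff₀ h3]; linarith
    simp only [mg, cls, lo, hi]
    refine ⟨by linarith, h4.le, h5, by linarith, by norm_num⟩
  | e8 a =>
    have h1 := g.pb 1 le_rfl
    have h2 := g.hb 0
    have h2' := g.hb 1
    have h2'' := g.anti 0 1 (by omega) (by omega)
    have h3 : 0 < p 1 := by linarith
    have h4 : 0 < (h 0 - h 1) / p 1 := div_pos (by linarith) h3
    have h5 : (h 0 - h 1) / p 1 ≤ 1 / 100 := by
      rw [div_le_iff₀ h3]; linarith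
    simp only [mg, cls, lo, hi]
    refine ⟨by linarith, h4.le, h5, by linarith, by norm_num⟩
  | e9 a =>
    have h1 := g.hpos 0 (by omega)
    have h2 := g.h0
    simp only [mg, cls, lo, hi]
    refine ⟨by linarith, by linarith, by linarith, by linarith, by norm_num⟩
  | e10 a =>
    simp only [mg, cls, lo, hi]
    refine ⟨by norm_num, by norm_num, by norm_num, by rw [e1]; norm_num, by norm_num⟩
  | e11 => exact absurd rfl he

theorem cls_eq (g : Good p h (M + 1)) {e e' : Ed M} (he : e ≠ .e11) (he' : e' ≠ .e11)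
    (hm : mg p h e = mg p h e') : cls e = cls e' := by
  obtain ⟨_, a1, a2, _, a3⟩ := g.mg_bd e he
  obtain ⟨_, b1, b2, _, b3⟩ := g.mg_bd e' he'
  rw [← hm] at b1 b2
  generalize cls e = i at *
  generalize cls e' = j at *
  clear hm he he' g
  generalize mg p h e = m at *
  interval_cases i <;> interval_cases j <;> first | rfl | (simp only [lo, hi] at *; exfalso; linarith)

variable {n : ℕ}

/-- comparison of two chain vertices -/
theorem cmp (g : Good p h n) {i j : ℕ} (hi : 1 ≤ i) (hij : i < j) (hj : j ≤ n) :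
    0 < h i - h j ∧ -((h i - h j) / 40) ≤ p i - p j ∧ p i - p j ≤ (h i - h j) / 40 := by
  have h1 := g.anti i j hij hj
  have h2 := abs_le.1 (g.near i j hi hij.le hj)
  exact ⟨by linarith, h2.1, h2.2⟩

theorem J1 (g : Good p h n) {i j : ℕ} (c : Bool) (hi : 1 ≤ i) (hi' : i ≤ n) (hj : 1 ≤ j) (hj' : j ≤ n)
    (he : (b - sg c * h i) / (1 - p i) = (b - sg c * h j) / (1 - p j)) : i = j := by
  have key : ∀ i j, 1 ≤ i → i < j → j ≤ n →
      (b - sg c * h i) / (1 - p i) ≠ (b - sg c * h j) / (1 - p j) := by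
    intro i j hi hij hj he
    obtain ⟨c1, c2, c3⟩ := g.cmp hi hij hj
    have h1 := g.pb i hi
    have h2 := g.pb j (by omega)
    have h3 := g.hb i
    have h4 := g.hb j
    have e1 := b_eq
    have e2 := ep_eq
    rw [div_eq_div_iff (by linarith) (by linarith)] at he
    set Δ := h i - h j with hΔ
    set d := p i - p j with hd
    have q1 : 11 / 20 * Δ ≤ (1 - p j) * Δ := mul_le_mul_of_nonneg_right (by linarith) c1.le
    have q2 : h j * d ≤ ep * (Δ / 40) := by
      calc h j * d ≤ h j * (Δ / 40) := mul_le_mul_of_nonneg_left c3 h4.1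
        _ ≤ _ := mul_le_mul_of_nonneg_right h4.2 (by linarith)
    have q3 : -(ep * (Δ / 40)) ≤ h j * d := by
      calc -(ep * (Δ / 40)) ≤ -(h j * (Δ / 40)) := by
            have := mul_le_mul_of_nonneg_right h4.2 (show 0 ≤ Δ / 40 by linarith)
            linarith
        _ = h j * (-(Δ / 40)) := by ring
        _ ≤ _ := mul_le_mul_of_nonneg_left c2 h4.1
    have q4 : b * d = sg c * ((1 - p j) * Δ + h j * d) := by
      rw [hΔ, hd]; linear_combination he
    rw [e1] at q4
    rw [e2] at q2 q3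
    cases c
    · simp only [sg_false] at q4; linarith
    · simp only [sg_true] at q4; linarith
  rcases lt_trichotomy i j with h1 | h1 | h1
  · exact absurd he (key i j hi h1 hj')
  · exact h1
  · exact absurd he.symm (key j i hj h1 hi')

theorem J2 (g : Good p h n) {i j : ℕ} (c : Bool) (hi : 1 ≤ i) (hi' : i ≤ n) (hj : 1 ≤ j) (hj' : j ≤ n)
    (he : BB h i c * p j = BB h j c * p i) : i = j := by
  have key : ∀ i j, 1 ≤ i → i < j → j ≤ n → BB h i c * p j ≠ BB h j c * p i := by
    intro i j hi hij hj he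
    obtain ⟨c1, c2, c3⟩ := g.cmp hi hij hj
    have h1 := g.pb i hi
    have h2 := g.pb j (by omega)
    have h3 := g.BBb j c
    have e1 := b_eq
    have e2 := ep_eq
    set Δ := h i - h j with hΔ
    set d := p i - p j with hd
    have q1 : 11 / 25 * Δ ≤ p j * Δ := mul_le_mul_of_nonneg_right (by linarith) c1.le
    have q2 : BB h j c * d ≤ (4002 / 1000) * (Δ / 40) := by
      calc BB h j c * d ≤ BB h j c * (Δ / 40) := mul_le_mul_of_nonneg_left c3 (by linarith)
        _ ≤ _ := mul_le_mul_of_nonneg_right h3.2 (by linarith)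
    have q3 : -((4002 / 1000) * (Δ / 40)) ≤ BB h j c * d := by
      calc -((4002 / 1000) * (Δ / 40)) ≤ -(BB h j c * (Δ / 40)) := by
            have := mul_le_mul_of_nonneg_right h3.2 (show 0 ≤ Δ / 40 by linarith)
            linarith
        _ = BB h j c * (-(Δ / 40)) := by ring
        _ ≤ _ := mul_le_mul_of_nonneg_left c2 (by linarith)
    have q4 : BB h j c * d = - sg c * (p j * Δ) := by
      unfold BB at he ⊢
      rw [hΔ, hd]; linear_combination -he
    cases c
    · simp only [sg_false] at q4; linarith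
    · simp only [sg_true] at q4; linarith
  rcases lt_trichotomy i j with h1 | h1 | h1
  · exact absurd he (key i j hi h1 hj')
  · exact h1
  · exact absurd he.symm (key j i hj h1 hi')

theorem J3 (g : Good p h n) {i j : ℕ} (hi : 1 ≤ i) (hi' : i ≤ n) (hj : 1 ≤ j) (hj' : j ≤ n)
    (he : h i * QQ p j = h j * QQ p i) : i = j := by
  have key : ∀ i j, 1 ≤ i → i < j → j ≤ n → h i * QQ p j ≠ h j * QQ p i := by
    intro i j hi hij hj he
    obtain ⟨c1, c2, c3⟩ := g.cmp hi hij hj
    have h1 := g.QQb hi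
    have h2 := g.QQb (show 1 ≤ j by omega)
    have h4 := g.hb j
    have e1 := b_eq
    have e2 := ep_eq
    set Δ := h i - h j with hΔ
    set d := p i - p j with hd
    have q1 : Δ ≤ QQ p j * Δ := by nlinarith
    have q3 : -(ep * (Δ / 40)) ≤ h j * d := by
      calc -(ep * (Δ / 40)) ≤ -(h j * (Δ / 40)) := by
            have := mul_le_mul_of_nonneg_right h4.2 (show 0 ≤ Δ / 40 by linarith)
            linarith
        _ = h j * (-(Δ / 40)) := by ring
        _ ≤ _ := mul_le_mul_of_nonneg_left c2 h4.1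
    have q4 : QQ p j * Δ = - (h j * d) := by
      have : QQ p i = QQ p j - d := by rw [hd]; unfold QQ; ring
      rw [this] at he
      rw [hΔ]; linear_combination he
    rw [e2] at q3
    linarith
  rcases lt_trichotomy i j with h1 | h1 | h1
  · exact absurd he (key i j hi h1 hj')
  · exact h1
  · exact absurd he.symm (key j i hj h1 hi')

/-- a nearly horizontal line carries at most one chain vertex of each side -/
theorem J4 (g : Good p h n) {i j : ℕ} {m c : ℝ} (a : Bool) (hi : 1 ≤ i) (hi' : i ≤ n) (hj : 1 ≤ j) (hj' : j ≤ n)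
    (hm : |m| ≤ 1 / 100)
    (h1 : h i = m * (sg a * p i) + c) (h2 : h j = m * (sg a * p j) + c) : i = j := by
  have key : ∀ i j, 1 ≤ i → i < j → j ≤ n → h i = m * (sg a * p i) + c → h j ≠ m * (sg a * p j) + c := by
    intro i j hi hij hj h1 h2
    obtain ⟨c1, c2, c3⟩ := g.cmp hi hij hj
    have h3 : h i - h j = m * sg a * (p i - p j) := by linear_combination h1 - h2
    have h4 : |h i - h j| = |m| * |p i - p j| := by
      rw [h3, abs_mul, abs_mul]
      have : |sg a| = 1 := by cases a <;> simp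
      rw [this, mul_one]
    rw [abs_of_pos c1] at h4
    have h5 : |p i - p j| ≤ (h i - h j) / 40 := abs_le.2 ⟨c2, c3⟩
    have h6 : |m| * |p i - p j| ≤ (1 / 100) * ((h i - h j) / 40) :=
      mul_le_mul hm h5 (abs_nonneg _) (by norm_num)
    linarith
  rcases lt_trichotomy i j with h3 | h3 | h3
  · exact absurd h2 (key i j hi h3 hj' h1)
  · exact h3
  · exact absurd h1 (key j i hj h3 hi' h2)

end Good

end Pool.Agent.Helper544.Net4
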