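import Mathlib
import Pool.Agent.Helper544.Net4b

noncomputable section
open scoped Classical

namespace Pool.Agent.Helper544.Net4

open Pool.Agent.Helper544.Chain4 Pool.Agent.Helper544.Planar

variable {M : ℕ} {p h : ℕ → ℝ}

theorem sg_mg {s s' : Bool} {m m' : ℝ} (h1 : 0 < m) (h2 : 0 < m') (h : sg s * m = sg s' * m') :
    s = s' ∧ m = m' := by
  cases s <;> cases s' <;> simp at h ⊢ <;> linarith

theorem corner1 {a c a' c' : Bool} {m : ℝ} (hs : (a == c) = (a' == c')) (ha : a ≠ a')
    (hi : sg c * b - sg (a == c) * m * sg a = sg c' * b - sg (a' == c') * m * sg a') : m = b := by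
  cases a <;> cases c <;> cases a' <;> cases c' <;> simp at hs ha hi ⊢ <;> linarith

theorem corner2 {a c a' c' : Bool} {m : ℝ} (hs : (!(a == c)) = (!(a' == c'))) (ha : a ≠ a')
    (hi : sg c * b + sg (!(a == c)) * m * sg a = sg c' * b + sg (!(a' == c')) * m * sg a') : m = b := by
  cases a <;> cases c <;> cases a' <;> cases c' <;> simp at hs ha hi ⊢ <;> linarith

theorem bool_case {a c a' c' : Bool} (hs : (a == c) = (a' == c')) : (a = a' ∧ c = c') ∨ (a ≠ a' ∧ c ≠ c') := by
  cases a <;> cases c <;> cases a' <;> cases c' <;> simp at hs ⊢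

theorem bool_case' {a c a' c' : Bool} (hs : (!(a == c)) = (!(a' == c'))) : (a = a' ∧ c = c') ∨ (a ≠ a' ∧ c ≠ c') := by
  cases a <;> cases c <;> cases a' <;> cases c' <;> simp at hs ⊢

/-- the two collinear edges lie on different sides of a common endpoint -/
def Sep (p h : ℕ → ℝ) (e e' : Ed M) : Prop := ∃ (a : Bool) (q : ℝ), q ≤ sg a * X p h (src e) ∧ q ≤ sg a * X p h (tgt e) ∧
  sg a * X p h (src e') ≤ q ∧ sg a * X p h (tgt e') ≤ q

theorem XR_bd {n : ℕ} (g : Good p h n) {k : ℕ} (hk : 1 ≤ k) :
    66 / 100 ≤ 1 + b - 4 * b * QQ p k ^ 2 / rr p h k ∧ 1 + b - 4 * b * QQ p k ^ 2 / rr p h k ≤ 67 / 100 := by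
  have h1 := g.QQb hk
  have h2 := g.rrpos hk
  have h3 := g.hb k
  have e1 := b_eq
  have e2 := ep_eq
  have h4 : h k ^ 2 ≤ 1 / 1000000 := by rw [e2] at h3; nlinarith
  have h5 : 0 ≤ h k ^ 2 := sq_nonneg _
  have h6 : 2 ≤ QQ p k ^ 2 := by nlinarith
  constructor
  · have : 4 * b * QQ p k ^ 2 / rr p h k ≤ 1341 / 1000 := by
      rw [div_le_iff₀ h2, e1]; unfold rr; linarith
    linarith
  · have : 1331 / 1000 ≤ 4 * b * QQ p k ^ 2 / rr p h k := by
      rw [le_div_iff₀ h2, e1]; unfold rr; linarith
    linarith

theorem sep57 {n : ℕ} (g : Good p h n) {k k' : Fin M} {a a' : Bool} (ha : (!a) = a') (hk : k.val = k'.val + 1) :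
    Sep p h (Ed.e5 k a : Ed M) (Ed.e7 k' a') := by
  have h1 := g.pb (k + 1) (by omega)
  have h2 := g.pb (k' + 1) (by omega)
  have h3 := XR_bd g (k := k + 1) (by omega)
  refine ⟨a, p (k + 1), ?_, ?_, ?_, ?_⟩
  · simp only [src, X, Fin.val_castSucc]
    rw [← mul_assoc, sg_mul, one_mul]
  · simp only [tgt, X]
    rw [← mul_assoc, sg_mul, one_mul]
    linarith
  · simp only [src, X, Fin.val_castSucc]
    rw [← ha, sg_not]
    have := sg_mul a
    have e : sg a * (-sg a * p (↑k' + 1)) = -(sg a * sg a) * p (↑k' + 1) := by ring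
    rw [e, this]; linarith
  · simp only [tgt, X, Fin.val_succ]
    rw [← ha, Bool.not_not, ← mul_assoc, sg_mul, one_mul, hk]

theorem sep58 {n : ℕ} (g : Good p h n) {k : Fin M} {a a' : Bool} (ha : a = a') (hk : k.val = 0) :
    Sep p h (Ed.e5 k a : Ed M) (Ed.e8 a') := by
  have h1 := g.pb (k + 1) (by omega)
  have h3 := XR_bd g (k := k + 1) (by omega)
  subst ha
  refine ⟨a, p (k + 1), ?_, ?_, ?_, ?_⟩
  · simp only [src, X, Fin.val_castSucc]
    rw [← mul_assoc, sg_mul, one_mul]
  · simp only [tgt, X]
    rw [← mul_assoc, sg_mul, one_mul]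
    linarith
  · simp only [src, X]
    linarith
  · simp only [tgt, X]
    rw [← mul_assoc, sg_mul, one_mul, hk]
    simp

theorem same_line (g : Good p h (M + 1)) {e e' : Ed M} (he : e ≠ .e11) (he' : e' ≠ .e11)
    (hs : sl p h e = sl p h e') (hi : ic p h e = ic p h e') : e = e' ∨ Sep p h e e' ∨ Sep p h e' e := by
  have hm := g.mg_bd e he
  have hm' := g.mg_bd e' he'
  obtain ⟨hsb, hmg⟩ := sg_mg hm.1 hm'.1 hs
  have hc := g.cls_eq he he' hmg
  have L := on_line g e he
  have L' := on_line g e' he'
  have e1 := b_eq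
  have e2 := ep_eq
  have hslabs : |sl p h e| = mg p h e := by
    unfold sl
    rw [abs_mul, abs_of_pos hm.1]
    have : |sg (sb e)| = 1 := by cases sb e <;> simp
    rw [this, one_mul]
  cases e with
  | e1 k a c =>
    cases e' <;> simp only [cls, OfNat.ofNat_ne_zero, OfNat.ofNat_ne_one, reduceCtorEq] at hc <;> try omega
    rename_i k' a' c'
    left
    simp only [sb] at hsb
    rcases bool_case hsb with ⟨rfl, rfl⟩ | ⟨hne, _⟩
    · have h1 : (k : ℕ) + 1 = (k' : ℕ) + 1 := g.J1 c (by omega) (by omega) (by omega) (by omega) hmg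
      have h2 : k = k' := Fin.ext (by omega)
      rw [h2]
    · exfalso
      apply hm.2.2.2.1
      refine corner1 hsb hne ?_
      simp only [ic, sl, sb] at hi
      rw [← hmg] at hi
      exact hi
  | e2 k a c =>
    cases e' <;> simp only [cls, OfNat.ofNat_ne_zero, OfNat.ofNat_ne_one, reduceCtorEq] at hc <;> try omega
    rename_i k' a' c'
    left
    simp only [sb] at hsb
    rcases bool_case' hsb with ⟨rfl, rfl⟩ | ⟨_, hne⟩
    · have q1 := g.pb (k + 1) (by omega)
      have q2 := g.pb (k' + 1) (by omega)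
      simp only [mg] at hmg
      rw [div_eq_div_iff (by linarith) (by linarith)] at hmg
      have h1 : (k : ℕ) + 1 = (k' : ℕ) + 1 := g.J2 c (by omega) (by omega) (by omega) (by omega) hmg
      have h2 : k = k' := Fin.ext (by omega)
      rw [h2]
    · exfalso
      simp only [ic] at hi
      cases c <;> cases c' <;> simp at hne hi <;> linarith
  | e3 k a c =>
    cases e' <;> simp only [cls, OfNat.ofNat_ne_zero, OfNat.ofNat_ne_one, reduceCtorEq] at hc <;> try omega
    rename_i k' a' c'
    left
    simp only [sb] at hsb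
    rcases bool_case hsb with ⟨rfl, rfl⟩ | ⟨hne, _⟩
    · have q1 := g.pb (k + 1) (by omega)
      have q2 := g.pb (k' + 1) (by omega)
      have q3 := g.BBb (k + 1) c
      have q4 := g.BBb (k' + 1) c
      simp only [mg] at hmg
      rw [div_eq_div_iff (by linarith) (by linarith)] at hmg
      have h1 : (k : ℕ) + 1 = (k' : ℕ) + 1 := g.J2 c (by omega) (by omega) (by omega) (by omega) (by linear_combination (-1/4) * hmg)
      have h2 : k = k' := Fin.ext (by omega)
      rw [h2]
    · exfalso
      apply hm.2.2.2.1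
      refine corner1 hsb hne ?_
      simp only [ic, sl, sb] at hi
      rw [← hmg] at hi
      exact hi
  | e4 k a c =>
    cases e' <;> simp only [cls, OfNat.ofNat_ne_zero, OfNat.ofNat_ne_one, reduceCtorEq] at hc <;> try omega
    rename_i k' a' c'
    left
    simp only [sb] at hsb
    rcases bool_case' hsb with ⟨rfl, rfl⟩ | ⟨hne, _⟩
    · have q1 := g.pb (k + 1) (by omega)
      have q2 := g.pb (k' + 1) (by omega)
      have q3 := g.BBb (k + 1) c
      have q4 := g.BBb (k' + 1) c
      simp only [mg] at hmg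
      rw [div_eq_div_iff (by linarith) (by linarith)] at hmg
      have h1 : (k : ℕ) + 1 = (k' : ℕ) + 1 := g.J2 c (by omega) (by omega) (by omega) (by omega) (by linear_combination (1/4) * hmg)
      have h2 : k = k' := Fin.ext (by omega)
      rw [h2]
    · exfalso
      apply hm.2.2.2.1
      refine corner2 hsb hne ?_
      simp only [ic, sl, sb] at hi
      rw [← hmg] at hi
      exact hi
  | e5 k a =>
    have hsl : |sl p h (.e5 k a : Ed M)| ≤ 1 / 100 := by rw [hslabs]; exact hm.2.2.1
    have LY := L.1
    simp only [src, X, Y, Fin.val_castSucc] at LY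
    cases e' <;> simp only [cls, OfNat.ofNat_ne_zero, OfNat.ofNat_ne_one, reduceCtorEq] at hc <;> try omega
    · rename_i k' a'
      left
      simp only [sb, Bool.not_inj_iff] at hsb
      subst hsb
      have LY' := L'.1
      simp only [src, X, Y, Fin.val_castSucc] at LY'
      rw [← hs, ← hi] at LY'
      have h1 : (k : ℕ) + 1 = (k' : ℕ) + 1 := g.J4 a (by omega) (by omega) (by omega) (by omega) hsl LY LY'
      have h2 : k = k' := Fin.ext (by omega)
      rw [h2]
    · rename_i k' a'
      right; left
      simp only [sb] at hsb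
      have LY' := L'.2
      simp only [tgt, X, Y, Fin.val_succ] at LY'
      rw [← hs, ← hi, ← hsb, Bool.not_not] at LY'
      have h1 : (k : ℕ) + 1 = (k' : ℕ) + 1 + 1 := g.J4 a (by omega) (by omega) (by omega) (by omega) hsl LY LY'
      exact sep57 g hsb (by omega)
    · rename_i a'
      right; left
      simp only [sb, Bool.not_inj_iff] at hsb
      have LY' := L'.2
      simp only [tgt, X, Y, Fin.val_zero] at LY'
      rw [← hs, ← hi, ← hsb] at LY'
      have h1 : (k : ℕ) + 1 = 0 + 1 := g.J4 a (by omega) (by omega) (by omega) (by omega) hsl LY LY'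
      exact sep58 g hsb (by omega)
  | e6 k a c =>
    cases e' <;> simp only [cls, OfNat.ofNat_ne_zero, OfNat.ofNat_ne_one, reduceCtorEq] at hc <;> try omega
    rename_i k' a' c'
    left
    simp only [sb] at hsb
    rcases bool_case hsb with ⟨rfl, rfl⟩ | ⟨hne, _⟩
    · have q1 := g.QQb (k := k + 1) (by omega)
      have q2 := g.QQb (k := k' + 1) (by omega)
      have q3 := g.hb (k + 1)
      have q4 := g.hb (k' + 1)
      simp only [mg] at hmg
      rw [div_eq_div_iff (by cases c <;> simp <;> linarith) (by cases c <;> simp <;> linarith)] at hmg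
      have h1 : (k : ℕ) + 1 = (k' : ℕ) + 1 := g.J3 (by omega) (by omega) (by omega) (by omega) (by
        cases c
        · simp only [sg_false] at hmg; linear_combination (1/4) * hmg
        · simp only [sg_true] at hmg; linear_combination (-1/4) * hmg)
      have h2 : k = k' := Fin.ext (by omega)
      rw [h2]
    · exfalso
      apply hm.2.2.2.1
      refine corner1 hsb hne ?_
      simp only [ic, sl, sb] at hi
      rw [← hmg] at hi
      exact hi
  | e7 k a =>
    have hsl : |sl p h (.e7 k a : Ed M)| ≤ 1 / 100 := by rw [hslabs]; exact hm.2.2.1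
    cases e' <;> simp only [cls, OfNat.ofNat_ne_zero, OfNat.ofNat_ne_one, reduceCtorEq] at hc <;> try omega
    · rename_i k' a'
      right; right
      simp only [sb] at hsb
      have LY := L.2
      simp only [tgt, X, Y, Fin.val_succ] at LY
      rw [hsb, Bool.not_not] at LY
      have LY' := L'.1
      simp only [src, X, Y, Fin.val_castSucc] at LY'
      rw [← hs, ← hi] at LY'
      rw [hsb] at LY'
      have h1 : (k : ℕ) + 1 + 1 = (k' : ℕ) + 1 := g.J4 a' (by omega) (by omega) (by omega) (by omega) (by rw [← hsb]; exact hsl) LY LY'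
      exact sep57 g hsb.symm (by omega)
    · rename_i k' a'
      left
      simp only [sb] at hsb
      subst hsb
      have LY := L.1
      simp only [src, X, Y, Fin.val_castSucc] at LY
      have LY' := L'.1
      simp only [src, X, Y, Fin.val_castSucc] at LY'
      rw [← hs, ← hi] at LY'
      have h1 : (k : ℕ) + 1 = (k' : ℕ) + 1 := g.J4 a (by omega) (by omega) (by omega) (by omega) hsl LY LY'
      have h2 : k = k' := Fin.ext (by omega)
      rw [h2]
    · rename_i a'
      exfalso
      simp only [sb] at hsb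
      have LY := L.2
      simp only [tgt, X, Y, Fin.val_succ] at LY
      rw [hsb, Bool.not_not] at LY
      have LY' := L'.2
      simp only [tgt, X, Y, Fin.val_zero] at LY'
      rw [← hs, ← hi, hsb] at LY'
      have h1 : (k : ℕ) + 1 + 1 = 0 + 1 := g.J4 a' (by omega) (by omega) (by omega) (by omega) (by rw [← hsb]; exact hsl) LY LY'
      omega
  | e8 a =>
    have hsl : |sl p h (.e8 a : Ed M)| ≤ 1 / 100 := by rw [hslabs]; exact hm.2.2.1
    have LY := L.2
    simp only [tgt, X, Y, Fin.val_zero] at LY
    cases e' <;> simp only [cls, OfNat.ofNat_ne_zero, OfNat.ofNat_ne_one, reduceCtorEq] at hc <;> try omega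
    · rename_i k' a'
      right; right
      simp only [sb, Bool.not_inj_iff] at hsb
      have LY' := L'.1
      simp only [src, X, Y, Fin.val_castSucc] at LY'
      rw [← hs, ← hi, ← hsb] at LY'
      have h1 : 0 + 1 = (k' : ℕ) + 1 := g.J4 a (by omega) (by omega) (by omega) (by omega) hsl LY LY'
      exact sep58 g hsb.symm (by omega)
    · rename_i k' a'
      exfalso
      simp only [sb] at hsb
      have LY' := L'.2
      simp only [tgt, X, Y, Fin.val_succ] at LY'
      rw [← hs, ← hi, ← hsb, Bool.not_not] at LY'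
      have h1 : 0 + 1 = (k' : ℕ) + 1 + 1 := g.J4 a (by omega) (by omega) (by omega) (by omega) hsl LY LY'
      omega
    · rename_i a'
      left
      simp only [sb, Bool.not_inj_iff] at hsb
      rw [hsb]
  | e9 a =>
    cases e' <;> simp only [cls, OfNat.ofNat_ne_zero, OfNat.ofNat_ne_one, reduceCtorEq] at hc <;> try omega
    · rename_i a'
      left
      simp only [sb] at hsb
      rw [hsb]
    · exfalso
      have h1 := g.h0
      simp only [mg] at hmg
      linarith
  | e10 a =>
    cases e' <;> simp only [cls, OfNat.ofNat_ne_zero, OfNat.ofNat_ne_one, reduceCtorEq] at hc <;> try omega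
    · exfalso
      have h1 := g.h0
      simp only [mg] at hmg
      linarith
    · rename_i a'
      left
      simp only [sb, Bool.not_inj_iff] at hsb
      rw [hsb]
  | e11 => exact absurd rfl he

end Pool.Agent.Helper544.Net4
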