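import Mathlib
import Pool.Agent.Helper544.Net4c

noncomputable section
open scoped Classical

namespace Pool.Agent.Helper544.Net4

open Pool.Agent.Helper544.Chain4 Pool.Agent.Helper544.Planar

variable {M : ℕ} {p h : ℕ → ℝ}

theorem pt_P (x y x' y' t : ℝ) : pt (P x y) (P x' y') t = P (x + t * (x' - x)) (y + t * (y' - y)) := by
  apply Complex.ext
  · simp [pt, P]; ring
  · simp [pt, P]

theorem seg_P {x y x' y' : ℝ} {z : ℂ} (hz : z ∈ segment ℝ (P x y) (P x' y')) :
    ∃ t : ℝ, 0 ≤ t ∧ t ≤ 1 ∧ z = P (x + t * (x' - x)) (y + t * (y' - y)) := by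
  obtain ⟨t, h0, h1, h2⟩ := mem_seg.1 hz
  exact ⟨t, h0, h1, by rw [h2, pt_P]⟩

/-- points of a nonvertical edge -/
theorem seg_line {n : ℕ} (g : Good p h n) {e : Ed M} (he : e ≠ .e11) {z : ℂ}
    (hz : z ∈ segment ℝ (pos p h (src e)) (pos p h (tgt e))) :
    ∃ x y : ℝ, z = P x y ∧ y = sl p h e * x + ic p h e ∧
      (∀ s q : ℝ, q ≤ s * X p h (src e) → q ≤ s * X p h (tgt e) → q ≤ s * x) ∧
      (∀ s q : ℝ, s * X p h (src e) ≤ q → s * X p h (tgt e) ≤ q → s * x ≤ q) := by
  obtain ⟨t, h0, h1, h2⟩ := seg_P hz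
  obtain ⟨l1, l2⟩ := on_line g e he
  refine ⟨_, _, h2, ?_, ?_, ?_⟩
  · rw [l1, l2]; ring
  · intro s q a1 a2
    nlinarith
  · intro s q a1 a2
    nlinarith

theorem seg_vert {z : ℂ} (hz : z ∈ segment ℝ (pos p h (src (.e11 : Ed M))) (pos p h (tgt (.e11 : Ed M)))) :
    ∃ y : ℝ, z = P 0 y := by
  obtain ⟨t, h0, h1, h2⟩ := seg_P hz
  simp only [src, tgt, X, Y] at h2
  exact ⟨_, by rw [h2]; congr 1; ring⟩

theorem ovl_vert {n : ℕ} (g : Good p h n) {e' : Ed M} (he' : e' ≠ .e11) (u w : ℂ)
    (h1 : u ∈ segment ℝ (pos p h (src (.e11 : Ed M))) (pos p h (tgt (.e11 : Ed M))))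
    (h2 : u ∈ segment ℝ (pos p h (src e')) (pos p h (tgt e')))
    (h3 : w ∈ segment ℝ (pos p h (src (.e11 : Ed M))) (pos p h (tgt (.e11 : Ed M))))
    (h4 : w ∈ segment ℝ (pos p h (src e')) (pos p h (tgt e'))) : u = w := by
  obtain ⟨y1, hu⟩ := seg_vert h1
  obtain ⟨y2, hw⟩ := seg_vert h3
  obtain ⟨x3, y3, hu', l3, _⟩ := seg_line g he' h2
  obtain ⟨x4, y4, hw', l4, _⟩ := seg_line g he' h4
  rw [hu] at hu' ⊢
  rw [hw] at hw' ⊢
  obtain ⟨a1, a2⟩ := P_inj hu'
  obtain ⟨b1, b2⟩ := P_inj hw'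
  rw [a2, b2, l3, l4, ← a1, ← b1]

theorem ovl_sep {n : ℕ} (g : Good p h n) {e e' : Ed M} (he : e ≠ .e11) (he' : e' ≠ .e11)
    (hsep : Sep p h e e') (u w : ℂ)
    (h1 : u ∈ segment ℝ (pos p h (src e)) (pos p h (tgt e)))
    (h2 : u ∈ segment ℝ (pos p h (src e')) (pos p h (tgt e')))
    (h3 : w ∈ segment ℝ (pos p h (src e)) (pos p h (tgt e)))
    (h4 : w ∈ segment ℝ (pos p h (src e')) (pos p h (tgt e'))) : u = w := by
  obtain ⟨a, q, q1, q2, q3, q4⟩ := hsep
  obtain ⟨x1, y1, u1, l1, r1, _⟩ := seg_line g he h1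
  obtain ⟨x2, y2, u2, l2, _, r2⟩ := seg_line g he' h2
  obtain ⟨x3, y3, u3, l3, r3, _⟩ := seg_line g he h3
  obtain ⟨x4, y4, u4, l4, _, r4⟩ := seg_line g he' h4
  have k1 := r1 _ _ q1 q2
  have k2 := r2 _ _ q3 q4
  have k3 := r3 _ _ q1 q2
  have k4 := r4 _ _ q3 q4
  obtain ⟨a1, a2⟩ := P_inj (u1.symm.trans u2)
  obtain ⟨b1, b2⟩ := P_inj (u3.symm.trans u4)
  rw [← a1] at k2
  rw [← b1] at k4
  have k5 : sg a * x1 = sg a * x3 := by linarith
  have k6 := mul_left_cancel₀ (sg_ne a) k5
  rw [u1, u3, l1, l3, k6]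

theorem ovl (g : Good p h (M + 1)) (e e' : Ed M) (hne : e ≠ e') (u w : ℂ)
    (h1 : u ∈ segment ℝ (pos p h (src e)) (pos p h (tgt e)))
    (h2 : u ∈ segment ℝ (pos p h (src e')) (pos p h (tgt e')))
    (h3 : w ∈ segment ℝ (pos p h (src e)) (pos p h (tgt e)))
    (h4 : w ∈ segment ℝ (pos p h (src e')) (pos p h (tgt e'))) : u = w := by
  by_cases he : e = .e11
  · subst he
    exact ovl_vert g hne.symm u w h1 h2 h3 h4
  by_cases he' : e' = .e11
  · subst he'
    exact ovl_vert g hne u w h2 h1 h4 h3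
  by_contra hcon
  obtain ⟨x1, y1, u1, l1, _⟩ := seg_line g he h1
  obtain ⟨x2, y2, u2, l2, _⟩ := seg_line g he' h2
  obtain ⟨x3, y3, u3, l3, _⟩ := seg_line g he h3
  obtain ⟨x4, y4, u4, l4, _⟩ := seg_line g he' h4
  obtain ⟨a1, a2⟩ := P_inj (u1.symm.trans u2)
  obtain ⟨b1, b2⟩ := P_inj (u3.symm.trans u4)
  rw [← a1, ← a2] at l2
  rw [← b1, ← b2] at l4
  have hx : x1 ≠ x3 := by
    intro hx
    apply hcon
    rw [u1, u3, l1, l3, hx]
  have hs : sl p h e = sl p h e' := by
    have : (sl p h e - sl p h e') * (x1 - x3) = 0 := by linear_combination l2 - l1 + l3 - l4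
    rcases mul_eq_zero.1 this with h5 | h5
    · linarith
    · exact absurd (by linarith) hx
  have hi : ic p h e = ic p h e' := by rw [hs] at l1; linarith
  rcases same_line g he he' hs hi with h5 | h5 | h5
  · exact hne h5
  · exact hcon (ovl_sep g he he' h5 u w h1 h2 h3 h4)
  · exact hcon (ovl_sep g he' he h5 u w h2 h1 h4 h3)

/-! ### injectivity of the positions -/

theorem XT_bd {n : ℕ} (g : Good p h n) {k : ℕ} (hk : 1 ≤ k) (c : Bool) :
    42 / 100 ≤ 4 * p k * BB h k c / RR p h k c ∧ 4 * p k * BB h k c / RR p h k c ≤ 44 / 100 := by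
  have h1 := g.pb k hk
  have h2 := g.BBb k c
  have h3 := g.RRpos (k := k) c
  constructor
  · rw [le_div_iff₀ h3]; unfold RR; nlinarith
  · rw [div_le_iff₀ h3]; unfold RR; nlinarith

theorem YT_bd {n : ℕ} (g : Good p h n) {k : ℕ} (hk : 1 ≤ k) (c : Bool) :
    13 / 100 ≤ b + 3 - 4 * BB h k c ^ 2 / RR p h k c ∧ b + 3 - 4 * BB h k c ^ 2 / RR p h k c ≤ 16 / 100 := by
  have h1 := g.pb k hk
  have h2 := g.BBb k c
  have h3 := g.RRpos (k := k) c
  have e1 := b_eq
  have e2 := ep_eq
  have k1 : 16 ≤ BB h k c ^ 2 := by nlinarith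
  have k2 : BB h k c ^ 2 ≤ 16017 / 1000 := by nlinarith
  have k3 : p k ^ 2 ≤ 2025 / 10000 := by nlinarith
  have k4 : 1936 / 10000 ≤ p k ^ 2 := by nlinarith
  constructor
  · have : 4 * BB h k c ^ 2 / RR p h k c ≤ 3861 / 1000 := by
      rw [div_le_iff₀ h3]; unfold RR; linarith
    linarith
  · have : 385 / 100 ≤ 4 * BB h k c ^ 2 / RR p h k c := by
      rw [le_div_iff₀ h3]; unfold RR; linarith
    linarith

theorem YR_bd {n : ℕ} (g : Good p h n) {k : ℕ} (hk : 1 ≤ k) :
    0 ≤ 4 * b * QQ p k * h k / rr p h k ∧ 4 * b * QQ p k * h k / rr p h k ≤ 1 / 100 := by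
  have h1 := g.QQb hk
  have h3 := g.rrpos hk
  have h4 := g.hb k
  have e1 := b_eq
  have e2 := ep_eq
  constructor
  · apply div_nonneg _ h3.le
    have : 0 ≤ QQ p k := by linarith
    have : 0 ≤ h k := h4.1
    rw [e1]; positivity
  · rw [div_le_iff₀ h3, e1]; unfold rr
    have k1 : QQ p k * h k ≤ 1561 / 1000 * (1 / 1000) := mul_le_mul h1.2 (by linarith) h4.1 (by norm_num)
    nlinarith [sq_nonneg (h k)]


theorem absX {a : Bool} {x y : ℝ} (hx : sg a * x = y) (h0 : 0 ≤ x) : |y| = x := by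
  rw [← hx, abs_mul]
  have : |sg a| = 1 := by cases a <;> simp
  rw [this, one_mul, abs_of_nonneg h0]

/-- coarse location data: `|x|` and `|y|` -/
theorem loc_bd (g : Good p h (M + 1)) (x : Vx M) :
    (match x with
    | .S _ _ => |X p h x| = 1
    | .v => X p h x = 0 ∧ 0 < Y p h x
    | .G => X p h x = 0 ∧ Y p h x < 0
    | .Y _ _ => 44 / 100 ≤ |X p h x| ∧ |X p h x| ≤ 45 / 100 ∧ |Y p h x| ≤ 1 / 100
    | .T _ _ _ => 42 / 100 ≤ |X p h x| ∧ |X p h x| ≤ 44 / 100 ∧ 13 / 100 ≤ |Y p h x|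
    | .R _ _ => 66 / 100 ≤ |X p h x| ∧ |X p h x| ≤ 67 / 100) := by
  have e1 := b_eq
  have e2 := ep_eq
  cases x with
  | S a c => cases a <;> simp [X]
  | v => exact ⟨rfl, g.hpos 0 (by omega)⟩
  | G => exact ⟨rfl, by simp only [Y]; linarith⟩
  | Y k a =>
    have h1 := g.pb (k + 1) (by omega)
    have h2 := g.hb (k + 1)
    have h3 : |X p h (.Y k a : Vx M)| = p (k + 1) := absX (a := a) rfl (by linarith)
    simp only [h3]
    refine ⟨by linarith, by linarith, ?_⟩
    simp only [Y]
    rw [abs_of_nonneg h2.1]; linarith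
  | T k a c =>
    have h1 := XT_bd g (k := k + 1) (by omega) c
    have h2 := YT_bd g (k := k + 1) (by omega) c
    have h3 : |X p h (.T k a c : Vx M)| = _ := absX (a := a) rfl (by linarith [h1.1])
    have h4 : |Y p h (.T k a c : Vx M)| = _ := absX (a := c) rfl (by linarith [h2.1])
    simp only [h3, h4]
    exact ⟨h1.1, h1.2, h2.1⟩
  | R k a =>
    have h1 := XR_bd g (k := k + 1) (by omega)
    have h3 : |X p h (.R k a : Vx M)| = _ := absX (a := a) rfl (by linarith [h1.1])
    simp only [h3]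
    exact h1

theorem sg_pos_inj {a a' : Bool} {x x' : ℝ} (h1 : 0 < x) (h2 : 0 < x') (h : sg a * x = sg a' * x') :
    a = a' ∧ x = x' := sg_mg h1 h2 h

theorem pos_inj (g : Good p h (M + 1)) : Function.Injective (pos p h : Vx M → ℂ) := by
  intro x y hxy
  obtain ⟨hX, hY⟩ := P_inj hxy
  have L := loc_bd g x
  have L' := loc_bd g y
  have e1 := b_eq
  have e2 := ep_eq
  cases x with
  | S a c =>
    cases y with
    | S a' c' =>
      simp only [X, Y] at hX hY
      have q1 := sg_pos_inj (a := a) (a' := a') (x := 1) (x' := 1) one_pos one_pos (by simpa using hX)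
      have q2 := sg_pos_inj (a := c) (a' := c') (x := b) (x' := b) (by linarith) (by linarith) hY
      rw [q1.1, q2.1]
    | v => simp only at L L'; rw [hX, L'.1] at L; simp at L
    | G => simp only at L L'; rw [hX, L'.1] at L; simp at L
    | Y _ _ => simp only at L L'; rw [hX] at L; linarith
    | T _ _ _ => simp only at L L'; rw [hX] at L; linarith
    | R _ _ => simp only at L L'; rw [hX] at L; linarith
  | v =>
    cases y with
    | S _ _ => simp only at L L'; rw [← hX, L.1] at L'; simp at L'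
    | v => rfl
    | G => simp only at L L'; rw [hY] at L; linarith
    | Y _ _ => simp only at L L'; rw [← hX, L.1] at L'; simp at L'; linarith
    | T _ _ _ => simp only at L L'; rw [← hX, L.1] at L'; simp at L'; linarith
    | R _ _ => simp only at L L'; rw [← hX, L.1] at L'; simp at L'; linarith
  | G =>
    cases y with
    | S _ _ => simp only at L L'; rw [← hX, L.1] at L'; simp at L'
    | v => simp only at L L'; rw [hY] at L; linarith
    | G => rfl
    | Y _ _ => simp only at L L'; rw [← hX, L.1] at L'; simp at L'; linarith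
    | T _ _ _ => simp only at L L'; rw [← hX, L.1] at L'; simp at L'; linarith
    | R _ _ => simp only at L L'; rw [← hX, L.1] at L'; simp at L'; linarith
  | Y k a =>
    cases y with
    | S _ _ => simp only at L L'; rw [hX] at L; linarith
    | v => simp only at L L'; rw [hX, L'.1] at L; simp at L; linarith
    | G => simp only at L L'; rw [hX, L'.1] at L; simp at L; linarith
    | Y k' a' =>
      have h1 := g.pb (k + 1) (by omega)
      have h2 := g.pb (k' + 1) (by omega)
      simp only [X, Y] at hX hY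
      have q1 := sg_pos_inj (a := a) (a' := a') (by linarith) (by linarith) hX
      rcases lt_trichotomy (k : ℕ) k' with h3 | h3 | h3
      · have := g.anti (k + 1) (k' + 1) (by omega) (by omega); linarith
      · rw [q1.1, Fin.ext h3]
      · have := g.anti (k' + 1) (k + 1) (by omega) (by omega); linarith
    | T _ _ _ => simp only at L L'; rw [hY] at L; linarith
    | R _ _ => simp only at L L'; rw [hX] at L; linarith
  | T k a c =>
    cases y with
    | S _ _ => simp only at L L'; rw [hX] at L; linarith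
    | v => simp only at L L'; rw [hX, L'.1] at L; simp at L; linarith
    | G => simp only at L L'; rw [hX, L'.1] at L; simp at L; linarith
    | Y _ _ => simp only at L L'; rw [hY] at L; linarith
    | T k' a' c' =>
      have h1 := XT_bd g (k := k + 1) (by omega) c
      have h1' := XT_bd g (k := k' + 1) (by omega) c'
      have h2 := YT_bd g (k := k + 1) (by omega) c
      have h2' := YT_bd g (k := k' + 1) (by omega) c'
      simp only [X, Y] at hX hY
      have q1 := sg_pos_inj (a := a) (a' := a') (by linarith) (by linarith) hX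
      have q2 := sg_pos_inj (a := c) (a' := c') (by linarith) (by linarith) hY
      obtain ⟨q1, q1'⟩ := q1
      obtain ⟨q2, q2'⟩ := q2
      subst q1 q2
      have p1 := g.RRpos (k := k + 1) c
      have p2 := g.RRpos (k := k' + 1) c
      have r1 := g.BBb (k + 1) c
      have r2 := g.BBb (k' + 1) c
      have q3 : 4 * BB h (k + 1) c ^ 2 / RR p h (k + 1) c = 4 * BB h (k' + 1) c ^ 2 / RR p h (k' + 1) c := by linarith
      have hb1 : BB h (k + 1) c ≠ 0 := by linarith
      have hb2 : BB h (k' + 1) c ≠ 0 := by linarith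
      -- multiply the first coordinate by B'/..., using equality of B²/R²
      have q4 : 4 * BB h (k + 1) c ^ 2 * RR p h (k' + 1) c = 4 * BB h (k' + 1) c ^ 2 * RR p h (k + 1) c :=
        (div_eq_div_iff p1.ne' p2.ne').1 q3
      have q5 : 4 * p (k + 1) * BB h (k + 1) c * RR p h (k' + 1) c = 4 * p (k' + 1) * BB h (k' + 1) c * RR p h (k + 1) c :=
        (div_eq_div_iff p1.ne' p2.ne').1 q1'
      have q6 : BB h (k + 1) c * p (k' + 1) = BB h (k' + 1) c * p (k + 1) := by
        have h9 : (4 * RR p h (k + 1) c * BB h (k' + 1) c) * (BB h (k + 1) c * p (k' + 1)) =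
            (4 * RR p h (k + 1) c * BB h (k' + 1) c) * (BB h (k' + 1) c * p (k + 1)) := by
          linear_combination p (k + 1) * q4 - BB h (k + 1) c * q5
        exact mul_left_cancel₀ (by positivity) h9
      have h3 : (k : ℕ) + 1 = (k' : ℕ) + 1 := g.J2 c (by omega) (by omega) (by omega) (by omega) q6
      have h4 : k = k' := Fin.ext (by omega)
      rw [h4]
    | R _ _ => simp only at L L'; rw [hX] at L; linarith
  | R k a =>
    cases y with
    | S _ _ => simp only at L L'; rw [hX] at L; linarith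
    | v => simp only at L L'; rw [hX, L'.1] at L; simp at L; linarith
    | G => simp only at L L'; rw [hX, L'.1] at L; simp at L; linarith
    | Y _ _ => simp only at L L'; rw [hX] at L; linarith
    | T _ _ _ => simp only at L L'; rw [hX] at L; linarith
    | R k' a' =>
      have h1 := XR_bd g (k := k + 1) (by omega)
      have h1' := XR_bd g (k := k' + 1) (by omega)
      simp only [X, Y] at hX hY
      have q1 := sg_pos_inj (a := a) (a' := a') (by linarith) (by linarith) hX
      obtain ⟨q1, q1'⟩ := q1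
      subst q1
      have p1 := g.rrpos (k := k + 1) (by omega)
      have p2 := g.rrpos (k := k' + 1) (by omega)
      have r1 := g.QQb (k := k + 1) (by omega)
      have r2 := g.QQb (k := k' + 1) (by omega)
      have q3 : 4 * b * QQ p (k + 1) ^ 2 / rr p h (k + 1) = 4 * b * QQ p (k' + 1) ^ 2 / rr p h (k' + 1) := by linarith
      have q4 : 4 * b * QQ p (k + 1) ^ 2 * rr p h (k' + 1) = 4 * b * QQ p (k' + 1) ^ 2 * rr p h (k + 1) :=
        (div_eq_div_iff p1.ne' p2.ne').1 q3
      have q5 : 4 * b * QQ p (k + 1) * h (k + 1) * rr p h (k' + 1) = 4 * b * QQ p (k' + 1) * h (k' + 1) * rr p h (k + 1) :=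
        (div_eq_div_iff p1.ne' p2.ne').1 hY
      have q6 : h (k + 1) * QQ p (k' + 1) = h (k' + 1) * QQ p (k + 1) := by
        have h9 : (4 * b * rr p h (k + 1) * QQ p (k' + 1)) * (h (k + 1) * QQ p (k' + 1)) =
            (4 * b * rr p h (k + 1) * QQ p (k' + 1)) * (h (k' + 1) * QQ p (k + 1)) := by
          linear_combination (-h (k + 1)) * q4 + QQ p (k + 1) * q5
        have hq : 0 < QQ p (k' + 1) := by linarith
        exact mul_left_cancel₀ (by rw [e1]; positivity) h9
      have h3 : (k : ℕ) + 1 = (k' : ℕ) + 1 := g.J3 (by omega) (by omega) (by omega) (by omega) q6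
      have h4 : k = k' := Fin.ext (by omega)
      rw [h4]

theorem src_ne_tgt (e : Ed M) : src e ≠ tgt e := by
  cases e with
  | e7 k a =>
    simp only [src, tgt, ne_eq, Vx.Y.injEq, not_and]
    intro hk
    exfalso
    have := congrArg Fin.val hk
    simp at this
  | _ => simp [src, tgt]

end Pool.Agent.Helper544.Net4
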