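import Mathlib
import Pool.Agent.Helper544.Net4d

noncomputable section
open scoped Classical

namespace Pool.Agent.Helper544.Net4

open Pool.Agent.Helper544.Chain4 Pool.Agent.Helper544.Planar

variable {M : ℕ} {p h : ℕ → ℝ}

abbrev EdS (M : ℕ) := (Fin (M + 1) × Bool × Bool) ⊕ (Fin (M + 1) × Bool × Bool) ⊕
  (Fin (M + 1) × Bool × Bool) ⊕ (Fin (M + 1) × Bool × Bool) ⊕ (Fin M × Bool) ⊕ (Fin M × Bool × Bool) ⊕
  (Fin M × Bool) ⊕ Bool ⊕ Bool ⊕ Bool ⊕ Unit

def fromS : EdS M → Ed M
  | .inl (k, a, c) => .e1 k a c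
  | .inr (.inl (k, a, c)) => .e2 k a c
  | .inr (.inr (.inl (k, a, c))) => .e3 k a c
  | .inr (.inr (.inr (.inl (k, a, c)))) => .e4 k a c
  | .inr (.inr (.inr (.inr (.inl (k, a))))) => .e5 k a
  | .inr (.inr (.inr (.inr (.inr (.inl (k, a, c)))))) => .e6 k a c
  | .inr (.inr (.inr (.inr (.inr (.inr (.inl (k, a))))))) => .e7 k a
  | .inr (.inr (.inr (.inr (.inr (.inr (.inr (.inl a))))))) => .e8 a
  | .inr (.inr (.inr (.inr (.inr (.inr (.inr (.inr (.inl a)))))))) => .e9 a
  | .inr (.inr (.inr (.inr (.inr (.inr (.inr (.inr (.inr (.inl a))))))))) => .e10 a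
  | .inr (.inr (.inr (.inr (.inr (.inr (.inr (.inr (.inr (.inr _))))))))) => .e11

def toS : Ed M → EdS M
  | .e1 k a c => .inl (k, a, c)
  | .e2 k a c => .inr (.inl (k, a, c))
  | .e3 k a c => .inr (.inr (.inl (k, a, c)))
  | .e4 k a c => .inr (.inr (.inr (.inl (k, a, c))))
  | .e5 k a => .inr (.inr (.inr (.inr (.inl (k, a)))))
  | .e6 k a c => .inr (.inr (.inr (.inr (.inr (.inl (k, a, c))))))
  | .e7 k a => .inr (.inr (.inr (.inr (.inr (.inr (.inl (k, a)))))))
  | .e8 a => .inr (.inr (.inr (.inr (.inr (.inr (.inr (.inl a)))))))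
  | .e9 a => .inr (.inr (.inr (.inr (.inr (.inr (.inr (.inr (.inl a))))))))
  | .e10 a => .inr (.inr (.inr (.inr (.inr (.inr (.inr (.inr (.inr (.inl a)))))))))
  | .e11 => .inr (.inr (.inr (.inr (.inr (.inr (.inr (.inr (.inr (.inr ())))))))))

def edEquiv : EdS M ≃ Ed M where
  toFun := fromS
  invFun := toS
  left_inv := by
    intro x
    rcases x with x | x | x | x | x | x | x | x | x | x | x <;> rfl
  right_inv := by
    intro e
    cases e <;> rfl

instance : Fintype (Ed M) := Fintype.ofEquiv _ edEquiv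

theorem sum_Ed (f : Ed M → ℂ) : ∑ e, f e =
    (∑ k, ∑ a, ∑ c, f (.e1 k a c)) + (∑ k, ∑ a, ∑ c, f (.e2 k a c)) + (∑ k, ∑ a, ∑ c, f (.e3 k a c)) +
    (∑ k, ∑ a, ∑ c, f (.e4 k a c)) + (∑ k, ∑ a, f (.e5 k a)) + (∑ k, ∑ a, ∑ c, f (.e6 k a c)) +
    (∑ k, ∑ a, f (.e7 k a)) + (∑ a, f (.e8 a)) + (∑ a, f (.e9 a)) + (∑ a, f (.e10 a)) + f .e11 := by
  rw [← Equiv.sum_comp edEquiv]
  simp only [Fintype.sum_sum_type, Fintype.sum_prod_type, edEquiv, Equiv.coe_fn_mk, fromS]
  simp only [Finset.univ_unique, Finset.sum_singleton]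
  ring

def star (x : Vx M) (f : Vx M → ℂ) : ℂ :=
  ∑ e, ((if src e = x then f (tgt e) else 0) + (if tgt e = x then f (src e) else 0))

theorem sum_castSucc (j : Fin (M + 1)) (g : Fin M → ℂ) :
    ∑ k : Fin M, (if k.castSucc = j then g k else 0) = if hj : j.val < M then g ⟨j, hj⟩ else 0 := by
  have key : ∀ k : Fin M, k.castSucc = j ↔ k.val = j.val := by
    intro k
    rw [Fin.ext_iff, Fin.val_castSucc]
  split_ifs with hj
  · rw [Finset.sum_eq_single (⟨j.val, hj⟩ : Fin M)]
    · rw [if_pos ((key _).2 rfl)]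
    · intro k _ hk
      rw [if_neg]
      intro h1
      exact hk (Fin.ext ((key k).1 h1))
    · simp
  · refine Finset.sum_eq_zero fun k _ => ?_
    rw [if_neg]
    intro h1
    have := (key k).1 h1
    omega

theorem sum_succ (j : Fin (M + 1)) (g : Fin M → ℂ) :
    ∑ k : Fin M, (if k.succ = j then g k else 0) =
      if hj : 0 < j.val then g ⟨j - 1, by omega⟩ else 0 := by
  have key : ∀ k : Fin M, k.succ = j ↔ k.val + 1 = j.val := by
    intro k
    rw [Fin.ext_iff, Fin.val_succ]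
  split_ifs with hj
  · rw [Finset.sum_eq_single (⟨j.val - 1, by omega⟩ : Fin M)]
    · rw [if_pos ((key _).2 (by simp only; omega))]
    · intro k _ hk
      rw [if_neg]
      intro h1
      have := (key k).1 h1
      exact hk (Fin.ext (by simp only; omega))
    · simp
  · refine Finset.sum_eq_zero fun k _ => ?_
    rw [if_neg]
    intro h1
    have := (key k).1 h1
    omega

theorem star_Y (j : Fin (M + 1)) (a : Bool) (f : Vx M → ℂ) : star (.Y j a) f =
    f (.S a true) + f (.S a false) + f (.T j a true) + f (.T j a false) +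
    (if hj : j.val < M then f (.R ⟨j, hj⟩ a) + f (.Y ⟨j + 1, by omega⟩ (!a)) else 0) +
    (if hj : 0 < j.val then f (.Y ⟨j - 1, by omega⟩ (!a)) else f .v) := by
  unfold star
  rw [sum_Ed]
  have h3 : 0 < j ↔ ¬ (0 = j) :=
    ⟨fun h e => absurd h (by rw [← e]; exact lt_irrefl _), fun h => lt_of_le_of_ne (Fin.zero_le _) h⟩
  cases a <;> simp [src, tgt, Finset.sum_add_distrib, sum_castSucc, sum_succ, h3] <;>
    by_cases h1 : j.val < M <;> by_cases h2 : 0 = j <;> simp only [h1, h2, dif_pos, dif_neg, if_pos, if_neg,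
      not_true, not_false_iff, if_true, if_false] <;> first | ring | simp

theorem star_T (j : Fin (M + 1)) (a c : Bool) (f : Vx M → ℂ) : star (.T j a c) f =
    f (.Y j a) + f (.S a c) + f (.S (!a) c) := by
  unfold star
  rw [sum_Ed]
  cases a <;> cases c <;> simp [src, tgt, Finset.sum_add_distrib]

theorem star_R (j : Fin M) (a : Bool) (f : Vx M → ℂ) : star (.R j a) f =
    f (.Y j.castSucc a) + f (.S a true) + f (.S a false) := by
  unfold star
  rw [sum_Ed]
  cases a <;> simp [src, tgt, Finset.sum_add_distrib]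
  · ring
  · ring

theorem star_v (f : Vx M → ℂ) : star .v f =
    f (.Y 0 true) + f (.Y 0 false) + f (.S true true) + f (.S false true) + f .G := by
  unfold star
  rw [sum_Ed]
  simp [src, tgt, Finset.sum_add_distrib]
  ring

theorem star_G (f : Vx M → ℂ) : star .G f =
    f (.S true false) + f (.S false false) + f .v := by
  unfold star
  rw [sum_Ed]
  simp [src, tgt, Finset.sum_add_distrib]

end Pool.Agent.Helper544.Net4
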