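import Mathlib
import Pool.Agent.Helper544.Net4e

noncomputable section
open scoped Classical

namespace Pool.Agent.Helper544.Net4

open Pool.Agent.Helper544.Chain4 Pool.Agent.Helper544.Planar

variable {M : ℕ} {p h : ℕ → ℝ}

theorem norm_P (x y : ℝ) : ‖P x y‖ = N x y := by
  rw [Complex.norm_eq_sqrt_sq_add_sq]
  unfold N P
  congr 1
  simp only
  rw [mul_pow, s3sq]

theorem P_add (x y x' y' : ℝ) : P x y + P x' y' = P (x + x') (y + y') := by
  apply Complex.ext <;> simp [P]; ring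

theorem P_sub (x y x' y' : ℝ) : P x y - P x' y' = P (x - x') (y - y') := by
  apply Complex.ext <;> simp [P]; ring

theorem P_zero : P 0 0 = 0 := by
  apply Complex.ext <;> simp [P]

theorem N_scale {t : ℝ} (ht : 0 < t) (x y : ℝ) : N (t * x) (t * y) = t * N x y := by
  unfold N
  rw [show 3 * (t * x) ^ 2 + (t * y) ^ 2 = t ^ 2 * (3 * x ^ 2 + y ^ 2) by ring,
    Real.sqrt_mul (sq_nonneg t), Real.sqrt_sq ht.le]

theorem uv_P {x y x' y' dx dy t : ℝ} (ht : 0 < t) (hx : x' - x = t * dx) (hy : y' - y = t * dy) :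
    uv (P x y) (P x' y') = P (dx / N dx dy) (dy / N dx dy) := by
  unfold uv
  rw [P_sub, hx, hy, norm_P, N_scale ht]
  have ht' : (t : ℂ) ≠ 0 := by exact_mod_cast ht.ne'
  by_cases hN : N dx dy = 0
  · rw [hN]
    simp [P_zero]
  · have hN' : (N dx dy : ℂ) ≠ 0 := by exact_mod_cast hN
    have hne : ((t * N dx dy : ℝ) : ℂ) ≠ 0 := by push_cast; exact mul_ne_zero ht' hN'
    rw [div_eq_iff hne]
    apply Complex.ext
    · simp [P]
      field_simp
    · simp [P]
      field_simp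

theorem N_sg (a : Bool) (x y : ℝ) : N (sg a * x) y = N x y := by
  cases a
  · simp only [sg_false, neg_mul, one_mul, N_neg_left]
  · simp

theorem N_sg' (a : Bool) (x y : ℝ) : N x (sg a * y) = N x y := by
  cases a
  · simp only [sg_false, neg_mul, one_mul, N_neg_right]
  · simp

def F (p h : ℕ → ℝ) (x y : Vx M) : ℂ := uv (pos p h x) (pos p h y)

theorem F_eq {x y : Vx M} {dx dy t : ℝ} (ht : 0 < t) (hx : X p h y - X p h x = t * dx)
    (hy : Y p h y - Y p h x = t * dy) : F p h x y = P (dx / N dx dy) (dy / N dx dy) := by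
  unfold F pos
  exact uv_P ht hx hy

theorem N_sq_eq {x y c : ℝ} (hc : 0 ≤ c) (h : 3 * x ^ 2 + y ^ 2 = c ^ 2) : N x y = c := by
  unfold N
  rw [h, Real.sqrt_sq hc]

theorem algT {s c q B bb R : ℝ} (hR : R ≠ 0) (hR' : R = 3 * q ^ 2 + B ^ 2) :
    s * q - s * (4 * q * B / R) = (1 - 4 * B / R) * (s * q) ∧
    s - s * (4 * q * B / R) = (B - 3 * q) / R * (s * (B - q)) ∧
    -s - s * (4 * q * B / R) = (B + 3 * q) / R * (-(s * (B + q))) ∧
    c * bb - c * (bb + 3 - 4 * B ^ 2 / R) = (B - 3 * q) / R * (c * (B + 3 * q)) ∧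
    c * bb - c * (bb + 3 - 4 * B ^ 2 / R) = (B + 3 * q) / R * (c * (B - 3 * q)) ∧
    c * (bb + 3) - c * B - c * (bb + 3 - 4 * B ^ 2 / R) = (1 - 4 * B / R) * (-(c * B)) := by
  refine ⟨?_, ?_, ?_, ?_, ?_, ?_⟩
  · field_simp
  · field_simp; rw [hR']; ring
  · field_simp; rw [hR']; ring
  · field_simp; rw [hR']; ring
  · field_simp; rw [hR']; ring
  · field_simp; ring

/-- balance at the Fermat vertices `T` -/
theorem bal_T {n : ℕ} (g : Good p h n) (j : Fin (M + 1)) (a c : Bool) :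
    star (.T j a c : Vx M) (F p h (.T j a c)) = 0 := by
  have h1 := g.pb (j + 1) (by omega)
  have h2 := g.BBb (j + 1) c
  have h3 := g.RRpos (k := j + 1) c
  obtain ⟨k1, k2, k3, k4, k5, k6⟩ := algT (s := sg a) (c := sg c) (q := p (j + 1)) (B := BB h (j + 1) c)
    (bb := b) h3.ne' rfl
  have hBh : h (j + 1) = sg c * (b + 3) - sg c * BB h (j + 1) c := by
    unfold BB; linear_combination -(h (j + 1)) * (sg_mul c)
  have hRR : RR p h (j + 1) c = N (p (j + 1)) (BB h (j + 1) c) ^ 2 := by rw [N_sq]; rfl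
  have hN0pos : 0 < N (p (j + 1)) (BB h (j + 1) c) := N_pos_left _ (by linarith)
  have hRR' : RR p h (j + 1) c = 3 * p (j + 1) ^ 2 + BB h (j + 1) c ^ 2 := rfl
  have t1 : F p h (.T j a c : Vx M) (.Y j a) = P (sg a * p (j + 1) / N (p (j + 1)) (BB h (j + 1) c))
      (-(sg c * BB h (j + 1) c) / N (p (j + 1)) (BB h (j + 1) c)) := by
    rw [F_eq (t := 1 - 4 * BB h (j + 1) c / RR p h (j + 1) c) (dx := sg a * p (j + 1)) (dy := -(sg c * BB h (j + 1) c))]
    · rw [N_neg_right, N_sg, N_sg']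
    · rw [sub_pos, div_lt_one h3, hRR']; nlinarith
    · exact k1
    · simp only [Y]
      conv_lhs => rw [hBh]
      exact k6
  have t2 : F p h (.T j a c : Vx M) (.S a c) = P (sg a * (BB h (j + 1) c - p (j + 1)) / (2 * N (p (j + 1)) (BB h (j + 1) c)))
      (sg c * (BB h (j + 1) c + 3 * p (j + 1)) / (2 * N (p (j + 1)) (BB h (j + 1) c))) := by
    rw [F_eq (t := (BB h (j + 1) c - 3 * p (j + 1)) / RR p h (j + 1) c) (dx := sg a * (BB h (j + 1) c - p (j + 1)))
      (dy := sg c * (BB h (j + 1) c + 3 * p (j + 1)))]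
    · rw [N_sg, N_sg', N_sq_eq (c := 2 * N (p (j + 1)) (BB h (j + 1) c)) (by positivity)]
      rw [mul_pow, N_sq]; ring
    · apply div_pos _ h3; linarith
    · exact k2
    · exact k4
  have t3 : F p h (.T j a c : Vx M) (.S (!a) c) = P (-(sg a * (BB h (j + 1) c + p (j + 1))) / (2 * N (p (j + 1)) (BB h (j + 1) c)))
      (sg c * (BB h (j + 1) c - 3 * p (j + 1)) / (2 * N (p (j + 1)) (BB h (j + 1) c))) := by
    rw [F_eq (t := (BB h (j + 1) c + 3 * p (j + 1)) / RR p h (j + 1) c) (dx := -(sg a * (BB h (j + 1) c + p (j + 1))))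
      (dy := sg c * (BB h (j + 1) c - 3 * p (j + 1)))]
    · rw [N_neg_left, N_sg, N_sg', N_sq_eq (c := 2 * N (p (j + 1)) (BB h (j + 1) c)) (by positivity)]
      rw [mul_pow, N_sq]; ring
    · apply div_pos _ h3; linarith
    · simp only [X]
      rw [sg_not a]
      exact k3
    · exact k5
  rw [star_T, t1, t2, t3, P_add, P_add, ← P_zero]
  congr 1
  · field_simp; ring
  · field_simp; ring

theorem algR {s q Q h b R : ℝ} (hR : R ≠ 0) (hR' : R = 3 * Q ^ 2 + h ^ 2) (hQ : Q = 1 + b - q) :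
    s * q - s * (1 + b - 4 * b * Q ^ 2 / R) = (1 - 4 * b * Q / R) * (-(s * Q)) ∧
    h - 4 * b * Q * h / R = (1 - 4 * b * Q / R) * h ∧
    s - s * (1 + b - 4 * b * Q ^ 2 / R) = b * (Q - h) / R * (s * (Q + h)) ∧
    b - 4 * b * Q * h / R = b * (Q - h) / R * (3 * Q - h) ∧
    s - s * (1 + b - 4 * b * Q ^ 2 / R) = b * (Q + h) / R * (s * (Q - h)) ∧
    -b - 4 * b * Q * h / R = b * (Q + h) / R * (-(3 * Q + h)) := by
  refine ⟨?_, ?_, ?_, ?_, ?_, ?_⟩
  · have : q = 1 + b - Q := by linarith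
    rw [this]; field_simp; ring
  · field_simp
  · field_simp; rw [hR']; ring
  · field_simp; rw [hR']; ring
  · field_simp; rw [hR']; ring
  · field_simp; rw [hR']; ring

/-- balance at the Fermat vertices `R` -/
theorem bal_R {n : ℕ} (g : Good p h n) (j : Fin M) (a : Bool) :
    star (.R j a : Vx M) (F p h (.R j a)) = 0 := by
  have h2 := g.QQb (k := j + 1) (by omega)
  have h3 := g.rrpos (k := j + 1) (by omega)
  have h4 := g.hb (j + 1)
  have e1 := b_eq
  have e2 := ep_eq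
  obtain ⟨k1, k2, k3, k4, k5, k6⟩ := algR (s := sg a) (q := p (j + 1)) (Q := QQ p (j + 1)) (h := h (j + 1))
    (b := b) h3.ne' rfl rfl
  have hrr : rr p h (j + 1) = 3 * QQ p (j + 1) ^ 2 + h (j + 1) ^ 2 := rfl
  have hN0pos : 0 < N (QQ p (j + 1)) (h (j + 1)) := N_pos_left _ (by linarith)
  have t1 : F p h (.R j a : Vx M) (.Y j.castSucc a) = P (-(sg a * QQ p (j + 1)) / N (QQ p (j + 1)) (h (j + 1)))
      (h (j + 1) / N (QQ p (j + 1)) (h (j + 1))) := by
    rw [F_eq (t := 1 - 4 * b * QQ p (j + 1) / rr p h (j + 1)) (dx := -(sg a * QQ p (j + 1))) (dy := h (j + 1))]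
    · rw [N_neg_left, N_sg]
    · rw [sub_pos, div_lt_one h3, hrr, e1]; nlinarith [sq_nonneg (h (j + 1))]
    · exact k1
    · exact k2
  have t2 : F p h (.R j a : Vx M) (.S a true) = P (sg a * (QQ p (j + 1) + h (j + 1)) / (2 * N (QQ p (j + 1)) (h (j + 1))))
      ((3 * QQ p (j + 1) - h (j + 1)) / (2 * N (QQ p (j + 1)) (h (j + 1)))) := by
    rw [F_eq (t := b * (QQ p (j + 1) - h (j + 1)) / rr p h (j + 1)) (dx := sg a * (QQ p (j + 1) + h (j + 1)))
      (dy := 3 * QQ p (j + 1) - h (j + 1))]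
    · rw [N_sg, N_sq_eq (c := 2 * N (QQ p (j + 1)) (h (j + 1))) (by positivity)]
      rw [mul_pow, N_sq]; ring
    · apply div_pos _ h3; rw [e1]; nlinarith
    · exact k3
    · simp only [Y, sg_true, one_mul]; exact k4
  have t3 : F p h (.R j a : Vx M) (.S a false) = P (sg a * (QQ p (j + 1) - h (j + 1)) / (2 * N (QQ p (j + 1)) (h (j + 1))))
      (-(3 * QQ p (j + 1) + h (j + 1)) / (2 * N (QQ p (j + 1)) (h (j + 1)))) := by
    rw [F_eq (t := b * (QQ p (j + 1) + h (j + 1)) / rr p h (j + 1)) (dx := sg a * (QQ p (j + 1) - h (j + 1)))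
      (dy := -(3 * QQ p (j + 1) + h (j + 1)))]
    · rw [N_neg_right, N_sg, N_sq_eq (c := 2 * N (QQ p (j + 1)) (h (j + 1))) (by positivity)]
      rw [mul_pow, N_sq]; ring
    · apply div_pos _ h3; rw [e1]; nlinarith
    · exact k5
    · simp only [Y, sg_false, neg_mul, one_mul]; exact k6
  rw [star_R, t1, t2, t3, P_add, P_add, ← P_zero]
  congr 1
  · field_simp; ring
  · field_simp; ring

/-- balance at `G` -/
theorem bal_G {n : ℕ} (g : Good p h n) : star (.G : Vx M) (F p h .G) = 0 := by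
  have h4 := g.hb 0
  have e1 := b_eq
  have e2 := ep_eq
  have n2 : N 1 (-1) = 2 := N_sq_eq (by norm_num) (by norm_num)
  have n1 : N 0 1 = 1 := N_sq_eq (by norm_num) (by norm_num)
  have t1 : F p h (.G : Vx M) (.S true false) = P (1 / 2) (-1 / 2) := by
    rw [F_eq (t := 1) (dx := 1) (dy := -1), n2]
    · norm_num
    · simp [X]
    · simp [Y]; linarith
  have t2 : F p h (.G : Vx M) (.S false false) = P (-1 / 2) (-1 / 2) := by
    rw [F_eq (t := 1) (dx := -1) (dy := -1), N_neg_left, n2]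
    · norm_num
    · simp [X]
    · simp [Y]; linarith
  have t3 : F p h (.G : Vx M) .v = P 0 1 := by
    rw [F_eq (t := h 0 + ep) (dx := 0) (dy := 1), n1]
    · simp
    · linarith
    · simp [X]
    · simp [Y]
  rw [star_G, t1, t2, t3, P_add, P_add, ← P_zero]
  congr 1 <;> norm_num

/-- balance at `v` -/
theorem bal_v {n : ℕ} (g : Good p h n) (e0 : (b - h 0) / N 1 (b - h 0) = 1 / 2 + (h 0 - h 1) / N (p 0 + p 1) (h 0 - h 1)) :
    star (.v : Vx M) (F p h .v) = 0 := by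
  have h4 := g.hb 0
  have e1 := b_eq
  have e2 := ep_eq
  have n1 : N 0 (-1) = 1 := N_sq_eq (by norm_num) (by norm_num)
  have hD : N (p 1) (h 1 - h 0) = N (p 0 + p 1) (h 0 - h 1) := by
    rw [g.p0, zero_add, ← N_neg_right]; congr 1; ring
  have t1 : F p h (.v : Vx M) (.Y 0 true) = P (p 1 / N (p 0 + p 1) (h 0 - h 1)) ((h 1 - h 0) / N (p 0 + p 1) (h 0 - h 1)) := by
    rw [F_eq (t := 1) (dx := p 1) (dy := h 1 - h 0), hD]
    · norm_num
    · simp [X]
    · simp [Y]
  have t2 : F p h (.v : Vx M) (.Y 0 false) = P (-p 1 / N (p 0 + p 1) (h 0 - h 1)) ((h 1 - h 0) / N (p 0 + p 1) (h 0 - h 1)) := by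
    rw [F_eq (t := 1) (dx := -p 1) (dy := h 1 - h 0), N_neg_left, hD]
    · norm_num
    · simp [X]
    · simp [Y]
  have t3 : F p h (.v : Vx M) (.S true true) = P (1 / N 1 (b - h 0)) ((b - h 0) / N 1 (b - h 0)) := by
    rw [F_eq (t := 1) (dx := 1) (dy := b - h 0)]
    · norm_num
    · simp [X]
    · simp [Y]
  have t4 : F p h (.v : Vx M) (.S false true) = P (-1 / N 1 (b - h 0)) ((b - h 0) / N 1 (b - h 0)) := by
    rw [F_eq (t := 1) (dx := -1) (dy := b - h 0), N_neg_left]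
    · norm_num
    · simp [X]
    · simp [Y]
  have t5 : F p h (.v : Vx M) .G = P 0 (-1) := by
    rw [F_eq (t := h 0 + ep) (dx := 0) (dy := -1), n1]
    · simp
    · linarith
    · simp [X]
    · simp [Y]; ring
  rw [star_v, t1, t2, t3, t4, t5, P_add, P_add, P_add, P_add, ← P_zero]
  congr 1
  · ring
  · rw [e0]; ring

end Pool.Agent.Helper544.Net4
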