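import Mathlib
import Pool.Agent.Helper544.Net4f

noncomputable section
open scoped Classical

namespace Pool.Agent.Helper544.Net4

open Pool.Agent.Helper544.Chain4 Pool.Agent.Helper544.Planar

variable {M : ℕ} {p h : ℕ → ℝ}

theorem algYT {s c q B bb hh R : ℝ} (hR : R ≠ 0) (hh' : hh = c * (bb + 3) - c * B) :
    s * (4 * q * B / R) - s * q = (1 - 4 * B / R) * (-(s * q)) ∧
    c * (bb + 3 - 4 * B ^ 2 / R) - hh = (1 - 4 * B / R) * (c * B) := by
  rw [hh']
  constructor
  · field_simp; ring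
  · field_simp; ring

theorem F_YT {n : ℕ} (g : Good p h n) (j : Fin (M + 1)) (a c : Bool) :
    F p h (.Y j a : Vx M) (.T j a c) = P (-(sg a * p (j + 1)) / N (p (j + 1)) (b + 3 - sg c * h (j + 1)))
      (sg c * (b + 3 - sg c * h (j + 1)) / N (p (j + 1)) (b + 3 - sg c * h (j + 1))) := by
  have h1 := g.pb (j + 1) (by omega)
  have h2 := g.BBb (j + 1) c
  have h3 := g.RRpos (k := j + 1) c
  have hBh : h (j + 1) = sg c * (b + 3) - sg c * BB h (j + 1) c := by
    unfold BB; linear_combination -(h (j + 1)) * (sg_mul c)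
  have hRR' : RR p h (j + 1) c = 3 * p (j + 1) ^ 2 + BB h (j + 1) c ^ 2 := rfl
  obtain ⟨k1, k2⟩ := algYT (s := sg a) (q := p (j + 1)) h3.ne' hBh
  have hB : b + 3 - sg c * h (j + 1) = BB h (j + 1) c := rfl
  rw [hB, F_eq (t := 1 - 4 * BB h (j + 1) c / RR p h (j + 1) c) (dx := -(sg a * p (j + 1))) (dy := sg c * BB h (j + 1) c)]
  · rw [N_neg_left, N_sg, N_sg']
  · rw [sub_pos, div_lt_one h3, hRR']; nlinarith
  · exact k1
  · exact k2

theorem F_YR {n : ℕ} (g : Good p h n) (j : Fin M) (k : Fin (M + 1)) (hk : k.val = j.val) (a : Bool) :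
    F p h (.Y k a : Vx M) (.R j a) = P (sg a * (1 + b - p (k + 1)) / N (1 + b - p (k + 1)) (h (k + 1)))
      (-h (k + 1) / N (1 + b - p (k + 1)) (h (k + 1))) := by
  have h2 := g.QQb (k := j + 1) (by omega)
  have h3 := g.rrpos (k := j + 1) (by omega)
  have h4 := g.hb (j + 1)
  have e1 := b_eq
  have e2 := ep_eq
  obtain ⟨k1, k2, _⟩ := algR (s := sg a) (q := p (j + 1)) (Q := QQ p (j + 1)) (h := h (j + 1))
    (b := b) h3.ne' rfl rfl
  have hrr : rr p h (j + 1) = 3 * QQ p (j + 1) ^ 2 + h (j + 1) ^ 2 := rfl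
  rw [hk]
  have hQ : 1 + b - p (j + 1) = QQ p (j + 1) := rfl
  rw [hQ, F_eq (t := 1 - 4 * b * QQ p (j + 1) / rr p h (j + 1)) (dx := sg a * QQ p (j + 1)) (dy := -h (j + 1))]
  · rw [N_neg_right, N_sg]
  · rw [sub_pos, div_lt_one h3, hrr, e1]; nlinarith [sq_nonneg (h (j + 1))]
  · simp only [X]
    rw [hk]
    linear_combination -k1
  · simp only [Y]
    rw [hk]
    linear_combination -k2

theorem F_YS (j : Fin (M + 1)) (a c : Bool) :
    F p h (.Y j a : Vx M) (.S a c) = P (sg a * (1 - p (j + 1)) / N (1 - p (j + 1)) (b - sg c * h (j + 1)))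
      (sg c * (b - sg c * h (j + 1)) / N (1 - p (j + 1)) (b - sg c * h (j + 1))) := by
  rw [F_eq (t := 1) (dx := sg a * (1 - p (j + 1))) (dy := sg c * (b - sg c * h (j + 1)))]
  · rw [N_sg, N_sg']
  · norm_num
  · simp only [X]; ring
  · simp only [Y]; linear_combination (h (j + 1)) * (sg_mul c)

theorem F_YY (j k : Fin (M + 1)) (a : Bool) :
    F p h (.Y j a : Vx M) (.Y k (!a)) = P (-(sg a * (p (j + 1) + p (k + 1))) / N (p (j + 1) + p (k + 1)) (h (k + 1) - h (j + 1)))
      ((h (k + 1) - h (j + 1)) / N (p (j + 1) + p (k + 1)) (h (k + 1) - h (j + 1))) := by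
  rw [F_eq (t := 1) (dx := -(sg a * (p (j + 1) + p (k + 1)))) (dy := h (k + 1) - h (j + 1))]
  · rw [N_neg_left, N_sg]
  · norm_num
  · simp only [X]; rw [sg_not]; ring
  · simp only [Y]; ring

theorem F_Yv (hp0 : p 0 = 0) (j : Fin (M + 1)) (hj : j.val = 0) (a : Bool) :
    F p h (.Y j a : Vx M) .v = P (-(sg a * (p 0 + p 1)) / N (p 0 + p 1) (h 0 - h 1))
      ((h 0 - h 1) / N (p 0 + p 1) (h 0 - h 1)) := by
  rw [F_eq (t := 1) (dx := -(sg a * (p 0 + p 1))) (dy := h 0 - h 1)]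
  · rw [N_neg_left, N_sg]
  · norm_num
  · simp only [X]; rw [hj, hp0]; ring
  · simp only [Y]; rw [hj]; ring

theorem bal_Y (S : Sys (M + 1) p h) (g : Good p h (M + 1)) (j : Fin (M + 1)) (a : Bool) :
    star (.Y j a : Vx M) (F p h (.Y j a)) = 0 := by
  have eP := S.eP (j + 1) (by omega) (by omega)
  have eH := S.eH (j + 1) (by omega) (by omega)
  -- the two chain neighbours
  have tL : (if hj : 0 < j.val then F p h (.Y j a : Vx M) (.Y ⟨j - 1, by omega⟩ (!a)) else F p h (.Y j a : Vx M) .v) =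
      P (-(sg a * (p j + p (j + 1))) / N (p j + p (j + 1)) (h j - h (j + 1)))
      ((h j - h (j + 1)) / N (p j + p (j + 1)) (h j - h (j + 1))) := by
    split_ifs with hj
    · rw [F_YY]
      have e : ((⟨j - 1, by omega⟩ : Fin (M + 1)) : ℕ) + 1 = j := by simp only; omega
      rw [e, add_comm (p (j + 1)) (p j)]
    · have hj0 : j.val = 0 := by omega
      rw [F_Yv g.p0 j hj0, hj0]
  rw [star_Y, tL, F_YS, F_YS, F_YT g, F_YT g]
  simp only [sg_true, sg_false, one_mul, neg_mul, sub_neg_eq_add]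
  rw [show (j : ℕ) + 1 - 1 = j by omega] at eP eH
  unfold Gp at eP
  unfold Gh at eH
  by_cases hj : j.val < M
  · rw [dif_pos hj, F_YR g ⟨j, hj⟩ j rfl, F_YY]
    rw [if_pos (by omega)] at eP eH
    simp only
    have e3 : N (p (j + 1) + p (j + 1 + 1)) (h (j + 1 + 1) - h (j + 1)) =
        N (p (j + 1) + p (j + 1 + 1)) (h (j + 1) - h (j + 1 + 1)) := by
      rw [← N_neg_right]; congr 1; ring
    rw [e3]
    simp only [P_add]
    rw [← P_zero]
    congr 1
    · linear_combination (sg a / 3) * eP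
    · linear_combination -eH
  · rw [dif_neg hj]
    rw [if_neg (by omega)] at eP eH
    simp only [P_add, add_zero]
    rw [← P_zero]
    congr 1
    · linear_combination (sg a / 3) * eP
    · linear_combination -eH

end Pool.Agent.Helper544.Net4
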