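import Mathlib
import Pool.Agent.Helper544.Net4g

noncomputable section
open scoped Classical

namespace Pool.Agent.Helper544.Net4

open Pool.Agent.Helper544.Chain4 Pool.Agent.Helper544.Planar

variable {M : ℕ} {p h : ℕ → ℝ}

/-- the immersed net as an edge list -/
def edges (g : Good p h (M + 1)) : EdgeList (Vx M) (Ed M) where
  pos := pos p h
  src := src
  tgt := tgt
  inj := pos_inj g
  ne := src_ne_tgt
  ovl := fun e e' hne u w h1 h2 h3 h4 => ovl g e e' hne u w h1 h2 h3 h4

def drw (g : Good p h (M + 1)) : Drawing (Vx M) := (edges g).toDrawing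

theorem drw_pos (g : Good p h (M + 1)) : (drw g).pos = pos p h := rfl
theorem drw_W (g : Good p h (M + 1)) : (drw g).W = (edges g).W := rfl

theorem imb (g : Good p h (M + 1)) (x : Vx M) :
    ∑ w ∈ (drw g).V, ((drw g).m (pos p h x) w : ℂ) * uv (pos p h x) w = star x (F p h x) := by
  have := (drw g).imb_pos x
  rw [drw_pos] at this
  rw [this, drw_W]
  exact (edges g).sum_W x (fun y => uv (pos p h x) (pos p h y))

theorem W_of (g : Good p h (M + 1)) (e : Ed M) : (drw g).W (src e) (tgt e) ≠ 0 ∧ (drw g).W (tgt e) (src e) ≠ 0 := by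
  rw [drw_W]
  exact ⟨(edges g).W_ne.2 ⟨e, Or.inl ⟨rfl, rfl⟩⟩, (edges g).W_ne.2 ⟨e, Or.inr ⟨rfl, rfl⟩⟩⟩

theorem conn_Y (g : Good p h (M + 1)) : ∀ k : ℕ, ∀ hk : k < M + 1, ∀ a : Bool,
    Relation.ReflTransGen (fun a b => (drw g).W a b ≠ 0) (.Y ⟨k, hk⟩ a : Vx M) .v := by
  intro k
  induction k with
  | zero =>
    intro hk a
    exact Relation.ReflTransGen.single (W_of g (.e8 a)).2
  | succ k ih =>
    intro hk a
    refine Relation.ReflTransGen.head ?_ (ih (by omega) (!a))
    have := (W_of g (.e7 ⟨k, by omega⟩ (!a))).2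
    simpa [src, tgt] using this

theorem conn_v (g : Good p h (M + 1)) (x : Vx M) :
    Relation.ReflTransGen (fun a b => (drw g).W a b ≠ 0) x .v := by
  cases x with
  | S a c =>
    cases c with
    | true => exact Relation.ReflTransGen.single (W_of g (.e9 a)).2
    | false =>
      exact Relation.ReflTransGen.head (W_of g (.e10 a)).2 (Relation.ReflTransGen.single (W_of g .e11).2)
  | v => exact Relation.ReflTransGen.refl
  | G => exact Relation.ReflTransGen.single (W_of g .e11).2
  | Y k a => exact conn_Y g k k.2 a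
  | T k a c => exact Relation.ReflTransGen.head (W_of g (.e2 k a c)).2 (conn_Y g k k.2 a)
  | R k a => exact Relation.ReflTransGen.head (W_of g (.e5 k a)).2 (conn_Y g _ _ a)

theorem conn (g : Good p h (M + 1)) (x y : Vx M) :
    Relation.ReflTransGen (fun a b => (drw g).W a b ≠ 0) x y := by
  have h1 := conn_v g x
  have h2 := conn_v g y
  have rev : ∀ a c : Vx M, Relation.ReflTransGen (fun a b => (drw g).W a b ≠ 0) a c →
      Relation.ReflTransGen (fun a b => (drw g).W a b ≠ 0) c a := by
    intro a c hac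
    induction hac with
    | refl => exact Relation.ReflTransGen.refl
    | tail _ hbc ih => exact Relation.ReflTransGen.head (by rw [(drw g).symm]; exact hbc) ih
  have h3 : Relation.ReflTransGen (fun a b => (drw g).W a b ≠ 0) .v y := rev _ _ h2
  exact h1.trans h3

theorem three_le {ι : Type} [Fintype ι] {P : ι → Prop} [DecidablePred P] {x y z : ι} (hx : P x) (hy : P y) (hz : P z)
    (h1 : x ≠ y) (h2 : x ≠ z) (h3 : y ≠ z) : 3 ≤ (Finset.univ.filter P).card := by
  have : ({x, y, z} : Finset ι) ⊆ Finset.univ.filter P := by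
    intro w hw
    simp only [Finset.mem_insert, Finset.mem_singleton] at hw
    rw [Finset.mem_filter]
    refine ⟨Finset.mem_univ _, ?_⟩
    rcases hw with rfl | rfl | rfl <;> assumption
  have hc := Finset.card_le_card this
  have : ({x, y, z} : Finset ι).card = 3 := Finset.card_eq_three.2 ⟨x, y, z, h1, h2, h3, rfl⟩
  omega

theorem deg (g : Good p h (M + 1)) (x : Vx M) (hx : ∀ a c, x ≠ .S a c) :
    3 ≤ (Finset.univ.filter (fun y => (drw g).W x y ≠ 0)).card := by
  cases x with
  | S a c => exact absurd rfl (hx a c)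
  | v =>
    exact three_le (P := fun y => (drw g).W .v y ≠ 0) (W_of g (.e9 true)).1 (W_of g (.e9 false)).1 (W_of g .e11).1
      (by simp [tgt]) (by simp [tgt]) (by simp [tgt])
  | G =>
    exact three_le (P := fun y => (drw g).W .G y ≠ 0) (W_of g (.e10 true)).1 (W_of g (.e10 false)).1 (W_of g .e11).2
      (by simp [tgt]) (by simp [tgt, src]) (by simp [tgt, src])
  | Y k a =>
    exact three_le (P := fun y => (drw g).W (.Y k a) y ≠ 0) (W_of g (.e1 k a true)).1 (W_of g (.e1 k a false)).1 (W_of g (.e2 k a true)).1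
      (by simp [tgt]) (by simp [tgt]) (by simp [tgt])
  | T k a c =>
    exact three_le (P := fun y => (drw g).W (.T k a c) y ≠ 0) (W_of g (.e3 k a c)).1 (W_of g (.e4 k a c)).1 (W_of g (.e2 k a c)).2
      (by simp [tgt]) (by simp [tgt, src]) (by simp [tgt, src])
  | R k a =>
    exact three_le (P := fun y => (drw g).W (.R k a) y ≠ 0) (W_of g (.e6 k a true)).1 (W_of g (.e6 k a false)).1 (W_of g (.e5 k a)).2
      (by simp [tgt]) (by simp [tgt, src]) (by simp [tgt, src])

/-- an edge of the drawing contains at most one of the four corners -/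
theorem corner_unique (g : Good p h (M + 1)) (e : Ed M) {a c a' c' : Bool}
    (h1 : pos p h (.S a c : Vx M) ∈ segment ℝ (pos p h (src e)) (pos p h (tgt e)))
    (h2 : pos p h (.S a' c' : Vx M) ∈ segment ℝ (pos p h (src e)) (pos p h (tgt e))) :
    a = a' ∧ c = c' := by
  have e1 := b_eq
  by_cases he : e = .e11
  · exfalso
    subst he
    obtain ⟨y, hy⟩ := seg_vert h1
    have := (P_inj hy).1
    simp only [X] at this
    exact sg_ne a this
  · obtain ⟨x1, y1, u1, l1, _⟩ := seg_line g he h1
    obtain ⟨x2, y2, u2, l2, _⟩ := seg_line g he h2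
    obtain ⟨a1, a2⟩ := P_inj u1
    obtain ⟨b1, b2⟩ := P_inj u2
    simp only [X, Y] at a1 a2 b1 b2
    rw [← a1, ← a2] at l1
    rw [← b1, ← b2] at l2
    obtain ⟨m0, _, _, mb, _⟩ := g.mg_bd e he
    unfold sl at l1 l2
    generalize sb e = s at l1 l2
    generalize mg p h e = m at *
    cases a <;> cases c <;> cases a' <;> cases c' <;> cases s <;> simp at l1 l2 ⊢ <;>
      first | linarith | exact mb (by linarith)

end Pool.Agent.Helper544.Net4
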