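import Mathlib

/-!
Unique-maximum subspaces of `C(ℝ)`, part 1: a trichotomy for one-sided limits and the
one-dimensional Baire category argument.
-/

set_option autoImplicit false

open Filter Topology Set

namespace Pool.Agent.Helper544.UM

/-- Trichotomy for limits along a filter with a basis of preconnected sets, for a map that
eventually avoids every compact set not containing `a`. -/
theorem trichotomy {X : Type*} [TopologicalSpace X] {T : X → ℝ} {l : Filter X} {a : ℝ}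
    (hbasis : ∀ s ∈ l, ∃ B ∈ l, B ⊆ s ∧ IsPreconnected B ∧ ContinuousOn T B)
    (hK : ∀ K : Set ℝ, IsCompact K → a ∉ K → ∀ᶠ x in l, T x ∉ K) :
    Tendsto T l (𝓝 a) ∨ Tendsto T l atTop ∨ Tendsto T l atBot := by
  have h0 : ∀ᶠ x in l, T x ∉ ({a - 1, a + 1} : Set ℝ) :=
    hK _ (Set.toFinite _).isCompact (by
      simp only [mem_insert_iff, mem_singleton_iff, not_or]
      constructor
      · intro h; linarith
      · intro h; linarith)
  obtain ⟨B, hB, hBs, hBc, hBT⟩ := hbasis _ h0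
  have hord : (T '' B).OrdConnected := (hBc.image T hBT).ordConnected
  by_cases hlow : ∃ x ∈ B, T x < a - 1
  · right; right
    have hall : ∀ x ∈ B, T x < a - 1 := by
      intro x hx
      by_contra hcon
      push Not at hcon
      obtain ⟨x0, hx0, hx0'⟩ := hlow
      have : a - 1 ∈ T '' B := hord.out ⟨x0, hx0, rfl⟩ ⟨x, hx, rfl⟩ ⟨hx0'.le, hcon⟩
      obtain ⟨x1, hx1, hx1'⟩ := this
      exact hBs hx1 (by simp [hx1'])
    rw [tendsto_atBot]
    intro M
    have hc := hK (Icc M (a - 1)) isCompact_Icc (by simp)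
    filter_upwards [hB, hc] with x hx hx'
    by_contra hcon
    push Not at hcon
    exact hx' ⟨hcon.le, (hall x hx).le⟩
  · by_cases hhigh : ∃ x ∈ B, a + 1 < T x
    · right; left
      have hall : ∀ x ∈ B, a + 1 < T x := by
        intro x hx
        by_contra hcon
        push Not at hcon
        obtain ⟨x0, hx0, hx0'⟩ := hhigh
        have : a + 1 ∈ T '' B := hord.out ⟨x, hx, rfl⟩ ⟨x0, hx0, rfl⟩ ⟨hcon, hx0'.le⟩
        obtain ⟨x1, hx1, hx1'⟩ := this
        exact hBs hx1 (by simp [hx1'])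
      rw [tendsto_atTop]
      intro M
      have hc := hK (Icc (a + 1) M) isCompact_Icc (by simp)
      filter_upwards [hB, hc] with x hx hx'
      by_contra hcon
      push Not at hcon
      exact hx' ⟨(hall x hx).le, hcon.le⟩
    · left
      push Not at hlow hhigh
      rw [Metric.tendsto_nhds]
      intro ε hε
      have hc : ∀ᶠ x in l, T x ∉ ({s : ℝ | ε ≤ |s - a|} ∩ Icc (a - 1) (a + 1)) := by
        refine hK _ ?_ ?_
        · refine IsCompact.inter_left isCompact_Icc ?_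
          exact isClosed_le continuous_const (by fun_prop)
        · rintro ⟨h1, -⟩
          simp at h1
          linarith
      filter_upwards [hB, hc] with x hx hx'
      rw [Real.dist_eq]
      by_contra hcon
      push Not at hcon
      exact hx' ⟨hcon, hlow x hx, hhigh x hx⟩

/-- A locally bounded semicontinuous map is continuous. -/
theorem continuousAt_of_bdd {X : Type*} [TopologicalSpace X] {T : X → ℝ} {x : X}
    (hK : ∀ K : Set ℝ, IsCompact K → T x ∉ K → ∀ᶠ y in 𝓝 x, T y ∉ K)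
    {B : ℝ} (hB : ∀ᶠ y in 𝓝 x, |T y| ≤ B) : ContinuousAt T x := by
  rw [ContinuousAt, Metric.tendsto_nhds]
  intro ε hε
  have hc : ∀ᶠ y in 𝓝 x, T y ∉ ({s : ℝ | ε ≤ |s - T x|} ∩ Icc (-B) B) := by
    refine hK _ ?_ ?_
    · refine IsCompact.inter_left isCompact_Icc ?_
      exact isClosed_le continuous_const (by fun_prop)
    · rintro ⟨h1, -⟩
      simp at h1
      linarith
  filter_upwards [hB, hc] with y hy hy'
  rw [Real.dist_eq]
  by_contra hcon
  push Not at hcon
  exact hy' ⟨hcon, abs_le.1 hy⟩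

/-- Intermediate values near a point where the function tends to `+∞` from the right. -/
theorem ivt_top {T : ℝ → ℝ} {p q : ℝ} (hc : ContinuousOn T (Ioo p q))
    (ht : Tendsto T (𝓝[>] p) atTop) {r : ℝ} (hr : r ∈ Ioo p q) {b : ℝ} (hb : T r ≤ b) :
    ∃ s ∈ Ioc p r, T s = b := by
  have h1 : ∀ᶠ s in 𝓝[>] p, b ≤ T s := ht.eventually_ge_atTop b
  have h2 : ∀ᶠ s in 𝓝[>] p, s ∈ Ioo p r := Ioo_mem_nhdsGT hr.1
  obtain ⟨s, hs1, hs2⟩ := (h1.and h2).exists
  have hcc : ContinuousOn T (Icc s r) :=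
    hc.mono (fun x hx => ⟨lt_of_lt_of_le hs2.1 hx.1, lt_of_le_of_lt hx.2 hr.2⟩)
  have := intermediate_value_Icc' hs2.2.le hcc ⟨hb, hs1⟩
  obtain ⟨x, hx, hx'⟩ := this
  exact ⟨x, ⟨lt_of_lt_of_le hs2.1 hx.1, hx.2⟩, hx'⟩

/-- A right jump of `T` at `p`. -/
def RJump (T : ℝ → ℝ) (p : ℝ) : Prop :=
  (∃ q, p < q ∧ ContinuousOn T (Ioo p q)) ∧
    (Tendsto T (𝓝[>] p) atTop ∨ Tendsto T (𝓝[>] p) atBot)

/-- The set of points near which `T` is unbounded. -/
def Bad (T : ℝ → ℝ) : Set ℝ := {x | ¬ ∃ B, ∀ᶠ y in 𝓝 x, |T y| ≤ B}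

theorem isClosed_Bad (T : ℝ → ℝ) : IsClosed (Bad T) := by
  rw [← isOpen_compl_iff, isOpen_iff_mem_nhds]
  intro x hx
  simp only [Bad, mem_compl_iff, mem_ofPred_eq, not_not] at hx
  obtain ⟨B, hB⟩ := hx
  filter_upwards [hB.eventually_nhds] with y hy
  simp only [Bad, mem_compl_iff, mem_ofPred_eq, not_not]
  exact ⟨B, hy⟩

theorem contAt_of_not_Bad {T : ℝ → ℝ}
    (hsemi : ∀ x, ∀ K : Set ℝ, IsCompact K → T x ∉ K → ∀ᶠ y in 𝓝 x, T y ∉ K)
    {x : ℝ} (hx : x ∉ Bad T) : ContinuousAt T x := by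
  simp only [Bad, mem_ofPred_eq, not_not] at hx
  obtain ⟨B, hB⟩ := hx
  exact continuousAt_of_bdd (hsemi x) hB

theorem right_bdd {T : ℝ → ℝ}
    (hsemi : ∀ x, ∀ K : Set ℝ, IsCompact K → T x ∉ K → ∀ᶠ y in 𝓝 x, T y ∉ K)
    (hno : ¬ ∃ p, RJump T p) {x c δ : ℝ} (hx : x ∈ Bad T) (hδ : 0 < δ)
    (hc : ∀ y ∈ Bad T, |y - x| < δ → |T y| ≤ c) :
    ∀ᶠ u in 𝓝[>] x, |T u| ≤ c + 1 := by
  have hxc : |T x| ≤ c := hc x hx (by simpa using hδ)
  have h1 : ∀ᶠ u in 𝓝 x, T u ∉ ({c + 1, -(c + 1)} : Set ℝ) := by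
    refine hsemi x _ (Set.toFinite _).isCompact ?_
    have h2 := abs_le.1 hxc
    simp only [mem_insert_iff, mem_singleton_iff, not_or]
    constructor
    · intro h; linarith [h2.1, h2.2]
    · intro h; linarith [h2.1, h2.2]
  obtain ⟨δ', hδ', h1'⟩ := Metric.eventually_nhds_iff.1 h1
  have h3 : ∀ᶠ u in 𝓝[>] x, u ∈ Ioo x (x + min δ δ') :=
    Ioo_mem_nhdsGT (by linarith [lt_min hδ hδ'])
  filter_upwards [h3] with u hu
  by_contra hcon
  push Not at hcon
  have huδ : u < x + δ := lt_of_lt_of_le hu.2 (by linarith [min_le_left δ δ'])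
  have huδ' : u < x + δ' := lt_of_lt_of_le hu.2 (by linarith [min_le_right δ δ'])
  -- the last bad point
  set S : Set ℝ := Bad T ∩ Icc x u with hS
  have hScomp : IsCompact S := (isCompact_Icc).inter_left (isClosed_Bad T)
  have hSne : S.Nonempty := ⟨x, hx, le_rfl, hu.1.le⟩
  set p := sSup S with hp
  have hpS : p ∈ S := hScomp.sSup_mem hSne
  have hpδ : |p - x| < δ := by
    rw [abs_of_nonneg (by linarith [hpS.2.1])]
    linarith [hpS.2.2]
  have hpc : |T p| ≤ c := hc p hpS.1 hpδ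
  have hub : u ∉ Bad T := by
    intro hu'
    have := hc u hu' (by rw [abs_of_pos (by linarith [hu.1])]; linarith)
    linarith
  have hpu : p < u := lt_of_le_of_ne hpS.2.2 (fun h => hub (h ▸ hpS.1))
  have hnb : ∀ y ∈ Ioc p u, y ∉ Bad T := by
    intro y hy hyb
    have : y ≤ p := le_csSup hScomp.bddAbove ⟨hyb, le_trans hpS.2.1 hy.1.le, hy.2⟩
    exact absurd hy.1 (not_lt.2 this)
  have hcont : ∀ y ∈ Ioc p u, ContinuousAt T y := fun y hy => contAt_of_not_Bad hsemi (hnb y hy)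
  have hcontOn : ContinuousOn T (Ioo p u) :=
    fun y hy => (hcont y ⟨hy.1, hy.2.le⟩).continuousWithinAt
  have htri := trichotomy (T := T) (l := 𝓝[>] p) (a := T p) (by
      intro s hs
      obtain ⟨q, hq, hqs⟩ := (mem_nhdsGT_iff_exists_Ioo_subset).1 hs
      refine ⟨Ioo p (min q u), Ioo_mem_nhdsGT (lt_min hq hpu), ?_, isPreconnected_Ioo, ?_⟩
      · exact fun y hy => hqs ⟨hy.1, lt_of_lt_of_le hy.2 (min_le_left _ _)⟩
      · exact hcontOn.mono (fun y hy => ⟨hy.1, lt_of_lt_of_le hy.2 (min_le_right _ _)⟩))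
    (by
      intro K hK hTp
      exact (hsemi p K hK hTp).filter_mono nhdsWithin_le_nhds)
  have hlim : Tendsto T (𝓝[>] p) (𝓝 (T p)) := by
    rcases htri with h | h | h
    · exact h
    · exact absurd ⟨p, ⟨u, hpu, hcontOn⟩, Or.inl h⟩ hno
    · exact absurd ⟨p, ⟨u, hpu, hcontOn⟩, Or.inr h⟩ hno
  have hcontIcc : ContinuousOn (fun y => |T y|) (Icc p u) := by
    have : ContinuousOn T (Icc p u) := by
      intro y hy
      rcases eq_or_lt_of_le hy.1 with h | h
      · subst h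
        have h5 : ContinuousWithinAt T (Ioi p) p := hlim
        exact (continuousWithinAt_Ioi_iff_Ici.1 h5).mono Icc_subset_Ici_self
      · exact (hcont y ⟨h, hy.2⟩).continuousWithinAt
    exact this.abs
  obtain ⟨y, hy, hy'⟩ := intermediate_value_Icc hpu.le hcontIcc
    (show c + 1 ∈ Icc (|T p|) (|T u|) from ⟨by linarith, hcon.le⟩)
  have hyx : dist y x < δ' := by
    rw [Real.dist_eq, abs_of_nonneg (by linarith [hpS.2.1, hy.1])]
    linarith [hy.2]
  have hbad := h1' hyx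
  apply hbad
  simp only at hy'
  rcases abs_choice (T y) with h | h
  · left; rw [← hy', h]
  · right
    rw [mem_singleton_iff, ← hy', h]; ring

theorem exists_jump {T : ℝ → ℝ}
    (hsemi : ∀ x, ∀ K : Set ℝ, IsCompact K → T x ∉ K → ∀ᶠ y in 𝓝 x, T y ∉ K)
    (hper : ∀ x, T (x + 2 * Real.pi) = T x) (hanti : ∀ x, T (x + Real.pi) ≠ T x) :
    (∃ p, RJump T p) ∨ (∃ p, RJump (fun x => T (-x)) p) := by
  by_contra hcon
  push Not at hcon
  obtain ⟨hnoR, hnoL⟩ := hcon
  have hne : (Bad T).Nonempty := by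
    by_contra hemp
    rw [Set.not_nonempty_iff_eq_empty] at hemp
    have hcont : Continuous T := by
      rw [continuous_iff_continuousAt]
      intro x
      exact contAt_of_not_Bad hsemi (by rw [hemp]; exact Set.notMem_empty x)
    set g : ℝ → ℝ := fun x => T x - T (x + Real.pi) with hg
    have hgc : Continuous g := by fun_prop
    have hgpi : g Real.pi = - g 0 := by
      simp only [hg]
      have := hper 0
      rw [show Real.pi + Real.pi = 0 + 2 * Real.pi by ring, this, zero_add]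
      ring
    have hz : ∃ x, g x = 0 := by
      rcases le_total (g 0) 0 with h | h
      · have := intermediate_value_Icc Real.pi_pos.le hgc.continuousOn
          (show (0 : ℝ) ∈ Icc (g 0) (g Real.pi) from ⟨h, by rw [hgpi]; linarith⟩)
        obtain ⟨x, -, hx⟩ := this
        exact ⟨x, hx⟩
      · have := intermediate_value_Icc' Real.pi_pos.le hgc.continuousOn
          (show (0 : ℝ) ∈ Icc (g Real.pi) (g 0) from ⟨by rw [hgpi]; linarith, h⟩)
        obtain ⟨x, -, hx⟩ := this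
        exact ⟨x, hx⟩
    obtain ⟨x, hx⟩ := hz
    exact hanti x (by simp only [hg] at hx; linarith)
  -- Baire
  have : CompleteSpace (Bad T) := (isClosed_Bad T).completeSpace_coe
  have : Nonempty (Bad T) := hne.to_subtype
  have hcl : ∀ n : ℕ, IsClosed {y : Bad T | T y ∈ Icc (-(n : ℝ)) n} := by
    intro n
    rw [← isOpen_compl_iff, isOpen_iff_mem_nhds]
    intro y hy
    have h1 := hsemi y _ isCompact_Icc hy
    exact continuous_subtype_val.continuousAt.eventually h1
  have hun : (⋃ n : ℕ, {y : Bad T | T y ∈ Icc (-(n : ℝ)) n}) = univ := by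
    ext y
    simp only [mem_iUnion, mem_univ, iff_true]
    obtain ⟨n, hn⟩ := exists_nat_ge (|T y|)
    exact ⟨n, abs_le.1 hn⟩
  obtain ⟨n, ⟨x, hx⟩⟩ := nonempty_interior_of_iUnion_of_closed hcl hun
  rw [mem_interior_iff_mem_nhds, mem_nhds_subtype] at hx
  obtain ⟨U, hU, hUs⟩ := hx
  obtain ⟨δ, hδ, hδU⟩ := Metric.mem_nhds_iff.1 hU
  have hbd : ∀ y ∈ Bad T, |y - (x : ℝ)| < δ → |T y| ≤ n := by
    intro y hy hyx
    have : (⟨y, hy⟩ : Bad T) ∈ {y : Bad T | T y ∈ Icc (-(n : ℝ)) n} :=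
      hUs (hδU (by simpa [Real.dist_eq] using hyx))
    exact abs_le.2 this
  have hR := right_bdd hsemi (by push Not; exact hnoR) x.2 hδ hbd
  -- left side, by reflection
  have hsemi' : ∀ x, ∀ K : Set ℝ, IsCompact K → (fun x => T (-x)) x ∉ K →
      ∀ᶠ y in 𝓝 x, (fun x => T (-x)) y ∉ K := by
    intro x K hK hx
    have := hsemi (-x) K hK hx
    exact (continuous_neg.continuousAt.eventually this)
  have hBadneg : ∀ y, y ∈ Bad (fun x => T (-x)) → -y ∈ Bad T := by
    intro y hy hcon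
    apply hy
    obtain ⟨B, hB⟩ := hcon
    exact ⟨B, continuous_neg.continuousAt.eventually hB⟩
  have hBadneg' : ∀ y, y ∈ Bad T → -y ∈ Bad (fun x => T (-x)) := by
    intro y hy hcon
    apply hy
    obtain ⟨B, hB⟩ := hcon
    refine ⟨B, ?_⟩
    have h2 := (continuous_neg.continuousAt (x := y)).eventually hB
    simpa using h2
  have hL := right_bdd (T := fun x => T (-x)) (x := -(x : ℝ)) (c := n) (δ := δ) hsemi'
    (by push Not; exact hnoL) (hBadneg' x x.2) hδ (by
      intro y hy hyx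
      refine hbd (-y) (hBadneg y hy) ?_
      rw [← abs_neg]
      simpa [sub_eq_add_neg, add_comm] using hyx)
  apply x.2
  refine ⟨n + 1, ?_⟩
  have hL' : ∀ᶠ u in 𝓝[<] (x : ℝ), |T u| ≤ n + 1 := by
    have h3 : Tendsto (fun u : ℝ => -u) (𝓝[<] (x : ℝ)) (𝓝[>] (-(x : ℝ))) :=
      tendsto_neg_nhdsLT
    have := h3.eventually hL
    simpa using this
  have hself : |T x| ≤ n + 1 := by
    have := hbd x x.2 (by simpa using hδ)
    linarith
  rw [← nhdsNE_sup_pure, eventually_sup, ← nhdsLT_sup_nhdsGT, eventually_sup]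
  exact ⟨⟨hL', hR⟩, by simpa using hself⟩

end Pool.Agent.Helper544.UM
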