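import Pool.Agent.Helper544.UM1

/-!
Unique-maximum subspaces of `C(ℝ)`, part 2: the abstract system `t : ℝ³ → ℝ` and the limit cones.
-/

set_option autoImplicit false

open Filter Topology Set

namespace Pool.Agent.Helper544.UM

abbrev E := Fin 3 → ℝ

/-- The properties of the map `direction ↦ maximum point`. -/
structure Sys (t : E → ℝ) : Prop where
  smul : ∀ c : ℝ, 0 < c → ∀ u : E, u ≠ 0 → t (c • u) = t u
  add : ∀ u v : E, u ≠ 0 → v ≠ 0 → t u = t v → t (u + v) = t u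
  semi : ∀ u : E, u ≠ 0 → ∀ K : Set ℝ, IsCompact K → t u ∉ K → ∀ᶠ v in 𝓝 u, t v ∉ K
  sep : ∀ u : E, u ≠ 0 → ∃ N ∈ 𝓝 u, ∃ N' ∈ 𝓝 (-u), ∀ v ∈ N, ∀ v' ∈ N', t v ≠ t v'

theorem Sys.neg {t : E → ℝ} (h : Sys t) : Sys (fun u => - t u) where
  smul c hc u hu := by simp only [h.smul c hc u hu]
  add u v hu hv huv := by
    have := h.add u v hu hv (by simpa using huv)
    simp only [this]
  semi u hu K hK hn := by
    have h1 : IsCompact (Neg.neg '' K) := hK.image continuous_neg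
    have h2 : t u ∉ Neg.neg '' K := by
      rintro ⟨x, hx, hx'⟩
      apply hn
      rw [← hx']; simpa using hx
    filter_upwards [h.semi u hu _ h1 h2] with v hv hcon
    exact hv ⟨_, hcon, by simp⟩
  sep u hu := by
    obtain ⟨N, hN, N', hN', hh⟩ := h.sep u hu
    exact ⟨N, hN, N', hN', fun v hv v' hv' hcon => hh v hv v' hv' (by simpa using hcon)⟩

theorem Sys.anti {t : E → ℝ} (h : Sys t) {u : E} (hu : u ≠ 0) : t (-u) ≠ t u := by
  obtain ⟨N, hN, N', hN', hh⟩ := h.sep u hu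
  exact (hh u (mem_of_mem_nhds hN) (-u) (mem_of_mem_nhds hN')).symm

theorem Sys.comb2 {t : E → ℝ} (h : Sys t) {u v : E} (hu : u ≠ 0) (hv : v ≠ 0) {b : ℝ}
    (htu : t u = b) (htv : t v = b) {α β : ℝ} (hα : 0 < α) (hβ : 0 < β) :
    α • u + β • v ≠ 0 ∧ t (α • u + β • v) = b := by
  have h1 : t (α • u) = b := by rw [h.smul α hα u hu, htu]
  have h2 : t (β • v) = b := by rw [h.smul β hβ v hv, htv]
  have hu' : α • u ≠ 0 := smul_ne_zero hα.ne' hu
  have hv' : β • v ≠ 0 := smul_ne_zero hβ.ne' hv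
  refine ⟨?_, ?_⟩
  · intro hcon
    have h3 : β • v = -(α • u) := by
      rw [eq_neg_iff_add_eq_zero, add_comm]; exact hcon
    apply h.anti hu'
    rw [← h3, h2, h1]
  · rw [h.add _ _ hu' hv' (by rw [h1, h2]), h1]

theorem Sys.comb3 {t : E → ℝ} (h : Sys t) {u v w : E} (hu : u ≠ 0) (hv : v ≠ 0) (hw : w ≠ 0)
    {b : ℝ} (htu : t u = b) (htv : t v = b) (htw : t w = b) {α β γ : ℝ} (hα : 0 < α)
    (hβ : 0 < β) (hγ : 0 < γ) : t (α • u + β • v + γ • w) = b := by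
  obtain ⟨h1, h2⟩ := h.comb2 hu hv htu htv hα hβ
  have := (h.comb2 h1 hw h2 htw one_pos hγ).2
  simpa using this

/-- The set of (nonzero) limits of the cells as the parameter tends to `+∞`. -/
def L (t : E → ℝ) : Set E :=
  {w | w ≠ 0 ∧ ∀ N ∈ 𝓝 w, ∀ᶠ b in (atTop : Filter ℝ), ∃ u ∈ N, t u = b}

theorem L_elt {t : E → ℝ} {w : E} (hw : w ∈ L t) {N : Set E} (hN : N ∈ 𝓝 w) :
    ∀ᶠ b in (atTop : Filter ℝ), ∃ u ∈ N, u ≠ 0 ∧ t u = b := by
  have h1 : N ∩ {0}ᶜ ∈ 𝓝 w := inter_mem hN (isOpen_compl_singleton.mem_nhds hw.1)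
  filter_upwards [hw.2 _ h1] with b hb
  obtain ⟨u, hu, hu'⟩ := hb
  exact ⟨u, hu.1, hu.2, hu'⟩

theorem L_smul {t : E → ℝ} (h : Sys t) {w : E} (hw : w ∈ L t) {c : ℝ} (hc : 0 < c) :
    c • w ∈ L t := by
  refine ⟨smul_ne_zero hc.ne' hw.1, ?_⟩
  intro N hN
  have h1 : (fun u : E => c • u) ⁻¹' N ∈ 𝓝 w :=
    (continuous_const_smul c).continuousAt.preimage_mem_nhds hN
  filter_upwards [L_elt hw h1] with b hb
  obtain ⟨u, hu, hu0, hu'⟩ := hb
  exact ⟨c • u, hu, by rw [h.smul c hc u hu0, hu']⟩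

theorem L_closed {t : E → ℝ} {w : E} (hw0 : w ≠ 0) (hw : w ∈ closure (L t)) : w ∈ L t := by
  refine ⟨hw0, ?_⟩
  intro N hN
  rw [mem_closure_iff_nhds] at hw
  obtain ⟨w', hw', hwL⟩ := hw (interior N) (interior_mem_nhds.2 hN)
  filter_upwards [hwL.2 N (mem_interior_iff_mem_nhds.1 hw')] with b hb
  exact hb

theorem L_neg {t : E → ℝ} (h : Sys t) {w : E} (hw : w ∈ L t) : -w ∉ L t := by
  intro hw'
  obtain ⟨N, hN, N', hN', hh⟩ := h.sep w hw.1
  obtain ⟨b, ⟨u, hu, hu'⟩, ⟨v, hv, hv'⟩⟩ := ((hw.2 N hN).and (hw'.2 N' hN')).exists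
  exact hh u hu v hv (by rw [hu', hv'])

def det3 (u v w : E) : ℝ :=
  u 0 * (v 1 * w 2 - v 2 * w 1) - u 1 * (v 0 * w 2 - v 2 * w 0) + u 2 * (v 0 * w 1 - v 1 * w 0)

def cr (u v : E) : E :=
  ![u 1 * v 2 - u 2 * v 1, u 2 * v 0 - u 0 * v 2, u 0 * v 1 - u 1 * v 0]

def dt (u v : E) : ℝ := u 0 * v 0 + u 1 * v 1 + u 2 * v 2

theorem cramer (s u v w : E) :
    det3 u v w • s = det3 s v w • u + det3 u s w • v + det3 u v s • w := by
  ext i
  fin_cases i <;> simp [det3] <;> ring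

theorem continuous_det3 : Continuous (fun p : E × E × E => det3 p.1 p.2.1 p.2.2) := by
  unfold det3; fun_prop

theorem perturb {x y z : E} (h : det3 x y z ≠ 0) :
    ∃ N₁ ∈ 𝓝 x, ∃ N₂ ∈ 𝓝 y, ∃ N₃ ∈ 𝓝 z, ∀ u ∈ N₁, ∀ v ∈ N₂, ∀ w ∈ N₃,
      ∃ a b c : ℝ, 0 < a ∧ 0 < b ∧ 0 < c ∧ x + y + z = a • u + b • v + c • w := by
  set s := x + y + z with hs
  have hD : ContinuousAt (fun p : E × E × E => det3 p.1 p.2.1 p.2.2) (x, y, z) :=
    continuous_det3.continuousAt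
  have c1 : Continuous (fun p : E × E × E => det3 s p.2.1 p.2.2) := by
    unfold det3; fun_prop
  have c2 : Continuous (fun p : E × E × E => det3 p.1 s p.2.2) := by
    unfold det3; fun_prop
  have c3 : Continuous (fun p : E × E × E => det3 p.1 p.2.1 s) := by
    unfold det3; fun_prop
  have e1 : det3 s y z = det3 x y z := by simp [det3, hs]; ring
  have e2 : det3 x s z = det3 x y z := by simp [det3, hs]; ring
  have e3 : det3 x y s = det3 x y z := by simp [det3, hs]; ring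
  have q1 : ContinuousAt (fun p : E × E × E => det3 s p.2.1 p.2.2 / det3 p.1 p.2.1 p.2.2)
      (x, y, z) := c1.continuousAt.div hD h
  have q2 : ContinuousAt (fun p : E × E × E => det3 p.1 s p.2.2 / det3 p.1 p.2.1 p.2.2)
      (x, y, z) := c2.continuousAt.div hD h
  have q3 : ContinuousAt (fun p : E × E × E => det3 p.1 p.2.1 s / det3 p.1 p.2.1 p.2.2)
      (x, y, z) := c3.continuousAt.div hD h
  have r1 : ∀ᶠ p : E × E × E in 𝓝 (x, y, z), 0 < det3 s p.2.1 p.2.2 / det3 p.1 p.2.1 p.2.2 := by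
    apply q1.eventually_const_lt
    simp only [e1, div_self h]; norm_num
  have r2 : ∀ᶠ p : E × E × E in 𝓝 (x, y, z), 0 < det3 p.1 s p.2.2 / det3 p.1 p.2.1 p.2.2 := by
    apply q2.eventually_const_lt
    simp only [e2, div_self h]; norm_num
  have r3 : ∀ᶠ p : E × E × E in 𝓝 (x, y, z), 0 < det3 p.1 p.2.1 s / det3 p.1 p.2.1 p.2.2 := by
    apply q3.eventually_const_lt
    simp only [e3, div_self h]; norm_num
  have r4 : ∀ᶠ p : E × E × E in 𝓝 (x, y, z), det3 p.1 p.2.1 p.2.2 ≠ 0 :=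
    hD.eventually_ne h
  have r := (r1.and r2).and (r3.and r4)
  rw [nhds_prod_eq, nhds_prod_eq, Filter.eventually_prod_iff] at r
  obtain ⟨pa, hpa, pb, hpb, hab⟩ := r
  rw [Filter.eventually_prod_iff] at hpb
  obtain ⟨pc, hpc, pd, hpd, hcd⟩ := hpb
  refine ⟨{u | pa u}, hpa, {v | pc v}, hpc, {w | pd w}, hpd, ?_⟩
  intro u hu v hv w hw
  obtain ⟨⟨h1, h2⟩, h3, h4⟩ := hab hu (hcd hv hw)
  simp only at h1 h2 h3 h4
  refine ⟨_, _, _, h1, h2, h3, ?_⟩
  have := cramer s u v w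
  have h5 : s = (det3 u v w)⁻¹ • (det3 u v w • s) := by
    rw [smul_smul, inv_mul_cancel₀ h4, one_smul]
  refine h5.trans ?_
  rw [this]
  simp only [smul_add, smul_smul, div_eq_inv_mul]

theorem L_det {t : E → ℝ} (h : Sys t) {x y z : E} (hx : x ∈ L t) (hy : y ∈ L t) (hz : z ∈ L t) :
    det3 x y z = 0 := by
  by_contra hne
  obtain ⟨N₁, h1, N₂, h2, N₃, h3, hh⟩ := perturb hne
  have key : ∀ᶠ b in (atTop : Filter ℝ), t (x + y + z) = b := by
    filter_upwards [L_elt hx h1, L_elt hy h2, L_elt hz h3] with b hb1 hb2 hb3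
    obtain ⟨u, hu, hu0, hu'⟩ := hb1
    obtain ⟨v, hv, hv0, hv'⟩ := hb2
    obtain ⟨w, hw, hw0, hw'⟩ := hb3
    obtain ⟨a, b', c, ha, hb, hc, heq⟩ := hh u hu v hv w hw
    rw [heq]
    exact h.comb3 hu0 hv0 hw0 hu' hv' hw' ha hb hc
  obtain ⟨b, hb1, hb2⟩ := (key.and (eventually_gt_atTop (t (x + y + z)))).exists
  linarith

/-- `t` is bounded above near a point completing two elements of `L t` to a basis. -/
theorem bdd_above_of_det {t : E → ℝ} (h : Sys t) {x y z : E} (hy : y ∈ L t) (hz : z ∈ L t)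
    (hne : det3 x y z ≠ 0) (hx0 : x ≠ 0) : ∃ B, ∀ᶠ u in 𝓝 x, t u ≤ B := by
  obtain ⟨N₁, h1, N₂, h2, N₃, h3, hh⟩ := perturb hne
  obtain ⟨b0, hb0⟩ := eventually_atTop.1 ((L_elt hy h2).and (L_elt hz h3))
  refine ⟨max b0 (t (x + y + z)), ?_⟩
  filter_upwards [h1, isOpen_compl_singleton.mem_nhds hx0] with u hu hu0
  by_contra hcon
  push Not at hcon
  obtain ⟨⟨v, hv, hv0, hv'⟩, ⟨w, hw, hw0, hw'⟩⟩ := hb0 (t u) (le_trans (le_max_left _ _) hcon.le)
  obtain ⟨a, b', c, ha, hb, hc, heq⟩ := hh u hu v hv w hw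
  have := h.comb3 hu0 hv0 hw0 (b := t u) rfl hv' hw' ha hb hc
  rw [← heq] at this
  have h5 := lt_of_le_of_lt (le_max_right b0 (t (x + y + z))) hcon
  linarith

/-- `t` is bounded above near the negative of an element of `L t`. -/
theorem bdd_above_neg {t : E → ℝ} (h : Sys t) {y : E} (hy : y ∈ L t) :
    ∃ B, ∀ᶠ u in 𝓝 (-y), t u ≤ B := by
  obtain ⟨N, hN, N', hN', hh⟩ := h.sep y hy.1
  obtain ⟨b0, hb0⟩ := eventually_atTop.1 (hy.2 N hN)
  refine ⟨b0, ?_⟩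
  filter_upwards [hN'] with u hu
  by_contra hcon
  push Not at hcon
  obtain ⟨v, hv, hv'⟩ := hb0 (t u) hcon.le
  exact hh v hv u hu hv'

theorem contAt_of_bounds {t : E → ℝ} (h : Sys t) {x : E} (hx : x ≠ 0)
    (h1 : ∃ B, ∀ᶠ u in 𝓝 x, t u ≤ B) (h2 : ∃ B, ∀ᶠ u in 𝓝 x, - t u ≤ B) : ContinuousAt t x := by
  obtain ⟨B1, hB1⟩ := h1
  obtain ⟨B2, hB2⟩ := h2
  apply continuousAt_of_bdd (B := max B1 B2) (h.semi x hx)
  filter_upwards [hB1, hB2] with u hu1 hu2
  rw [abs_le]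
  constructor
  · linarith [le_max_right B1 B2]
  · linarith [le_max_left B1 B2]

/-- The circle through `f` and `g`. -/
noncomputable def circ (f g : E) (θ : ℝ) : E := Real.cos θ • f + Real.sin θ • g

theorem continuous_circ (f g : E) : Continuous (circ f g) := by
  unfold circ; fun_prop

theorem circ_ne {f g : E} (hfg : ∀ α β : ℝ, α • f + β • g = 0 → α = 0 ∧ β = 0) (θ : ℝ) :
    circ f g θ ≠ 0 := by
  intro hcon
  obtain ⟨h1, h2⟩ := hfg _ _ hcon
  have := Real.sin_sq_add_cos_sq θ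
  rw [h1, h2] at this
  norm_num at this

theorem exists_RJump {t : E → ℝ} (h : Sys t) {f g : E}
    (hfg : ∀ α β : ℝ, α • f + β • g = 0 → α = 0 ∧ β = 0) :
    ∃ g', (g' = g ∨ g' = -g) ∧ ∃ p, RJump (fun θ => t (circ f g' θ)) p := by
  have h0 := circ_ne hfg
  have key := exists_jump (T := fun θ => t (circ f g θ))
    (by
      intro θ K hK hn
      exact (continuous_circ f g).continuousAt.eventually (h.semi _ (h0 θ) K hK hn))
    (by
      intro θ
      simp only [circ, Real.cos_add_two_pi, Real.sin_add_two_pi])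
    (by
      intro θ
      have h1 : circ f g (θ + Real.pi) = - circ f g θ := by
        simp only [circ, Real.cos_add_pi, Real.sin_add_pi]
        module
      simp only [h1]
      exact h.anti (h0 θ))
  rcases key with ⟨p, hp⟩ | ⟨p, hp⟩
  · exact ⟨g, Or.inl rfl, p, hp⟩
  · refine ⟨-g, Or.inr rfl, p, ?_⟩
    have h1 : (fun θ => t (circ f (-g) θ)) = fun θ => t (circ f g (-θ)) := by
      funext θ
      simp only [circ, Real.cos_neg, Real.sin_neg]
      congr 1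
      module
    rw [h1]; exact hp

theorem RJump_top_mem {t : E → ℝ} {f g : E} {p : ℝ} (h0 : circ f g p ≠ 0)
    (hc : ∃ q, p < q ∧ ContinuousOn (fun θ => t (circ f g θ)) (Ioo p q))
    (ht : Tendsto (fun θ => t (circ f g θ)) (𝓝[>] p) atTop) : circ f g p ∈ L t := by
  refine ⟨h0, ?_⟩
  intro N hN
  obtain ⟨q, hpq, hcq⟩ := hc
  have h1 : ∀ᶠ θ in 𝓝[>] p, circ f g θ ∈ N :=
    ((continuous_circ f g).continuousAt.eventually hN).filter_mono nhdsWithin_le_nhds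
  obtain ⟨r, hr, hrN⟩ := (mem_nhdsGT_iff_exists_Ioo_subset).1 h1
  -- choose a point in (p, min q r)
  set m := (p + min q r) / 2 with hm
  have hmin : p < min q r := lt_min hpq hr
  have hpm : p < m := by rw [hm]; linarith
  have hmm : m < min q r := by rw [hm]; linarith
  filter_upwards [eventually_ge_atTop (t (circ f g m))] with b hb
  obtain ⟨s, hs, hs'⟩ := ivt_top hcq ht ⟨hpm, lt_of_lt_of_le hmm (min_le_left _ _)⟩ hb
  exact ⟨circ f g s, hrN ⟨hs.1, lt_of_le_of_lt hs.2 (lt_of_lt_of_le hmm (min_le_right _ _))⟩, hs'⟩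

theorem RJump_mem {t : E → ℝ} {f g : E} {p : ℝ} (h0 : circ f g p ≠ 0)
    (hj : RJump (fun θ => t (circ f g θ)) p) :
    circ f g p ∈ L t ∨ circ f g p ∈ L (fun u => - t u) := by
  obtain ⟨⟨q, hpq, hcq⟩, h1 | h1⟩ := hj
  · left
    exact RJump_top_mem h0 ⟨q, hpq, hcq⟩ h1
  · right
    refine RJump_top_mem (t := fun u => - t u) h0 ⟨q, hpq, hcq.neg⟩ ?_
    exact tendsto_neg_atBot_atTop.comp h1

theorem plane_meets {t : E → ℝ} (h : Sys t) {f g : E}
    (hfg : ∀ α β : ℝ, α • f + β • g = 0 → α = 0 ∧ β = 0) :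
    ∃ α β : ℝ, (α • f + β • g ∈ L t ∨ α • f + β • g ∈ L (fun u => - t u)) := by
  obtain ⟨g', hg', p, hp⟩ := exists_RJump h hfg
  have hfg' : ∀ α β : ℝ, α • f + β • g' = 0 → α = 0 ∧ β = 0 := by
    rcases hg' with rfl | rfl
    · exact hfg
    · intro α β hab
      have := hfg α (-β) (by rw [← hab]; module)
      exact ⟨this.1, by linarith [this.2]⟩
  have hmem := RJump_mem (circ_ne hfg' p) hp
  rcases hg' with rfl | rfl
  · exact ⟨Real.cos p, Real.sin p, hmem⟩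
  · refine ⟨Real.cos p, -Real.sin p, ?_⟩
    have : circ f (-g) p = Real.cos p • f + (-Real.sin p) • g := by
      simp only [circ]; module
    rw [this] at hmem
    exact hmem

end Pool.Agent.Helper544.UM
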