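import Pool.Agent.Helper544.UM2

/-!
Unique-maximum subspaces of `C(ℝ)`, part 3: a common element of the two limit cones is impossible
once `t` is continuous off a plane.
-/

set_option autoImplicit false

open Filter Topology Set

namespace Pool.Agent.Helper544.UM

/-- The open half space with inner normal `n`. -/
def H (n : E) : Set E := {x | 0 < dt n x}

theorem dt_add (n u v : E) : dt n (u + v) = dt n u + dt n v := by simp [dt]; ring
theorem dt_smul (n u : E) (c : ℝ) : dt n (c • u) = c * dt n u := by simp [dt]; ring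
theorem dt_neg (n u : E) : dt n (-u) = - dt n u := by simp [dt]; ring
theorem neg_dt (n u : E) : dt (-n) u = - dt n u := by simp [dt]; ring

theorem dt_self_pos {n : E} (hn : n ≠ 0) : 0 < dt n n := by
  have h1 : ∃ i, n i ≠ 0 := by
    by_contra hcon
    push Not at hcon
    exact hn (funext hcon)
  obtain ⟨i, hi⟩ := h1
  have h3 := mul_self_nonneg (n 0)
  have h4 := mul_self_nonneg (n 1)
  have h5 := mul_self_nonneg (n 2)
  unfold dt
  fin_cases i
  · have h2 := mul_self_pos.2 (show n 0 ≠ 0 from hi); linarith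
  · have h2 := mul_self_pos.2 (show n 1 ≠ 0 from hi); linarith
  · have h2 := mul_self_pos.2 (show n 2 ≠ 0 from hi); linarith

theorem convex_H (n : E) : Convex ℝ (H n) := by
  intro x hx y hy a b ha hb hab
  show 0 < dt n (a • x + b • y)
  rw [dt_add, dt_smul, dt_smul]
  have hx' : 0 < dt n x := hx
  have hy' : 0 < dt n y := hy
  rcases eq_or_lt_of_le ha with h | h
  · rw [← h] at hab ⊢
    have : b = 1 := by linarith
    rw [this]; linarith
  · have := mul_pos h hx'
    have h2 := mul_nonneg hb hy'.le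
    linarith

theorem tri_side {t : E → ℝ} (h : Sys t) {n : E} (hcont : ∀ x, dt n x ≠ 0 → ContinuousAt t x)
    {z : E} (hz : z ≠ 0) :
    Tendsto t (𝓝[H n] z) (𝓝 (t z)) ∨ Tendsto t (𝓝[H n] z) atTop ∨
      Tendsto t (𝓝[H n] z) atBot := by
  apply trichotomy
  · intro s hs
    rw [Metric.mem_nhdsWithin_iff] at hs
    obtain ⟨ε, hε, hs⟩ := hs
    refine ⟨Metric.ball z ε ∩ H n, inter_mem (mem_nhdsWithin_of_mem_nhds
      (Metric.ball_mem_nhds z hε)) self_mem_nhdsWithin, hs,
      ((convex_ball z ε).inter (convex_H n)).isPreconnected, ?_⟩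
    intro x hx
    exact (hcont x (ne_of_gt hx.2)).continuousWithinAt
  · intro K hK hn'
    exact (h.semi z hz K hK hn').filter_mono nhdsWithin_le_nhds

theorem tendsto_side {n y u : E} (hy : dt n y = 0) (hu : 0 < dt n u) :
    Tendsto (fun ε : ℝ => y + ε • u) (𝓝[>] 0) (𝓝[H n] y) := by
  rw [tendsto_nhdsWithin_iff]
  constructor
  · have : Continuous (fun ε : ℝ => y + ε • u) := by fun_prop
    have h1 := this.tendsto 0
    simp only [zero_smul, add_zero] at h1
    exact h1.mono_left nhdsWithin_le_nhds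
  · filter_upwards [self_mem_nhdsWithin] with ε hε
    show 0 < dt n (y + ε • u)
    rw [dt_add, dt_smul, hy, zero_add]
    exact mul_pos hε hu

theorem neBot_side {n y : E} (hn : n ≠ 0) (hy : dt n y = 0) : NeBot (𝓝[H n] y) :=
  (tendsto_side hy (dt_self_pos hn)).neBot

theorem reach {t : E → ℝ} {n z : E} (hn : n ≠ 0) (hnz : dt n z = 0)
    (hcont : ∀ x, dt n x ≠ 0 → ContinuousAt t x) (h1 : Tendsto t (𝓝[H n] z) atBot) :
    ∃ b0 : ℝ, ∀ b, b0 ≤ b → ∃ ε : ℝ, 0 < ε ∧ - t (z + ε • n) = b := by
  have hnn := dt_self_pos hn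
  have hc : ContinuousOn (fun ε : ℝ => - t (z + ε • n)) (Ioo 0 2) := by
    intro ε hε
    have h2 : ContinuousAt t (z + ε • n) := by
      apply hcont
      rw [dt_add, dt_smul, hnz, zero_add]
      exact (mul_pos hε.1 hnn).ne'
    have h3 : ContinuousAt (fun ε : ℝ => z + ε • n) ε := by fun_prop
    exact (ContinuousAt.comp (f := fun ε : ℝ => z + ε • n) h2 h3).neg.continuousWithinAt
  have ht : Tendsto (fun ε : ℝ => - t (z + ε • n)) (𝓝[>] 0) atTop :=
    tendsto_neg_atBot_atTop.comp (h1.comp (tendsto_side hnz hnn))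
  refine ⟨- t (z + (1 : ℝ) • n), ?_⟩
  intro b hb
  obtain ⟨s, hs, hs'⟩ := ivt_top hc ht (r := 1) ⟨one_pos, by norm_num⟩ hb
  exact ⟨s, hs.1, hs'⟩

theorem both_sides {t : E → ℝ} (h : Sys t) {n z : E} (hn : n ≠ 0) (hz : z ≠ 0)
    (hnz : dt n z = 0) (hcont : ∀ x, dt n x ≠ 0 → ContinuousAt t x)
    (h1 : Tendsto t (𝓝[H n] z) atBot) (h2 : Tendsto t (𝓝[H (-n)] z) atBot) : False := by
  obtain ⟨b1, hb1⟩ := reach hn hnz hcont h1
  obtain ⟨b2, hb2⟩ := reach (t := t) (n := -n) (z := z) (neg_ne_zero.2 hn)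
    (by rw [neg_dt, hnz, neg_zero])
    (by intro x hx; apply hcont; intro h0; apply hx; rw [neg_dt, h0, neg_zero]) h2
  set b := max (max b1 b2) (- t z + 1) with hb
  obtain ⟨s1, hs1, e1⟩ := hb1 b (le_trans (le_max_left _ _) (le_max_left _ _))
  obtain ⟨s2, hs2, e2⟩ := hb2 b (le_trans (le_max_right _ _) (le_max_left _ _))
  have hbt : - t z + 1 ≤ b := le_max_right _ _
  have hnn := dt_self_pos hn
  have n1 : z + s1 • n ≠ 0 := by
    intro h0
    have : dt n (z + s1 • n) = 0 := by rw [h0]; simp [dt]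
    rw [dt_add, dt_smul, hnz, zero_add] at this
    exact (mul_pos hs1 hnn).ne' this
  have n2 : z + s2 • (-n) ≠ 0 := by
    intro h0
    have : dt n (z + s2 • (-n)) = 0 := by rw [h0]; simp [dt]
    rw [dt_add, dt_smul, hnz, zero_add, dt_neg] at this
    nlinarith [mul_pos hs2 hnn]
  obtain ⟨-, h4⟩ := h.comb2 n1 n2 (b := -b) (by linarith) (by linarith) hs2 hs1
  have h5 : s2 • (z + s1 • n) + s1 • (z + s2 • (-n)) = (s2 + s1) • z := by
    module
  rw [h5, h.smul _ (by linarith) z hz] at h4
  linarith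

theorem cont_neg {t : E → ℝ} (h : Sys t) {y : E} (hy : y ∈ L t) (hy' : y ∈ L (fun u => - t u)) :
    ContinuousAt t (-y) :=
  contAt_of_bounds h (neg_ne_zero.2 hy.1) (bdd_above_neg h hy) (bdd_above_neg h.neg hy')

theorem stageF {t : E → ℝ} (h : Sys t) {y n : E} (hy : y ∈ L t) (hy' : y ∈ L (fun u => - t u))
    (hn : n ≠ 0) (hyn : dt n y = 0) (hcont : ∀ x, dt n x ≠ 0 → ContinuousAt t x)
    (hbot : Tendsto t (𝓝[H n] y) atBot) : False := by
  have hy0 : y ≠ 0 := hy.1
  have hnn := dt_self_pos hn
  have hcont' : ∀ x, dt (-n) x ≠ 0 → ContinuousAt t x := by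
    intro x hx; apply hcont; intro h0; apply hx; rw [neg_dt, h0, neg_zero]
  have hyn' : dt (-n) y = 0 := by rw [neg_dt, hyn, neg_zero]
  -- Step 1
  have htop : Tendsto t (𝓝[H (-n)] y) atTop := by
    by_contra hcon
    have hc : ∃ c, ∀ᶠ u in 𝓝[H (-n)] y, t u < c := by
      rcases tri_side h hcont' hy0 with h1 | h1 | h1
      · exact ⟨t y + 1, h1.eventually_lt_const (by linarith)⟩
      · exact absurd h1 hcon
      · exact ⟨0, h1.eventually_lt_atBot 0⟩
    obtain ⟨c, hc⟩ := hc
    have hc2 : ∀ᶠ u in 𝓝[H n] y, t u < c := hbot.eventually_lt_atBot c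
    rw [eventually_nhdsWithin_iff] at hc hc2
    have hc3 : ∀ᶠ u in 𝓝 y, dt n u ≠ 0 → t u < c := by
      filter_upwards [hc, hc2] with u hu1 hu2 hne
      rcases lt_or_gt_of_ne hne with h3 | h3
      · exact hu1 (show 0 < dt (-n) u by rw [neg_dt]; linarith)
      · exact hu2 h3
    obtain ⟨b, hb1, hb2⟩ := ((L_elt hy hc3.eventually_nhds).and (eventually_gt_atTop c)).exists
    obtain ⟨u, hu, hu0, hub⟩ := hb1
    have hu' : ∀ᶠ v in 𝓝 u, dt n v ≠ 0 → t v < c := hu
    have hnu : dt n u = 0 := by
      by_contra hne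
      have := hu'.self_of_nhds hne
      linarith
    have hnu' : dt (-n) u = 0 := by rw [neg_dt, hnu, neg_zero]
    have nb1 : NeBot (𝓝[H n] u) := neBot_side hn hnu
    have nb2 : NeBot (𝓝[H (-n)] u) := neBot_side (neg_ne_zero.2 hn) hnu'
    have ev1 : ∀ᶠ v in 𝓝[H n] u, t v < c := by
      rw [eventually_nhdsWithin_iff]
      filter_upwards [hu'] with v hv hv'
      exact hv (ne_of_gt hv')
    have ev2 : ∀ᶠ v in 𝓝[H (-n)] u, t v < c := by
      rw [eventually_nhdsWithin_iff]
      filter_upwards [hu'] with v hv hv'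
      apply hv
      intro h0
      have : 0 < dt (-n) v := hv'
      rw [neg_dt, h0] at this
      linarith
    have b1 : Tendsto t (𝓝[H n] u) atBot := by
      rcases tri_side h hcont hu0 with h1 | h1 | h1
      · have h2 := h1.eventually_const_lt (show c < t u by linarith)
        obtain ⟨v, hv1, hv2⟩ := (h2.and ev1).exists
        linarith
      · obtain ⟨v, hv1, hv2⟩ := ((h1.eventually_ge_atTop c).and ev1).exists
        linarith
      · exact h1
    have b2 : Tendsto t (𝓝[H (-n)] u) atBot := by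
      rcases tri_side h hcont' hu0 with h1 | h1 | h1
      · have h2 := h1.eventually_const_lt (show c < t u by linarith)
        obtain ⟨v, hv1, hv2⟩ := (h2.and ev2).exists
        linarith
      · obtain ⟨v, hv1, hv2⟩ := ((h1.eventually_ge_atTop c).and ev2).exists
        linarith
      · exact h1
    exact both_sides h hn hu0 hnu hcont b1 b2
  -- Step 2 : the path
  have hpath : ∀ m : E, dt m y = 0 → 0 < dt m m →
      Tendsto (circ y m) (𝓝[>] 0) (𝓝[H m] y) := by
    intro m hm hmm
    rw [tendsto_nhdsWithin_iff]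
    constructor
    · have h1 := (continuous_circ y m).tendsto 0
      simp only [circ, Real.cos_zero, Real.sin_zero, one_smul, zero_smul, add_zero] at h1
      exact h1.mono_left nhdsWithin_le_nhds
    · filter_upwards [Ioo_mem_nhdsGT Real.pi_pos] with θ hθ
      show 0 < dt m (circ y m θ)
      rw [circ, dt_add, dt_smul, dt_smul, hm, mul_zero, zero_add]
      exact mul_pos (Real.sin_pos_of_mem_Ioo hθ) hmm
  have hA : ∃ θ1 ∈ Ioo 0 Real.pi, t (circ y n θ1) < t y := by
    have e1 := (hbot.comp (hpath n hyn hnn)).eventually_lt_atBot (t y)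
    obtain ⟨θ, h1, h2⟩ := (e1.and (Ioo_mem_nhdsGT Real.pi_pos)).exists
    exact ⟨θ, h2, h1⟩
  have hB : ∃ θ2 ∈ Ioo 0 Real.pi, t y < t (circ y (-n) θ2) := by
    have hnn' : 0 < dt (-n) (-n) := by rw [neg_dt, dt_neg]; linarith
    have e1 := (htop.comp (hpath (-n) hyn' hnn')).eventually_gt_atTop (t y)
    obtain ⟨θ, h1, h2⟩ := (e1.and (Ioo_mem_nhdsGT Real.pi_pos)).exists
    exact ⟨θ, h2, h1⟩
  obtain ⟨θ1, hθ1, hA⟩ := hA
  obtain ⟨θ2, hθ2, hB⟩ := hB
  have hB' : t y < t (circ y n (2 * Real.pi - θ2)) := by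
    have : circ y n (2 * Real.pi - θ2) = circ y (-n) θ2 := by
      simp only [circ, Real.cos_two_pi_sub, Real.sin_two_pi_sub]
      module
    rw [this]; exact hB
  have hScont : ContinuousOn (fun θ => t (circ y n θ)) (Icc θ1 (2 * Real.pi - θ2)) := by
    intro θ hθ
    have h1 : ContinuousAt t (circ y n θ) := by
      by_cases hs : Real.sin θ = 0
      · have hpi : θ = Real.pi := by
          have h3 : Real.sin (θ - Real.pi) = 0 := by rw [Real.sin_sub_pi, hs, neg_zero]
          have h4 := (Real.sin_eq_zero_iff_of_lt_of_lt (by linarith [hθ.1, hθ1.1])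
            (by linarith [hθ.2, hθ2.1])).1 h3
          linarith
        rw [hpi]
        have : circ y n Real.pi = -y := by
          simp [circ]
        rw [this]
        exact cont_neg h hy hy'
      · apply hcont
        rw [circ, dt_add, dt_smul, dt_smul, hyn, mul_zero, zero_add]
        exact mul_ne_zero hs hnn.ne'
    exact (ContinuousAt.comp (f := circ y n) h1
      (continuous_circ y n).continuousAt).continuousWithinAt
  obtain ⟨θ, hθ, hθe⟩ := intermediate_value_Icc (by linarith [hθ1.2, hθ2.2]) hScont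
    (show t y ∈ Icc (t (circ y n θ1)) (t (circ y n (2 * Real.pi - θ2))) from ⟨hA.le, hB'.le⟩)
  simp only at hθe
  have hdt : dt n (circ y n θ) = Real.sin θ * dt n n := by
    rw [circ, dt_add, dt_smul, dt_smul, hyn, mul_zero, zero_add]
  -- constancy along the ray
  have hconst : ∀ ε : ℝ, 0 < ε → circ y n θ ≠ 0 → t (y + ε • circ y n θ) = t y := by
    intro ε hε hne
    have := (h.comb2 hy0 hne (b := t y) rfl hθe one_pos hε).2
    simpa using this
  rcases lt_trichotomy (Real.sin θ) 0 with hs | hs | hs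
  · have h1 : 0 < dt (-n) (circ y n θ) := by
      rw [neg_dt, hdt]; nlinarith
    have hne : circ y n θ ≠ 0 := by
      intro h0; rw [h0] at h1; simp [dt] at h1
    have h2 := (htop.comp (tendsto_side hyn' h1)).eventually_gt_atTop (t y)
    obtain ⟨ε, h3, h4⟩ := (h2.and self_mem_nhdsWithin).exists
    have := hconst ε h4 hne
    simp only [Function.comp] at h3
    linarith
  · have hpi : θ = Real.pi := by
      have h3 : Real.sin (θ - Real.pi) = 0 := by rw [Real.sin_sub_pi, hs, neg_zero]
      have h4 := (Real.sin_eq_zero_iff_of_lt_of_lt (by linarith [hθ.1, hθ1.1])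
        (by linarith [hθ.2, hθ2.1])).1 h3
      linarith
    rw [hpi] at hθe
    have : circ y n Real.pi = -y := by
      simp [circ]
    rw [this] at hθe
    exact h.anti hy0 hθe
  · have h1 : 0 < dt n (circ y n θ) := by
      rw [hdt]; exact mul_pos hs hnn
    have hne : circ y n θ ≠ 0 := by
      intro h0; rw [h0] at h1; simp [dt] at h1
    have h2 := (hbot.comp (tendsto_side hyn h1)).eventually_lt_atBot (t y)
    obtain ⟨ε, h3, h4⟩ := (h2.and self_mem_nhdsWithin).exists
    have := hconst ε h4 hne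
    simp only [Function.comp] at h3
    linarith

/-- A common element of the two limit cones is impossible. -/
theorem stageG {t : E → ℝ} (h : Sys t) {y n : E} (hy : y ∈ L t) (hy' : y ∈ L (fun u => - t u))
    (hn : n ≠ 0) (hL : ∀ w ∈ L t, dt n w = 0) (hL' : ∀ w ∈ L (fun u => - t u), dt n w = 0)
    (hcont : ∀ x, dt n x ≠ 0 → ContinuousAt t x) : False := by
  have hy0 : y ≠ 0 := hy.1
  have hnn := dt_self_pos hn
  have hyn : dt n y = 0 := hL y hy
  have hfg : ∀ α β : ℝ, α • y + β • n = 0 → α = 0 ∧ β = 0 := by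
    intro α β hab
    have h1 : dt n (α • y + β • n) = 0 := by rw [hab]; simp [dt]
    rw [dt_add, dt_smul, dt_smul, hyn, mul_zero, zero_add] at h1
    have h2 : β = 0 := by
      rcases mul_eq_zero.1 h1 with h | h
      · exact h
      · exact absurd h hnn.ne'
    refine ⟨?_, h2⟩
    rw [h2, zero_smul, add_zero] at hab
    rcases smul_eq_zero.1 hab with h | h
    · exact h
    · exact absurd h hy0
  obtain ⟨g, hg, p, hp⟩ := exists_RJump h hfg
  -- reduce to `g`
  have hg0 : g ≠ 0 := by
    rcases hg with rfl | rfl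
    · exact hn
    · exact neg_ne_zero.2 hn
  have hgL : ∀ w ∈ L t, dt g w = 0 := by
    rcases hg with rfl | rfl
    · exact hL
    · intro w hw; rw [neg_dt, hL w hw, neg_zero]
  have hgL' : ∀ w ∈ L (fun u => - t u), dt g w = 0 := by
    rcases hg with rfl | rfl
    · exact hL'
    · intro w hw; rw [neg_dt, hL' w hw, neg_zero]
  have hgcont : ∀ x, dt g x ≠ 0 → ContinuousAt t x := by
    rcases hg with rfl | rfl
    · exact hcont
    · intro x hx; apply hcont; intro h0; apply hx; rw [neg_dt, h0, neg_zero]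
  have hgg := dt_self_pos hg0
  have hyg : dt g y = 0 := hgL y hy
  have hfg' : ∀ α β : ℝ, α • y + β • g = 0 → α = 0 ∧ β = 0 := by
    intro α β hab
    have h1 : dt g (α • y + β • g) = 0 := by rw [hab]; simp [dt]
    rw [dt_add, dt_smul, dt_smul, hyg, mul_zero, zero_add] at h1
    have h2 : β = 0 := by
      rcases mul_eq_zero.1 h1 with h | h
      · exact h
      · exact absurd h hgg.ne'
    refine ⟨?_, h2⟩
    rw [h2, zero_smul, add_zero] at hab
    rcases smul_eq_zero.1 hab with h | h
    · exact h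
    · exact absurd h hy0
  have hmem := RJump_mem (circ_ne hfg' p) hp
  have hdt0 : dt g (circ y g p) = 0 := by
    rcases hmem with h1 | h1
    · exact hgL _ h1
    · exact hgL' _ h1
  have hsin : Real.sin p = 0 := by
    rw [circ, dt_add, dt_smul, dt_smul, hyg, mul_zero, zero_add] at hdt0
    rcases mul_eq_zero.1 hdt0 with h | h
    · exact h
    · exact absurd h hgg.ne'
  have hcos : Real.cos p = 1 := by
    have h1 := Real.sin_sq_add_cos_sq p
    rw [hsin] at h1
    have h2 : Real.cos p = 1 ∨ Real.cos p = -1 := by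
      have : (Real.cos p - 1) * (Real.cos p + 1) = 0 := by ring_nf; ring_nf at h1; linarith
      rcases mul_eq_zero.1 this with h | h
      · left; linarith
      · right; linarith
    rcases h2 with h2 | h2
    · exact h2
    · exfalso
      have h3 : circ y g p = -y := by simp [circ, hsin, h2]
      rw [h3] at hmem
      rcases hmem with h4 | h4
      · exact L_neg h hy h4
      · exact L_neg h.neg hy' h4
  have hshift : ∀ θ, circ y g (p + θ) = circ y g θ := by
    intro θ
    simp only [circ, Real.cos_add, Real.sin_add, hsin, hcos]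
    module
  have hpath : Tendsto (circ y g) (𝓝[>] p) (𝓝[H g] y) := by
    rw [tendsto_nhdsWithin_iff]
    constructor
    · have h1 := (continuous_circ y g).tendsto p
      have h2 : circ y g p = y := by simp [circ, hsin, hcos]
      rw [h2] at h1
      exact h1.mono_left nhdsWithin_le_nhds
    · filter_upwards [Ioo_mem_nhdsGT (show p < p + Real.pi by linarith [Real.pi_pos])] with θ hθ
      show 0 < dt g (circ y g θ)
      have h3 : circ y g θ = circ y g (θ - p) := by
        rw [← hshift (θ - p)]; congr 1; ring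
      rw [h3, circ, dt_add, dt_smul, dt_smul, hyg, mul_zero, zero_add]
      exact mul_pos (Real.sin_pos_of_mem_Ioo ⟨by linarith [hθ.1], by linarith [hθ.2]⟩) hgg
  obtain ⟨-, hlim⟩ := hp
  have htri := tri_side h hgcont hy0
  rcases htri with h1 | h1 | h1
  · -- finite limit contradicts the jump
    have h2 : Tendsto (fun θ => t (circ y g θ)) (𝓝[>] p) (𝓝 (t y)) := h1.comp hpath
    rcases hlim with h3 | h3
    · exact not_tendsto_nhds_of_tendsto_atTop h3 _ h2
    · exact not_tendsto_nhds_of_tendsto_atBot h3 _ h2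
  · exact stageF h.neg (y := y) (n := g) hy' (by simpa using hy) hg0 hyg
      (fun x hx => (hgcont x hx).neg) (tendsto_neg_atTop_atBot.comp h1)
  · exact stageF h hy hy' hg0 hyg hgcont h1

end Pool.Agent.Helper544.UM
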