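import Pool.Agent.Helper544.UM3

/-!
Unique-maximum subspaces of `C(ℝ)`, part 4: linear algebra in `ℝ³` and the conclusion.
-/

set_option autoImplicit false

open Filter Topology Set

namespace Pool.Agent.Helper544.UM

theorem lemK_aux {A : Set E} (hcl : ∀ z, z ≠ 0 → z ∈ closure A → z ∈ A)
    (hsm : ∀ c : ℝ, 0 < c → ∀ z ∈ A, c • z ∈ A) {a r : E} (hr : r ≠ 0)
    (hall : ∀ x : ℝ, a + x • r ∈ A) : r ∈ A ∧ -r ∈ A := by
  constructor
  · apply hcl r hr
    have h1 : Tendsto (fun x : ℝ => x⁻¹ • a + r) atTop (𝓝 ((0 : ℝ) • a + r)) :=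
      (tendsto_inv_atTop_zero.smul_const a).add_const r
    rw [zero_smul, zero_add] at h1
    refine mem_closure_of_tendsto h1 ?_
    filter_upwards [eventually_gt_atTop (0 : ℝ)] with x hx
    have h2 := hsm x⁻¹ (inv_pos.2 hx) _ (hall x)
    rw [smul_add, smul_smul, inv_mul_cancel₀ hx.ne', one_smul] at h2
    exact h2
  · apply hcl (-r) (neg_ne_zero.2 hr)
    have h1 : Tendsto (fun x : ℝ => x⁻¹ • a + (-r)) atTop (𝓝 ((0 : ℝ) • a + (-r))) :=
      (tendsto_inv_atTop_zero.smul_const a).add_const (-r)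
    rw [zero_smul, zero_add] at h1
    refine mem_closure_of_tendsto h1 ?_
    filter_upwards [eventually_gt_atTop (0 : ℝ)] with x hx
    have h2 := hsm x⁻¹ (inv_pos.2 hx) _ (hall (-x))
    rw [smul_add, smul_smul, mul_neg, inv_mul_cancel₀ hx.ne', neg_smul, one_smul] at h2
    exact h2

theorem lemK {A : Set E} (hcl : ∀ z, z ≠ 0 → z ∈ closure A → z ∈ A)
    (hsm : ∀ c : ℝ, 0 < c → ∀ z ∈ A, c • z ∈ A) {a r : E} (hr : r ≠ 0)
    (hne : ∀ x : ℝ, a + x • r ≠ 0) (hcov : ∀ x : ℝ, a + x • r ∈ A ∨ -(a + x • r) ∈ A) :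
    ∃ z, z ≠ 0 ∧ z ∈ A ∧ -z ∈ A := by
  set A1 : Set ℝ := {x | a + x • r ∈ A} with hA1
  set A2 : Set ℝ := {x | -(a + x • r) ∈ A} with hA2
  have c1 : IsClosed A1 := by
    rw [← closure_subset_iff_isClosed]
    intro x hx
    apply hcl _ (hne x)
    exact map_mem_closure (f := fun x : ℝ => a + x • r) (by fun_prop) hx (fun y hy => hy)
  have c2 : IsClosed A2 := by
    rw [← closure_subset_iff_isClosed]
    intro x hx
    apply hcl _ (neg_ne_zero.2 (hne x))
    exact map_mem_closure (f := fun x : ℝ => -(a + x • r)) (by fun_prop) hx (fun y hy => hy)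
  by_cases h1 : A1.Nonempty
  · by_cases h2 : A2.Nonempty
    · obtain ⟨x, -, hx1, hx2⟩ := isPreconnected_closed_iff.1 (isPreconnected_univ (α := ℝ)) A1 A2
        c1 c2 (fun x _ => hcov x) (by simpa using h1) (by simpa using h2)
      exact ⟨a + x • r, hne x, hx1, hx2⟩
    · rw [Set.not_nonempty_iff_eq_empty] at h2
      have hall : ∀ x : ℝ, a + x • r ∈ A := by
        intro x
        rcases hcov x with h | h
        · exact h
        · exact absurd (show x ∈ A2 from h) (by rw [h2]; exact Set.notMem_empty x)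
      obtain ⟨k1, k2⟩ := lemK_aux hcl hsm hr hall
      exact ⟨r, hr, k1, k2⟩
  · rw [Set.not_nonempty_iff_eq_empty] at h1
    have hall : ∀ x : ℝ, -a + x • (-r) ∈ A := by
      intro x
      have e : -a + x • (-r) = -(a + x • r) := by module
      rw [e]
      rcases hcov x with h | h
      · exact absurd (show x ∈ A1 from h) (by rw [h1]; exact Set.notMem_empty x)
      · exact h
    obtain ⟨k1, k2⟩ := lemK_aux hcl hsm (neg_ne_zero.2 hr) hall
    exact ⟨r, hr, by simpa using k2, k1⟩

theorem dt_comm (u v : E) : dt u v = dt v u := by simp [dt]; ring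
theorem dt_cr_left (u v : E) : dt u (cr u v) = 0 := by simp [dt, cr]; ring
theorem dt_cr_right (u v : E) : dt v (cr u v) = 0 := by simp [dt, cr]; ring
theorem det3_eq (u v w : E) : det3 u v w = dt u (cr v w) := by simp [dt, cr, det3]; ring
theorem dt_cr_cr (n m : E) : dt m (cr n (cr n m)) = - dt (cr n m) (cr n m) := by
  simp [dt, cr]; ring
theorem dt_cr_cr' (n m : E) : dt n (cr m (cr n m)) = dt (cr n m) (cr n m) := by
  simp [dt, cr]; ring

theorem ne_of_dt_ne {u v : E} (h : dt u v ≠ 0) : v ≠ 0 := by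
  rintro rfl; apply h; simp [dt]

theorem eq_smul_of_cr {a n : E} (hn : n ≠ 0) (h : cr a n = 0) : a = (dt n a / dt n n) • n := by
  have hnn := dt_self_pos hn
  have h0 : a 1 * n 2 - a 2 * n 1 = 0 := by have := congrFun h 0; simpa [cr] using this
  have h1 : a 2 * n 0 - a 0 * n 2 = 0 := by have := congrFun h 1; simpa [cr] using this
  have h2 : a 0 * n 1 - a 1 * n 0 = 0 := by have := congrFun h 2; simpa [cr] using this
  have key : ∀ i, a i * dt n n = dt n a * n i := by
    intro i
    fin_cases i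
    · simp only [dt, Fin.zero_eta]; linear_combination n 1 * h2 - n 2 * h1
    · simp only [dt, Fin.mk_one]; linear_combination n 2 * h0 - n 0 * h2
    · simp only [dt, Fin.reduceFinMk]; linear_combination n 0 * h1 - n 1 * h0
  ext i
  simp only [Pi.smul_apply, smul_eq_mul]
  rw [div_mul_eq_mul_div, eq_div_iff hnn.ne']
  exact key i

theorem exists_off {t : E → ℝ} (h : Sys t) {a r : E} (hr : r ≠ 0)
    (hne : ∀ x : ℝ, a + x • r ≠ 0) : ∃ x : ℝ, a + x • r ∉ L t ∧ -(a + x • r) ∉ L t := by
  by_contra hcon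
  push Not at hcon
  obtain ⟨z, hz, h1, h2⟩ := lemK (A := L t) (fun z hz hz' => L_closed hz hz')
    (fun c hc z hz => L_smul h hz hc) hr hne (by
      intro x
      by_cases hx : a + x • r ∈ L t
      · exact Or.inl hx
      · exact Or.inr (hcon x hx))
  exact L_neg h h1 h2

theorem mem_of_smul {t : E → ℝ} (h : Sys t) {w : E} {α : ℝ} (hw : α • w ∈ L t) :
    w ∈ L t ∨ -w ∈ L t := by
  have hα : α ≠ 0 := by
    rintro rfl
    exact hw.1 (zero_smul _ _)
  rcases lt_or_gt_of_ne hα with h1 | h1
  · right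
    have := L_smul h hw (c := (-α)⁻¹) (inv_pos.2 (by linarith))
    rw [smul_smul] at this
    have e : (-α)⁻¹ * α = -1 := by field_simp
    rw [e, neg_smul, one_smul] at this
    exact this
  · left
    have := L_smul h hw (c := α⁻¹) (inv_pos.2 h1)
    rw [smul_smul, inv_mul_cancel₀ hα, one_smul] at this
    exact this

theorem claimX {t : E → ℝ} (h : Sys t) {n m : E} 
    (hL : ∀ w ∈ L t, dt n w = 0) (hL' : ∀ w ∈ L (fun u => - t u), dt m w = 0) :
    cr n m = 0 := by
  by_contra hr
  set r := cr n m with hrdef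
  have hrr := dt_self_pos hr
  have nr : dt n r = 0 := dt_cr_left n m
  have mr : dt m r = 0 := dt_cr_right n m
  have e1 : ∀ x : ℝ, dt n (cr n r + x • r) = 0 := by
    intro x; rw [dt_add, dt_smul, nr, dt_cr_left]; ring
  have e2 : ∀ x : ℝ, dt m (cr n r + x • r) = - dt r r := by
    intro x; rw [dt_add, dt_smul, mr, hrdef, dt_cr_cr]; ring
  have e3 : ∀ x : ℝ, dt m (cr m r + x • r) = 0 := by
    intro x; rw [dt_add, dt_smul, mr, dt_cr_left]; ring
  have e4 : ∀ x : ℝ, dt n (cr m r + x • r) = dt r r := by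
    intro x; rw [dt_add, dt_smul, nr, hrdef, dt_cr_cr']; ring
  obtain ⟨x, hx1, hx2⟩ := exists_off h (a := cr n r) hr (fun x =>
    ne_of_dt_ne (u := m) (by rw [e2]; linarith))
  obtain ⟨x', hx1', hx2'⟩ := exists_off h.neg (a := cr m r) hr (fun x =>
    ne_of_dt_ne (u := n) (by rw [e4]; linarith))
  set w1 := cr n r + x • r with hw1
  set w2 := cr m r + x' • r with hw2
  have a1 : dt n w1 = 0 := e1 x
  have a2 : dt m w1 = - dt r r := e2 x
  have a3 : dt m w2 = 0 := e3 x'
  have a4 : dt n w2 = dt r r := e4 x'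
  have hind : ∀ α β : ℝ, α • w1 + β • w2 = 0 → α = 0 ∧ β = 0 := by
    intro α β hab
    have h1 : dt n (α • w1 + β • w2) = 0 := by rw [hab]; simp [dt]
    have h2 : dt m (α • w1 + β • w2) = 0 := by rw [hab]; simp [dt]
    rw [dt_add, dt_smul, dt_smul, a1, a4] at h1
    rw [dt_add, dt_smul, dt_smul, a2, a3] at h2
    constructor
    · have : α * dt r r = 0 := by linarith
      rcases mul_eq_zero.1 this with h | h
      · exact h
      · exact absurd h hrr.ne'
    · have : β * dt r r = 0 := by linarith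
      rcases mul_eq_zero.1 this with h | h
      · exact h
      · exact absurd h hrr.ne'
  obtain ⟨α, β, hw | hw⟩ := plane_meets h hind
  · have h1 := hL _ hw
    rw [dt_add, dt_smul, dt_smul, a1, a4] at h1
    have hβ : β = 0 := by
      have : β * dt r r = 0 := by linarith
      rcases mul_eq_zero.1 this with h | h
      · exact h
      · exact absurd h hrr.ne'
    rw [hβ, zero_smul, add_zero] at hw
    rcases mem_of_smul h hw with h2 | h2
    · exact hx1 h2
    · exact hx2 h2
  · have h1 := hL' _ hw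
    rw [dt_add, dt_smul, dt_smul, a2, a3] at h1
    have hα : α = 0 := by
      have : α * dt r r = 0 := by linarith
      rcases mul_eq_zero.1 this with h | h
      · exact h
      · exact absurd h hrr.ne'
    rw [hα, zero_smul, zero_add] at hw
    rcases mem_of_smul h.neg hw with h2 | h2
    · exact hx1' h2
    · exact hx2' h2

theorem normal_or (A : Set E) (hA0 : ∀ w ∈ A, w ≠ 0) :
    (∃ w1 ∈ A, ∃ w2 ∈ A, cr w1 w2 ≠ 0) ∨
      (∃ n n' : E, cr n n' ≠ 0 ∧ ∀ w ∈ A, dt n w = 0 ∧ dt n' w = 0) := by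
  by_cases hpair : ∃ w1 ∈ A, ∃ w2 ∈ A, cr w1 w2 ≠ 0
  · exact Or.inl hpair
  right
  push Not at hpair
  by_cases hne : A.Nonempty
  · obtain ⟨v, hv⟩ := hne
    have hv0 := hA0 v hv
    have hi : ∃ i, v i ≠ 0 := by
      by_contra hcon
      push Not at hcon
      exact hv0 (funext hcon)
    have hw : ∀ w ∈ A, v 1 * w 2 - v 2 * w 1 = 0 ∧ v 2 * w 0 - v 0 * w 2 = 0 ∧
        v 0 * w 1 - v 1 * w 0 = 0 := by
      intro w hw
      have h := hpair v hv w hw
      refine ⟨?_, ?_, ?_⟩
      · have := congrFun h 0; simpa [cr] using this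
      · have := congrFun h 1; simpa [cr] using this
      · have := congrFun h 2; simpa [cr] using this
    obtain ⟨i, hi⟩ := hi
    fin_cases i
    · have hi' : v 0 ≠ 0 := hi
      refine ⟨![-v 1, v 0, 0], ![-v 2, 0, v 0], ?_, ?_⟩
      · intro h
        have := congrFun h 0
        simp [cr] at this
        exact hi' this
      · intro w hwA
        obtain ⟨h1, h2, h3⟩ := hw w hwA
        constructor
        · simp [dt]; linarith
        · simp [dt]; linarith
    · have hi' : v 1 ≠ 0 := hi
      refine ⟨![v 1, -v 0, 0], ![0, -v 2, v 1], ?_, ?_⟩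
      · intro h
        have := congrFun h 1
        simp [cr] at this
        exact hi' this
      · intro w hwA
        obtain ⟨h1, h2, h3⟩ := hw w hwA
        constructor
        · simp [dt]; linarith
        · simp [dt]; linarith
    · have hi' : v 2 ≠ 0 := hi
      refine ⟨![v 2, 0, -v 0], ![0, v 2, -v 1], ?_, ?_⟩
      · intro h
        have := congrFun h 2
        simp [cr] at this
        exact hi' this
      · intro w hwA
        obtain ⟨h1, h2, h3⟩ := hw w hwA
        constructor
        · simp [dt]; linarith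
        · simp [dt]; linarith
  · rw [Set.not_nonempty_iff_eq_empty] at hne
    refine ⟨![1, 0, 0], ![0, 1, 0], ?_, ?_⟩
    · intro h
      have := congrFun h 2
      simp [cr] at this
    · intro w hw
      rw [hne] at hw
      exact absurd hw (Set.notMem_empty w)

theorem cr_smul_smul (a b : ℝ) (n : E) : cr (a • n) (b • n) = 0 := by
  ext i
  fin_cases i <;> simp [cr] <;> ring

theorem cr_symm0 {n m : E} (h : cr n m = 0) : cr m n = 0 := by
  have h0 := congrFun h 0
  have h1 := congrFun h 1
  have h2 := congrFun h 2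
  simp [cr] at h0 h1 h2
  ext i
  fin_cases i
  · simp [cr]; linarith
  · simp [cr]; linarith
  · simp [cr]; linarith

theorem cr_ne_left {n m : E} (h : cr n m ≠ 0) : n ≠ 0 := by
  rintro rfl; apply h; ext i; fin_cases i <;> simp [cr]

theorem cr_ne_right {n m : E} (h : cr n m ≠ 0) : m ≠ 0 := by
  rintro rfl; apply h; ext i; fin_cases i <;> simp [cr]

theorem exists_normal {t : E → ℝ} (h : Sys t) : ∃ n : E, n ≠ 0 ∧ ∀ w ∈ L t, dt n w = 0 := by
  rcases normal_or (L t) (fun w hw => hw.1) with ⟨w1, h1, w2, h2, hne⟩ | ⟨n, n', hne, hh⟩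
  · refine ⟨cr w1 w2, hne, ?_⟩
    intro w hw
    rw [dt_comm, ← det3_eq]
    exact L_det h hw h1 h2
  · exact ⟨n, cr_ne_left hne, fun w hw => (hh w hw).1⟩

/-- There are two independent elements in `L t`. -/
theorem exists_pair {t : E → ℝ} (h : Sys t) : ∃ w1 ∈ L t, ∃ w2 ∈ L t, cr w1 w2 ≠ 0 := by
  rcases normal_or (L t) (fun w hw => hw.1) with hp | ⟨n, n', hne, hh⟩
  · exact hp
  · exfalso
    obtain ⟨m, hm, hmL⟩ := exists_normal h.neg
    have c1 : cr n m = 0 := claimX h (fun w hw => (hh w hw).1) hmL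
    have c2 : cr n' m = 0 := claimX h (fun w hw => (hh w hw).2) hmL
    apply hne
    rw [eq_smul_of_cr hm c1, eq_smul_of_cr hm c2]
    exact cr_smul_smul _ _ _

theorem no_sys (t : E → ℝ) (h : Sys t) : False := by
  obtain ⟨w1, hw1, w2, hw2, hn⟩ := exists_pair h
  obtain ⟨v1, hv1, v2, hv2, hm⟩ := exists_pair h.neg
  set n := cr w1 w2 with hndef
  set m := cr v1 v2 with hmdef
  have hLn : ∀ w ∈ L t, dt n w = 0 := by
    intro w hw
    rw [dt_comm, hndef, ← det3_eq]
    exact L_det h hw hw1 hw2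
  have hLm : ∀ w ∈ L (fun u => - t u), dt m w = 0 := by
    intro w hw
    rw [dt_comm, hmdef, ← det3_eq]
    exact L_det h.neg hw hv1 hv2
  have hcr : cr n m = 0 := claimX h hLn hLm
  have hmn : m = (dt n m / dt n n) • n := eq_smul_of_cr hn (cr_symm0 hcr)
  set κ := dt n m / dt n n with hκ
  have hκ0 : κ ≠ 0 := by
    intro h0
    rw [h0, zero_smul] at hmn
    exact hm hmn
  have hdm : ∀ x, dt m x = κ * dt n x := by
    intro x
    rw [hmn, dt_comm, dt_smul, dt_comm]
  have hnn := dt_self_pos hn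
  have hL'n : ∀ w ∈ L (fun u => - t u), dt n w = 0 := by
    intro w hw
    have := hLm w hw
    rw [hdm] at this
    rcases mul_eq_zero.1 this with h | h
    · exact absurd h hκ0
    · exact h
  have hcont : ∀ x, dt n x ≠ 0 → ContinuousAt t x := by
    intro x hx
    have hx0 : x ≠ 0 := ne_of_dt_ne hx
    apply contAt_of_bounds h hx0
    · apply bdd_above_of_det h hw1 hw2 _ hx0
      rw [det3_eq, dt_comm]; exact hx
    · apply bdd_above_of_det h.neg hv1 hv2 _ hx0
      rw [det3_eq, dt_comm]
      show dt m x ≠ 0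
      rw [hdm]
      exact mul_ne_zero hκ0 hx
  have hcover : ∀ w, w ≠ 0 → dt n w = 0 → (w ∈ L t ∨ -w ∈ L t) ∨
      (w ∈ L (fun u => - t u) ∨ -w ∈ L (fun u => - t u)) := by
    intro w hw0 hwn
    have hind : ∀ α β : ℝ, α • w + β • n = 0 → α = 0 ∧ β = 0 := by
      intro α β hab
      have h1 : dt n (α • w + β • n) = 0 := by rw [hab]; simp [dt]
      rw [dt_add, dt_smul, dt_smul, hwn, mul_zero, zero_add] at h1
      have h2 : β = 0 := by
        rcases mul_eq_zero.1 h1 with h | h
        · exact h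
        · exact absurd h hnn.ne'
      refine ⟨?_, h2⟩
      rw [h2, zero_smul, add_zero] at hab
      rcases smul_eq_zero.1 hab with h | h
      · exact h
      · exact absurd h hw0
    obtain ⟨α, β, hmem⟩ := plane_meets h hind
    have h1 : dt n (α • w + β • n) = 0 := by
      rcases hmem with h | h
      · exact hLn _ h
      · exact hL'n _ h
    rw [dt_add, dt_smul, dt_smul, hwn, mul_zero, zero_add] at h1
    have h2 : β = 0 := by
      rcases mul_eq_zero.1 h1 with h | h
      · exact h
      · exact absurd h hnn.ne'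
    rw [h2, zero_smul, add_zero] at hmem
    rcases hmem with h3 | h3
    · exact Or.inl (mem_of_smul h h3)
    · exact Or.inr (mem_of_smul h.neg h3)
  have hne : ∀ x : ℝ, w1 + x • w2 ≠ 0 := by
    intro x h0
    apply hn
    have e : w1 = (-x) • w2 := by
      rw [neg_smul]; exact eq_neg_of_add_eq_zero_left h0
    rw [hndef, e]
    have := cr_smul_smul (-x) 1 w2
    rwa [one_smul] at this
  obtain ⟨z, hz0, hz1, hz2⟩ := lemK (A := {z | z ∈ L t ∨ -z ∈ L (fun u => - t u)})
    (a := w1) (r := w2)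
    (by
      intro z hz hz'
      have e : {z | z ∈ L t ∨ -z ∈ L (fun u => - t u)} =
          L t ∪ Neg.neg ⁻¹' (L (fun u => - t u)) := rfl
      rw [e, closure_union] at hz'
      rcases hz' with h1 | h1
      · exact Or.inl (L_closed hz h1)
      · right
        apply L_closed (neg_ne_zero.2 hz)
        exact map_mem_closure continuous_neg h1 (fun y hy => hy))
    (by
      intro c hc z hz
      rcases hz with h1 | h1
      · exact Or.inl (L_smul h h1 hc)
      · right
        rw [← smul_neg]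
        exact L_smul h.neg h1 hc)
    (cr_ne_right hn) hne
    (by
      intro x
      have h1 : dt n (w1 + x • w2) = 0 := by
        rw [dt_add, dt_smul, hLn _ hw1, hLn _ hw2]; ring
      rcases hcover _ (hne x) h1 with (h2 | h2) | (h2 | h2)
      · exact Or.inl (Or.inl h2)
      · exact Or.inr (Or.inl h2)
      · exact Or.inr (Or.inr (by simpa using h2))
      · exact Or.inl (Or.inr h2))
  rcases hz1 with h1 | h1 <;> rcases hz2 with h2 | h2
  · exact L_neg h h1 h2
  · rw [neg_neg] at h2
    exact stageG h h1 h2 hn hLn hL'n hcont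
  · exact stageG h h2 h1 hn hLn hL'n hcont
  · rw [neg_neg] at h2
    exact L_neg h.neg h2 h1

end Pool.Agent.Helper544.UM
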