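import Pool.Agent.Helper544.UM4

/-!
Unique-maximum subspaces of `C(ℝ)`, part 5: from three functions to the abstract system.
-/

set_option autoImplicit false

open Filter Topology Set

namespace Pool.Agent.Helper544.UM

/-- The linear combination with coefficient vector `u`, evaluated at `s`. -/
def F (e : Fin 3 → C(ℝ, ℝ)) (u : E) (s : ℝ) : ℝ := u 0 * e 0 s + u 1 * e 1 s + u 2 * e 2 s

theorem F_add (e : Fin 3 → C(ℝ, ℝ)) (u v : E) (s : ℝ) : F e (u + v) s = F e u s + F e v s := by
  simp [F]; ring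
theorem F_sub (e : Fin 3 → C(ℝ, ℝ)) (u v : E) (s : ℝ) : F e (u - v) s = F e u s - F e v s := by
  simp [F]; ring
theorem F_smul (e : Fin 3 → C(ℝ, ℝ)) (c : ℝ) (u : E) (s : ℝ) : F e (c • u) s = c * F e u s := by
  simp [F]; ring
theorem F_neg (e : Fin 3 → C(ℝ, ℝ)) (u : E) (s : ℝ) : F e (-u) s = - F e u s := by
  simp [F]; ring

theorem F_cont (e : Fin 3 → C(ℝ, ℝ)) : Continuous (fun p : E × ℝ => F e p.1 p.2) := by
  unfold F; fun_prop

theorem core (e : Fin 3 → C(ℝ, ℝ))
    (hmax : ∀ u : E, u ≠ 0 → ∃! s : ℝ, ∀ y : ℝ, F e u y ≤ F e u s) : False := by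
  have hex : ∀ u : E, ∃ s : ℝ, u ≠ 0 → (∀ y, F e u y ≤ F e u s) ∧
      ∀ s', (∀ y, F e u y ≤ F e u s') → s' = s := by
    intro u
    by_cases hu : u = 0
    · exact ⟨0, fun h => absurd hu h⟩
    · obtain ⟨s, hs, hs'⟩ := hmax u hu
      exact ⟨s, fun _ => ⟨hs, hs'⟩⟩
  choose t ht using hex
  have hmx : ∀ u, u ≠ 0 → ∀ y, F e u y ≤ F e u (t u) := fun u hu => (ht u hu).1
  have huq : ∀ u, u ≠ 0 → ∀ s, (∀ y, F e u y ≤ F e u s) → s = t u := fun u hu => (ht u hu).2
  have hanti : ∀ u, u ≠ 0 → t (-u) ≠ t u := by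
    intro u hu hcon
    have h1 := hmx u hu
    have h2 := hmx (-u) (neg_ne_zero.2 hu)
    rw [hcon] at h2
    have h3 : ∀ y, F e u y = F e u (t u) := by
      intro y
      have := h2 y
      rw [F_neg, F_neg] at this
      exact le_antisymm (h1 y) (by linarith)
    have h4 := huq u hu (t u + 1) (fun y => by rw [h3 (t u + 1)]; exact h1 y)
    linarith
  -- bounds
  have hbd : ∀ i, ∃ B : ℝ, ∀ s, |e i s| ≤ B := by
    intro i
    set u : E := Pi.single i 1 with hu
    have hu0 : u ≠ 0 := by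
      intro h0
      have := congrFun h0 i
      rw [hu] at this
      simp at this
    have hF : ∀ s, F e u s = e i s := by
      intro s
      rw [hu]
      fin_cases i <;> simp [F]
    have h1 := hmx u hu0
    have h2 := hmx (-u) (neg_ne_zero.2 hu0)
    refine ⟨max (e i (t u)) (-(e i (t (-u)))), ?_⟩
    intro s
    have h1' := h1 s
    have h2' := h2 s
    rw [F_neg, F_neg] at h2'
    rw [hF, hF] at h1' h2'
    rw [abs_le]
    constructor
    · have := le_max_right (e i (t u)) (-(e i (t (-u))))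
      linarith
    · exact le_trans h1' (le_max_left _ _)
  choose Bi hBi using hbd
  have hBi0 : ∀ i, 0 ≤ Bi i := fun i => le_trans (abs_nonneg _) (hBi i 0)
  set B := Bi 0 + Bi 1 + Bi 2 with hB
  have hB0 : 0 ≤ B := by have := hBi0 0; have := hBi0 1; have := hBi0 2; linarith
  have hFB : ∀ u s, |F e u s| ≤ B * ‖u‖ := by
    intro u s
    have k : ∀ i, |u i * e i s| ≤ Bi i * ‖u‖ := by
      intro i
      rw [abs_mul, mul_comm]
      have h1 : |u i| ≤ ‖u‖ := norm_le_pi_norm u i
      exact mul_le_mul (hBi i s) h1 (abs_nonneg _) (hBi0 i)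
    have h1 := abs_add_three (u 0 * e 0 s) (u 1 * e 1 s) (u 2 * e 2 s)
    have := k 0
    have := k 1
    have := k 2
    unfold F
    rw [hB, add_mul, add_mul]
    linarith
  refine no_sys t ⟨?_, ?_, ?_, ?_⟩
  · intro c hc u hu
    symm
    apply huq (c • u) (smul_ne_zero hc.ne' hu)
    intro y
    rw [F_smul, F_smul]
    exact mul_le_mul_of_nonneg_left (hmx u hu y) hc.le
  · intro u v hu hv huv
    have huv0 : u + v ≠ 0 := by
      intro h0
      have : v = -u := by rw [eq_neg_iff_add_eq_zero, add_comm]; exact h0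
      rw [this] at huv
      exact hanti u hu huv.symm
    symm
    apply huq (u + v) huv0
    intro y
    rw [F_add, F_add]
    have h1 := hmx u hu y
    have h2 := hmx v hv y
    rw [← huv] at h2
    linarith
  · intro u hu K hK htu
    by_contra hcon
    have hfr : ∃ᶠ v in 𝓝 u, t v ∈ K := by
      intro h; exact hcon h
    obtain ⟨a, haK, ha⟩ := hK.exists_mapClusterPt_of_frequently hfr
    apply htu
    have hau : a = t u := by
      apply huq u hu
      intro y
      by_contra hlt
      push Not at hlt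
      have hc : Continuous (fun p : E × ℝ => F e p.1 p.2 - F e p.1 y) := by
        unfold F; fun_prop
      have hev : ∀ᶠ p : E × ℝ in 𝓝 (u, a), F e p.1 p.2 - F e p.1 y < 0 := by
        apply hc.continuousAt.eventually_lt_const
        simp only; linarith
      rw [nhds_prod_eq, eventually_prod_iff] at hev
      obtain ⟨pa, hpa, pb, hpb, hab⟩ := hev
      have hfr2 := mapClusterPt_iff_frequently.1 ha {s | pb s} hpb
      have hne : ∀ᶠ v in 𝓝 u, v ≠ 0 := isOpen_compl_singleton.mem_nhds hu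
      obtain ⟨v, hv1, hv2, hv3⟩ := (hfr2.and_eventually (hpa.and hne)).exists
      have h5 := hab hv2 hv1
      simp only at h5
      have h6 := hmx v hv3 y
      linarith
    rw [← hau]; exact haK
  · intro u hu
    have hlt : F e u (t (-u)) < F e u (t u) := by
      refine lt_of_le_of_ne (hmx u hu _) ?_
      intro heq
      apply hanti u hu
      apply huq u hu
      intro y
      rw [heq]; exact hmx u hu y
    set η := F e u (t u) - F e u (t (-u)) with hη
    have hη0 : 0 < η := by rw [hη]; linarith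
    set ρ := η / (4 * B + 1) with hρ
    have hρ0 : 0 < ρ := div_pos hη0 (by linarith)
    have hρη : 4 * B * ρ < η := by
      rw [hρ, mul_div_assoc', div_lt_iff₀ (by linarith)]
      nlinarith
    refine ⟨Metric.ball u ρ ∩ {0}ᶜ, inter_mem (Metric.ball_mem_nhds u hρ0)
      (isOpen_compl_singleton.mem_nhds hu), Metric.ball (-u) ρ ∩ {0}ᶜ,
      inter_mem (Metric.ball_mem_nhds (-u) hρ0)
      (isOpen_compl_singleton.mem_nhds (neg_ne_zero.2 hu)), ?_⟩
    rintro v ⟨hv, hv0⟩ v' ⟨hv', hv0'⟩ heq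
    have hv0 : v ≠ 0 := hv0
    have hv0' : v' ≠ 0 := hv0'
    rw [mem_ball_iff_norm] at hv hv'
    have m1 := hmx v hv0 (t u)
    have m2 := hmx v' hv0' (t (-u))
    rw [← heq] at m2
    have b1 := abs_le.1 (hFB (v - u) (t u))
    have b2 := abs_le.1 (hFB (v' - -u) (t (-u)))
    have b3 := abs_le.1 (hFB (v - u) (t v))
    have b4 := abs_le.1 (hFB (v' - -u) (t v))
    rw [F_sub] at b1 b2 b3 b4
    rw [F_neg] at b2 b4
    have n1 : B * ‖v - u‖ ≤ B * ρ := mul_le_mul_of_nonneg_left hv.le hB0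
    have n2 : B * ‖v' - -u‖ ≤ B * ρ := mul_le_mul_of_nonneg_left hv'.le hB0
    linarith [b1.1, b2.1, b3.2, b4.2]

theorem main {V : Submodule ℝ (ContinuousMap ℝ ℝ)} {n : ℕ} (hn : 2 < n)
    (hV : Module.finrank ℝ V = n)
    (hmax : ∀ f ∈ V, f ≠ 0 → ∃! x : ℝ, ∀ y : ℝ, f y ≤ f x) : False := by
  obtain ⟨b, hb⟩ := exists_linearIndependent_of_le_finrank (R := ℝ) (M := V) (n := 3)
    (by rw [hV]; omega)
  rw [Fintype.linearIndependent_iff] at hb
  refine core (fun i => (b i : C(ℝ, ℝ))) ?_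
  intro u hu
  set f : V := ∑ i, u i • b i with hf
  have hf0 : f ≠ 0 := by
    intro h0
    exact hu (funext (hb u h0))
  have hFf : ∀ s, F (fun i => (b i : C(ℝ, ℝ))) u s = (f : C(ℝ, ℝ)) s := by
    intro s
    rw [hf]
    simp [F, Fin.sum_univ_three]
  have := hmax f f.2 (by
    intro h0
    exact hf0 (Subtype.ext h0))
  simpa only [hFf] using this

end Pool.Agent.Helper544.UM
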