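import Mathlib

noncomputable section
open scoped ContDiff InnerProductSpace Topology Matrix

namespace Pool.Agent.Helper544.Veronese

variable {m : ℕ}

abbrev EE (m : ℕ) := EuclideanSpace ℝ (Fin m × Fin m)
abbrev VV (m : ℕ) := EuclideanSpace ℝ (Fin m)

/-- Veronese map `x ↦ x xᵀ` -/
def ver (x : VV m) : EE m := WithLp.toLp 2 (fun ij => x ij.1 * x ij.2)

@[simp] theorem ver_apply (x : VV m) (ij : Fin m × Fin m) : ver x ij = x ij.1 * x ij.2 := rfl

/-- the matrix of an element -/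
def mat (A : EE m) : Matrix (Fin m) (Fin m) ℝ := Matrix.of fun i j => A (i, j)

@[simp] theorem mat_apply (A : EE m) (i j : Fin m) : mat A i j = A (i, j) := rfl

def RP (m : ℕ) : Set (EE m) := ver '' Metric.sphere (0 : VV m) 1

theorem inner_eq (x y : VV m) : ⟪x, y⟫_ℝ = ∑ i, x i * y i := by
  rw [PiLp.inner_apply]
  refine Finset.sum_congr rfl fun i _ => ?_
  simp [mul_comm]

theorem innerE_eq (A B : EE m) : ⟪A, B⟫_ℝ = ∑ i, ∑ j, A (i, j) * B (i, j) := by
  rw [PiLp.inner_apply, Fintype.sum_prod_type]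
  refine Finset.sum_congr rfl fun i _ => Finset.sum_congr rfl fun j _ => ?_
  simp [mul_comm]

theorem mem_RP {A : EE m} : A ∈ RP m ↔ ∃ x : VV m, (∑ i, x i * x i = 1) ∧ ver x = A := by
  unfold RP
  constructor
  · rintro ⟨x, hx, rfl⟩
    refine ⟨x, ?_, rfl⟩
    rw [mem_sphere_zero_iff_norm] at hx
    rw [← inner_eq, real_inner_self_eq_norm_sq, hx]; norm_num
  · rintro ⟨x, hx, rfl⟩
    refine ⟨x, ?_, rfl⟩
    rw [mem_sphere_zero_iff_norm]
    rw [← inner_eq, real_inner_self_eq_norm_sq] at hx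
    have : ‖x‖ ^ 2 = 1 ^ 2 := by rw [hx]; norm_num
    exact (sq_eq_sq₀ (norm_nonneg _) (by norm_num)).1 this

theorem ver_cont : Continuous (ver : VV m → EE m) := by
  unfold ver
  fun_prop

theorem RP_compact : IsCompact (RP m) := (isCompact_sphere _ _).image ver_cont

theorem RP_connected (n : ℕ) (hn : 1 ≤ n) : IsConnected (RP (n + 1)) := by
  unfold RP
  refine (isConnected_sphere ?_ _ zero_le_one).image _ ver_cont.continuousOn
  rw [← Module.finrank_eq_rank]
  simp
  omega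


/-- entrywise derivative of matrix valued functions on `[0, L]` -/
def DM (L : ℝ) (A A' : ℝ → Matrix (Fin m) (Fin m) ℝ) : Prop :=
  ∀ t ∈ Set.Icc 0 L, ∀ i j, HasDerivWithinAt (fun s => A s i j) (A' t i j) (Set.Icc 0 L) t

theorem DM_of {L : ℝ} {γ v : ℝ → EE m}
    (h : ∀ t ∈ Set.Icc 0 L, HasDerivWithinAt γ (v t) (Set.Icc 0 L) t) :
    DM L (fun t => mat (γ t)) (fun t => mat (v t)) := by
  intro t ht i j
  exact (EuclideanSpace.proj (𝕜 := ℝ) (i, j)).hasFDerivAt.comp_hasDerivWithinAt t (h t ht)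

theorem DM.mul {L : ℝ} {A A' B B' : ℝ → Matrix (Fin m) (Fin m) ℝ} (hA : DM L A A') (hB : DM L B B') :
    DM L (fun t => A t * B t) (fun t => A' t * B t + A t * B' t) := by
  intro t ht i j
  simp only [Matrix.mul_apply, Matrix.add_apply]
  rw [← Finset.sum_add_distrib]
  exact HasDerivWithinAt.fun_sum fun k _ => (hA t ht i k).mul (hB t ht k j)

theorem DM.sub {L : ℝ} {A A' B B' : ℝ → Matrix (Fin m) (Fin m) ℝ} (hA : DM L A A') (hB : DM L B B') :
    DM L (fun t => A t - B t) (fun t => A' t - B' t) := by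
  intro t ht i j
  exact (hA t ht i j).sub (hB t ht i j)

theorem DM.transpose {L : ℝ} {A A' : ℝ → Matrix (Fin m) (Fin m) ℝ} (hA : DM L A A') :
    DM L (fun t => (A t)ᵀ) (fun t => (A' t)ᵀ) := fun t ht i j => hA t ht j i

theorem DM.unique {L : ℝ} (hL : 0 < L) {A A' B B' : ℝ → Matrix (Fin m) (Fin m) ℝ} (hA : DM L A A')
    (hB : DM L B B') (hAB : ∀ t ∈ Set.Icc 0 L, A t = B t) : ∀ t ∈ Set.Icc 0 L, A' t = B' t := by
  intro t ht
  ext i j
  have hu : UniqueDiffWithinAt ℝ (Set.Icc 0 L) t := uniqueDiffOn_Icc hL t ht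
  have h1 : HasDerivWithinAt (fun s => A s i j) (B' t i j) (Set.Icc 0 L) t :=
    (hB t ht i j).congr (fun s hs => by rw [hAB s hs]) (by rw [hAB t ht])
  rw [← (hA t ht i j).derivWithin hu, ← h1.derivWithin hu]

theorem const_of_zero {L : ℝ} {f : ℝ → ℝ}
    (h : ∀ t ∈ Set.Icc 0 L, HasDerivWithinAt f 0 (Set.Icc 0 L) t) (hL : 0 < L) :
    ∀ t ∈ Set.Icc 0 L, f t = f 0 := by
  apply constant_of_derivWithin_zero
  · intro t ht
    exact (h t ht).differentiableWithinAt
  · intro t ht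
    have ht' : t ∈ Set.Icc 0 L := ⟨ht.1, ht.2.le⟩
    exact (h t ht').derivWithin (uniqueDiffOn_Icc hL t ht')

/-- algebra of a projection valued curve -/
theorem alg {P H : Matrix (Fin m) (Fin m) ℝ} (hP : P * P = P) (hH : H * P + P * H = H) :
    P * H * P = 0 ∧ (H * P - P * H) * P - P * (H * P - P * H) = H := by
  have h1 : P * H * P = 0 := by
    have h2 : P * (H * P + P * H) * P = P * H * P := by rw [hH]
    have h3 : P * (H * P + P * H) * P = P * H * (P * P) + (P * P) * H * P := by noncomm_ring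
    rw [hP] at h3
    rw [h3] at h2
    simpa using h2
  refine ⟨h1, ?_⟩
  have h4 : (H * P - P * H) * P - P * (H * P - P * H) =
      H * (P * P) + (P * P) * H - (2 : ℕ) • (P * H * P) := by noncomm_ring
  rw [h4, hP, h1, hH]
  simp

/-- an invariance property of curves with constant `Ω` -/
theorem kernel {L : ℝ} (hL : 0 < L) {P P' P'' : ℝ → Matrix (Fin m) (Fin m) ℝ}
    (hP : DM L P P') (hP' : DM L P' P'')
    (hproj : ∀ t ∈ Set.Icc 0 L, P t * P t = P t) (hsymm : ∀ t ∈ Set.Icc 0 L, (P t)ᵀ = P t)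
    (hcomm : ∀ t ∈ Set.Icc 0 L, P'' t * P t = P t * P'' t)
    (u : Fin m → ℝ) (hu : P 0 *ᵥ u = 0) (hu' : (P' 0 * P 0 - P 0 * P' 0) *ᵥ u = 0) :
    P L *ᵥ u = 0 := by
  have h0 : (0:ℝ) ∈ Set.Icc 0 L := ⟨le_rfl, hL.le⟩
  have hLm : L ∈ Set.Icc 0 L := ⟨hL.le, le_rfl⟩
  have hH : ∀ t ∈ Set.Icc 0 L, P' t * P t + P t * P' t = P' t := (hP.mul hP).unique hL hP hproj
  have hHs : ∀ t ∈ Set.Icc 0 L, (P' t)ᵀ = P' t := hP.transpose.unique hL hP hsymm
  -- Ω is constant
  have hΩ : ∀ t ∈ Set.Icc 0 L, P' t * P t - P t * P' t = P' 0 * P 0 - P 0 * P' 0 := by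
    intro t ht
    ext i j
    refine const_of_zero (f := fun t => (P' t * P t - P t * P' t) i j) ?_ hL t ht
    intro s hs
    have h1 := ((hP'.mul hP).sub (hP.mul hP')) s hs i j
    have h2 : (P'' s * P s + P' s * P' s - (P' s * P' s + P s * P'' s)) = 0 := by
      rw [hcomm s hs]; abel
    beta_reduce at h1
    rw [h2] at h1
    exact h1
  set Ω := P' 0 * P 0 - P 0 * P' 0 with hΩdef
  have hskew : Ωᵀ = -Ω := by
    rw [hΩdef, Matrix.transpose_sub, Matrix.transpose_mul, Matrix.transpose_mul, hsymm 0 h0, hHs 0 h0]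
    abel
  -- energy
  let f : ℝ → Fin m → ℝ := fun t => P t *ᵥ u
  have hf : ∀ t ∈ Set.Icc 0 L, ∀ i, HasDerivWithinAt (fun s => f s i) ((P' t *ᵥ u) i) (Set.Icc 0 L) t := by
    intro t ht i
    simp only [f, Matrix.mulVec, dotProduct]
    exact HasDerivWithinAt.fun_sum fun k _ => (hP t ht i k).mul_const (u k)
  have hf' : ∀ t ∈ Set.Icc 0 L, P' t *ᵥ u = Ω *ᵥ f t := by
    intro t ht
    have h1 := (alg (hproj t ht) (hH t ht)).2
    rw [hΩ t ht] at h1
    rw [← h1, Matrix.sub_mulVec, ← Matrix.mulVec_mulVec, ← Matrix.mulVec_mulVec, hu']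
    simp [f]
  have hen : ∀ t ∈ Set.Icc 0 L, f t ⬝ᵥ f t = f 0 ⬝ᵥ f 0 := by
    apply const_of_zero (f := fun t => f t ⬝ᵥ f t) _ hL
    intro t ht
    have h1 : HasDerivWithinAt (fun t => f t ⬝ᵥ f t) (∑ i, ((P' t *ᵥ u) i * f t i + f t i * (P' t *ᵥ u) i))
        (Set.Icc 0 L) t := by
      simp only [dotProduct]
      exact HasDerivWithinAt.fun_sum fun i _ => (hf t ht i).mul (hf t ht i)
    have h2 : ∑ i, ((P' t *ᵥ u) i * f t i + f t i * (P' t *ᵥ u) i) = 2 * (f t ⬝ᵥ (Ω *ᵥ f t)) := by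
      rw [hf' t ht, dotProduct, Finset.mul_sum]
      refine Finset.sum_congr rfl fun i _ => ?_
      ring
    have h3 : f t ⬝ᵥ (Ω *ᵥ f t) = 0 := by
      have h4 : f t ⬝ᵥ (Ω *ᵥ f t) = (Ωᵀ *ᵥ f t) ⬝ᵥ f t := by
        rw [Matrix.dotProduct_mulVec, Matrix.mulVec_transpose]
      rw [hskew, Matrix.neg_mulVec, neg_dotProduct, dotProduct_comm (Ω *ᵥ f t)] at h4
      linarith
    rw [h2, h3, mul_zero] at h1
    exact h1
  have hfL := hen L hLm
  have hf0 : f 0 = 0 := hu
  rw [hf0] at hfL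
  simp only [dotProduct_zero] at hfL
  exact dotProduct_self_eq_zero.1 hfL


/-- velocity vectors at `x` of differentiable curves in `M` -/
def tangent {E : Type*} [NormedAddCommGroup E] [NormedSpace ℝ E] (M : Set E) (x : E) : Set E :=
  {w | ∃ c : ℝ → E, c 0 = x ∧ (∀ᶠ t in 𝓝 (0:ℝ), c t ∈ M) ∧ HasDerivAt c w 0}

theorem hasDerivAt_coord {c : ℝ → EE m} {w : EE m} {t : ℝ}
    (h : ∀ i j, HasDerivAt (fun s => c s (i, j)) (w (i, j)) t) : HasDerivAt c w t := by
  have h1 : HasDerivAt (fun s => (c s).ofLp) w.ofLp t := by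
    rw [hasDerivAt_pi]
    rintro ⟨i, j⟩
    exact h i j
  have h2 := ((PiLp.continuousLinearEquiv 2 ℝ (fun _ : Fin m × Fin m => ℝ)).symm.toContinuousLinearMap).hasFDerivAt.comp_hasDerivAt t h1
  exact h2

theorem tangent_RP {z y : VV m} (hz : ∑ i, z i * z i = 1) (hy : ∑ i, z i * y i = 0) :
    (WithLp.toLp 2 (fun ij : Fin m × Fin m => z ij.1 * y ij.2 + y ij.1 * z ij.2) : EE m) ∈ tangent (RP m) (ver z) := by
  set Y := ∑ i, y i * y i with hY
  have hY0 : 0 ≤ Y := Finset.sum_nonneg fun i _ => mul_self_nonneg _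
  refine ⟨fun s => WithLp.toLp 2 (fun ij => (1 + s ^ 2 * Y)⁻¹ * ((z ij.1 + s * y ij.1) * (z ij.2 + s * y ij.2))), ?_, ?_, ?_⟩
  · ext ij
    simp
  · refine Filter.Eventually.of_forall fun s => ?_
    rw [mem_RP]
    have hpos : 0 < 1 + s ^ 2 * Y := by positivity
    refine ⟨WithLp.toLp 2 (fun i => (Real.sqrt (1 + s ^ 2 * Y))⁻¹ * (z i + s * y i)), ?_, ?_⟩
    · simp only
      have h1 : ∀ i, (Real.sqrt (1 + s ^ 2 * Y))⁻¹ * (z i + s * y i) * ((Real.sqrt (1 + s ^ 2 * Y))⁻¹ * (z i + s * y i)) =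
          (1 + s ^ 2 * Y)⁻¹ * (z i * z i + 2 * s * (z i * y i) + s ^ 2 * (y i * y i)) := by
        intro i
        have h2 : (Real.sqrt (1 + s ^ 2 * Y))⁻¹ * (Real.sqrt (1 + s ^ 2 * Y))⁻¹ = (1 + s ^ 2 * Y)⁻¹ := by
          rw [← mul_inv, Real.mul_self_sqrt hpos.le]
        rw [← h2]; ring
      simp_rw [h1]
      rw [← Finset.mul_sum, Finset.sum_add_distrib, Finset.sum_add_distrib, ← Finset.mul_sum, ← Finset.mul_sum, hz, hy, ← hY]
      rw [mul_zero, add_zero, inv_mul_cancel₀ hpos.ne']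
    · ext ij
      simp only [ver_apply]
      have h2 : (Real.sqrt (1 + s ^ 2 * Y))⁻¹ * (Real.sqrt (1 + s ^ 2 * Y))⁻¹ = (1 + s ^ 2 * Y)⁻¹ := by
        rw [← mul_inv, Real.mul_self_sqrt hpos.le]
      rw [← h2]; ring
  · apply hasDerivAt_coord
    intro i j
    have d1 : HasDerivAt (fun s : ℝ => (1 + s ^ 2 * Y)⁻¹) 0 0 := by
      have d2 : HasDerivAt (fun s : ℝ => 1 + s ^ 2 * Y) 0 0 := by
        have := (((hasDerivAt_id (0:ℝ)).pow 2).mul_const Y).const_add 1
        simpa using this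
      exact (d2.fun_inv (by simp)).congr_deriv (by simp)
    have d3 : HasDerivAt (fun s : ℝ => (z i + s * y i) * (z j + s * y j)) (y i * z j + z i * y j) 0 := by
      have d4 : HasDerivAt (fun s : ℝ => z i + s * y i) (y i) 0 := by
        simpa using ((hasDerivAt_id (0:ℝ)).mul_const (y i)).const_add (z i)
      have d5 : HasDerivAt (fun s : ℝ => z j + s * y j) (y j) 0 := by
        simpa using ((hasDerivAt_id (0:ℝ)).mul_const (y j)).const_add (z j)
      exact (d4.fun_mul d5).congr_deriv (by simp)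
    have := d1.fun_mul d3
    refine this.congr_deriv ?_
    simp
    ring

/-- a symmetric matrix orthogonal to the tangent space of `RP` at `z zᵀ` commutes with `z zᵀ` -/
theorem comm_of_normal {z : VV m} (hz : ∑ i, z i * z i = 1) {A : EE m} (hA : (mat A)ᵀ = mat A)
    (hn : ∀ w ∈ tangent (RP m) (ver z), ⟪A, w⟫_ℝ = 0) : mat A * mat (ver z) = mat (ver z) * mat A := by
  let a : Fin m → ℝ := fun i => ∑ j, A (i, j) * z j
  let l : ℝ := ∑ i, a i * z i
  have hAs : ∀ i j, A (i, j) = A (j, i) := fun i j => by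
    have := congrFun (congrFun hA j) i
    simpa using this
  have key : ∀ y : VV m, ∑ i, z i * y i = 0 → ∑ i, a i * y i = 0 := by
    intro y hy
    have h1 := hn _ (tangent_RP hz hy)
    rw [innerE_eq] at h1
    simp only at h1
    have h2 : ∑ i, ∑ j, A (i, j) * (z i * y j + y i * z j) = 2 * ∑ i, a i * y i := by
      have h3 : ∑ i, ∑ j, A (i, j) * (y i * z j) = ∑ i, a i * y i := by
        refine Finset.sum_congr rfl fun i _ => ?_
        simp only [a]
        rw [Finset.sum_mul]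
        refine Finset.sum_congr rfl fun j _ => ?_
        ring
      have h4 : ∑ i, ∑ j, A (i, j) * (z i * y j) = ∑ i, a i * y i := by
        rw [Finset.sum_comm]
        refine Finset.sum_congr rfl fun i _ => ?_
        simp only [a]
        rw [Finset.sum_mul]
        refine Finset.sum_congr rfl fun j _ => ?_
        rw [hAs j i]; ring
      simp_rw [mul_add, Finset.sum_add_distrib]
      rw [h3, h4]; ring
    linarith
  have ha : ∀ i, a i = l * z i := by
    let y : VV m := WithLp.toLp 2 (fun i => a i - l * z i)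
    have hy : ∑ i, z i * y i = 0 := by
      simp only [y]
      simp_rw [mul_sub]
      rw [Finset.sum_sub_distrib]
      have h5 : ∑ i, z i * (l * z i) = l := by
        have : ∀ i, z i * (l * z i) = l * (z i * z i) := fun i => by ring
        simp_rw [this]
        rw [← Finset.mul_sum, hz, mul_one]
      have h6 : ∑ i, z i * a i = l := by
        simp only [l]
        refine Finset.sum_congr rfl fun i _ => ?_
        ring
      rw [h5, h6, sub_self]
    have h7 := key y hy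
    have h8 : ∑ i, y i * y i = 0 := by
      have : ∀ i, y i * y i = a i * y i - l * (z i * y i) := fun i => by
        simp only [y]; ring
      simp_rw [this]
      rw [Finset.sum_sub_distrib, ← Finset.mul_sum, hy, h7]; ring
    intro i
    have h9 := (Finset.sum_eq_zero_iff_of_nonneg (fun i _ => mul_self_nonneg (y i))).1 h8 i (Finset.mem_univ i)
    have h10 : y i = 0 := mul_self_eq_zero.1 h9
    simp only [y] at h10
    linarith
  ext i j
  simp only [Matrix.mul_apply, mat_apply, ver_apply]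
  have e1 : ∑ k, A (i, k) * (z k * z j) = l * z i * z j := by
    have : ∀ k, A (i, k) * (z k * z j) = A (i, k) * z k * z j := fun k => by ring
    simp_rw [this]
    rw [← Finset.sum_mul]
    change a i * z j = _
    rw [ha]
  have e2 : ∑ k, z i * z k * A (k, j) = l * z i * z j := by
    have : ∀ k, z i * z k * A (k, j) = z i * (A (j, k) * z k) := fun k => by rw [hAs k j]; ring
    simp_rw [this]
    rw [← Finset.mul_sum]
    change z i * a j = _
    rw [ha]; ring
  rw [e1, e2]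

end Pool.Agent.Helper544.Veronese
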