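import Mathlib
import Pool.Agent.Helper544.Veronese

noncomputable section
open scoped ContDiff InnerProductSpace Topology Matrix

namespace Pool.Agent.Helper544.Veronese

/-- splitting off the line spanned by a unit vector -/
theorem exists_split (n : ℕ) (x : VV (n + 1)) (hx : ‖x‖ = 1) :
    ∃ (T : EuclideanSpace ℝ (Fin n) →L[ℝ] VV (n + 1)) (T' : VV (n + 1) →L[ℝ] EuclideanSpace ℝ (Fin n)),
      (∀ w, ⟪x, T w⟫_ℝ = 0) ∧ (∀ w, ‖T w‖ = ‖w‖) ∧ (∀ w, T' (T w) = w) ∧ T' x = 0 ∧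
      ∀ v, v = ⟪x, v⟫_ℝ • x + T (T' v) := by
  have hx0 : x ≠ 0 := by
    intro h; rw [h, norm_zero] at hx; norm_num at hx
  have hfact : Fact (Module.finrank ℝ (VV (n + 1)) = n + 1) := ⟨by simp⟩
  let B := OrthonormalBasis.fromOrthogonalSpanSingleton (𝕜 := ℝ) n hx0
  let T : EuclideanSpace ℝ (Fin n) →L[ℝ] VV (n + 1) :=
    ((ℝ ∙ x)ᗮ).subtypeL.comp (B.repr.symm.toContinuousLinearEquiv : EuclideanSpace ℝ (Fin n) →L[ℝ] (ℝ ∙ x)ᗮ)
  let T' : VV (n + 1) →L[ℝ] EuclideanSpace ℝ (Fin n) :=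
    (B.repr.toContinuousLinearEquiv : (ℝ ∙ x)ᗮ →L[ℝ] EuclideanSpace ℝ (Fin n)).comp ((ℝ ∙ x)ᗮ).orthogonalProjectionOnto
  have hT : ∀ w, T w = (B.repr.symm w : VV (n + 1)) := fun w => rfl
  have hT' : ∀ v, T' v = B.repr (((ℝ ∙ x)ᗮ).orthogonalProjectionOnto v) := fun v => rfl
  refine ⟨T, T', ?_, ?_, ?_, ?_, ?_⟩
  · intro w
    rw [hT]
    exact (Submodule.mem_orthogonal_singleton_iff_inner_right.1 (B.repr.symm w).2)
  · intro w
    rw [hT, ← Submodule.coe_norm, LinearIsometryEquiv.norm_map]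
  · intro w
    rw [hT', hT, Submodule.orthogonalProjectionOnto_mem_subspace_eq_self]
    simp
  · rw [hT']
    have : ((ℝ ∙ x)ᗮ).orthogonalProjectionOnto x = 0 := by
      apply Submodule.orthogonalProjectionOnto_apply_of_mem_orthogonal
      exact Submodule.le_orthogonal_orthogonal _ (Submodule.mem_span_singleton_self x)
    rw [this, map_zero]
  · intro v
    rw [hT, hT', LinearIsometryEquiv.symm_apply_apply]
    have h1 := Submodule.starProjection_add_starProjection_orthogonal (K := ℝ ∙ x) v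
    rw [Submodule.starProjection_unit_singleton ℝ hx] at h1
    exact h1.symm


/-- the linear map `A ↦ A x` -/
def act {m : ℕ} (x : VV m) (A : EE m) : VV m := WithLp.toLp 2 (fun i => ∑ j, A (i, j) * x j)

theorem act_contDiff {m : ℕ} (x : VV m) : ContDiff ℝ ∞ (act x) := by
  unfold act
  fun_prop

theorem ver_contDiff {m : ℕ} : ContDiff ℝ ∞ (ver : VV m → EE m) := by
  unfold ver
  fun_prop

theorem act_ver {m : ℕ} (x z : VV m) : act x (ver z) = ⟪x, z⟫_ℝ • z := by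
  ext i
  simp only [act, ver_apply, PiLp.smul_apply, smul_eq_mul]
  rw [inner_eq, Finset.sum_mul]
  refine Finset.sum_congr rfl fun j _ => ?_
  ring

theorem act_smul {m : ℕ} (x : VV m) (c : ℝ) (A : EE m) : act x (c • A) = c • act x A := by
  ext i
  simp only [act, PiLp.smul_apply, smul_eq_mul]
  rw [Finset.mul_sum]
  refine Finset.sum_congr rfl fun j _ => ?_
  ring

theorem ver_smul {m : ℕ} (c : ℝ) (x : VV m) : ver (c • x) = c ^ 2 • ver x := by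
  ext ij
  simp only [ver_apply, PiLp.smul_apply, smul_eq_mul]
  ring

/-- local parametrisation of `RP` with smooth left inverse -/
theorem exists_chart (n : ℕ) {P : EE (n + 1)} (hP : P ∈ RP (n + 1)) :
    ∃ (U : Set (EE (n + 1))) (W : Set (EuclideanSpace ℝ (Fin n)))
      (φ : EuclideanSpace ℝ (Fin n) → EE (n + 1)) (ρ : EE (n + 1) → EuclideanSpace ℝ (Fin n)),
      IsOpen U ∧ P ∈ U ∧ IsOpen W ∧ ContDiffOn ℝ ∞ φ W ∧ ContDiffOn ℝ ∞ ρ U ∧ φ '' W = RP (n + 1) ∩ U ∧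
      ∀ w ∈ W, ρ (φ w) = w := by
  obtain ⟨x, hx, rfl⟩ := hP
  rw [mem_sphere_zero_iff_norm] at hx
  have hxx : ⟪x, x⟫_ℝ = 1 := by rw [real_inner_self_eq_norm_sq, hx]; norm_num
  obtain ⟨T, T', h1, h2, h3, h4, h5⟩ := exists_split n x hx
  have hpos : ∀ w : EuclideanSpace ℝ (Fin n), 0 < 1 + ‖w‖ ^ 2 := fun w => by positivity
  have hin : ∀ w, ⟪x, x + T w⟫_ℝ = 1 := by
    intro w
    rw [inner_add_right, h1, hxx, add_zero]
  have hnorm : ∀ w, ‖x + T w‖ ^ 2 = 1 + ‖w‖ ^ 2 := by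
    intro w
    rw [norm_add_sq_real, h1, hx, h2]; ring
  refine ⟨{A | ⟪x, act x A⟫_ℝ ≠ 0}, Set.univ, fun w => (1 + ‖w‖ ^ 2)⁻¹ • ver (x + T w),
    fun A => (⟪x, act x A⟫_ℝ)⁻¹ • T' (act x A), ?_, ?_, isOpen_univ, ?_, ?_, ?_, ?_⟩
  · have hc : Continuous (fun A : EE (n + 1) => ⟪x, act x A⟫_ℝ) :=
      continuous_const.inner (act_contDiff x).continuous
    exact hc.isOpen_preimage _ isOpen_ne
  · change ⟪x, act x (ver x)⟫_ℝ ≠ 0
    rw [act_ver, hxx, one_smul, hxx]; norm_num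
  · apply ContDiff.contDiffOn
    have c1 : ContDiff ℝ ∞ (fun w : EuclideanSpace ℝ (Fin n) => (1 + ‖w‖ ^ 2)⁻¹) :=
      ContDiff.inv (contDiff_const.add (contDiff_norm_sq ℝ)) (fun w => (hpos w).ne')
    have c2 : ContDiff ℝ ∞ (fun w : EuclideanSpace ℝ (Fin n) => ver (x + T w)) :=
      ver_contDiff.comp (contDiff_const.add T.contDiff)
    exact c1.smul c2
  · intro A hA
    have hc : ContDiff ℝ ∞ (fun A : EE (n + 1) => ⟪x, act x A⟫_ℝ) := contDiff_const.inner ℝ (act_contDiff x)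
    have c1 : ContDiffAt ℝ ∞ (fun A : EE (n + 1) => (⟪x, act x A⟫_ℝ)⁻¹) A := hc.contDiffAt.inv hA
    have c2 : ContDiffAt ℝ ∞ (fun A : EE (n + 1) => T' (act x A)) A :=
      (T'.contDiff.comp (act_contDiff x)).contDiffAt
    exact (c1.smul c2).contDiffWithinAt
  · ext A
    constructor
    · rintro ⟨w, -, rfl⟩
      refine ⟨?_, ?_⟩
      · refine ⟨(Real.sqrt (1 + ‖w‖ ^ 2))⁻¹ • (x + T w), ?_, ?_⟩
        · rw [mem_sphere_zero_iff_norm, norm_smul, norm_inv, Real.norm_eq_abs, abs_of_nonneg (Real.sqrt_nonneg _)]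
          have : ‖x + T w‖ = Real.sqrt (1 + ‖w‖ ^ 2) := by
            rw [← hnorm, Real.sqrt_sq (norm_nonneg _)]
          rw [this, inv_mul_cancel₀ (Real.sqrt_pos.2 (hpos w)).ne']
        · rw [ver_smul, inv_pow, Real.sq_sqrt (hpos w).le]
      · change ⟪x, act x ((1 + ‖w‖ ^ 2)⁻¹ • ver (x + T w))⟫_ℝ ≠ 0
        rw [act_smul, act_ver, hin, one_smul, inner_smul_right, hin, mul_one]
        exact inv_ne_zero (hpos w).ne'
    · rintro ⟨⟨z, hz, rfl⟩, hA⟩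
      rw [mem_sphere_zero_iff_norm] at hz
      change ⟪x, act x (ver z)⟫_ℝ ≠ 0 at hA
      rw [act_ver, inner_smul_right] at hA
      have hxz : ⟪x, z⟫_ℝ ≠ 0 := fun h => hA (by rw [h, zero_mul])
      set c := ⟪x, z⟫_ℝ with hc
      refine ⟨c⁻¹ • T' z, Set.mem_univ _, ?_⟩
      have h6 : x + T (c⁻¹ • T' z) = c⁻¹ • z := by
        conv_rhs => rw [h5 z]
        rw [← hc, smul_add, smul_smul, inv_mul_cancel₀ hxz, one_smul, map_smul]
      have h7 : 1 + ‖c⁻¹ • T' z‖ ^ 2 = (c⁻¹) ^ 2 := by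
        rw [← hnorm, h6, norm_smul, hz, mul_one, Real.norm_eq_abs, sq_abs]
      change (1 + ‖c⁻¹ • T' z‖ ^ 2)⁻¹ • ver (x + T (c⁻¹ • T' z)) = ver z
      rw [h6, h7, ver_smul, smul_smul, inv_mul_cancel₀ (pow_ne_zero 2 (inv_ne_zero hxz)), one_smul]
  · intro w _
    change (⟪x, act x ((1 + ‖w‖ ^ 2)⁻¹ • ver (x + T w))⟫_ℝ)⁻¹ • T' (act x ((1 + ‖w‖ ^ 2)⁻¹ • ver (x + T w))) = w
    rw [act_smul, act_ver, hin, one_smul, inner_smul_right, hin, mul_one, map_smul, map_add, h4, h3, zero_add,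
      smul_smul, inv_inv, mul_inv_cancel₀ (hpos w).ne', one_smul]

end Pool.Agent.Helper544.Veronese
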