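import Mathlib
import Pool.Agent.Helper544.Veronese2

noncomputable section
open scoped ContDiff InnerProductSpace Topology Matrix

namespace Pool.Agent.Helper544.Veronese

variable {m : ℕ}

theorem mat_ver_mul (z : VV m) (hz : ∑ i, z i * z i = 1) : mat (ver z) * mat (ver z) = mat (ver z) := by
  ext i j
  simp only [Matrix.mul_apply, mat_apply, ver_apply]
  have : ∀ k, z i * z k * (z k * z j) = z i * z j * (z k * z k) := fun k => by ring
  simp_rw [this]
  rw [← Finset.mul_sum, hz, mul_one]

theorem mat_ver_symm (z : VV m) : (mat (ver z))ᵀ = mat (ver z) := by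
  ext i j
  simp [mul_comm]

theorem ver_mulVec (z : VV m) (u : Fin m → ℝ) (i : Fin m) : (mat (ver z) *ᵥ u) i = z i * ∑ k, z k * u k := by
  simp only [Matrix.mulVec, dotProduct, mat_apply, ver_apply]
  rw [Finset.mul_sum]
  refine Finset.sum_congr rfl fun k _ => ?_
  ring

theorem one_curve {L : ℝ} (hL : 0 < L) {γ vel acc : ℝ → EE m}
    (hmem : ∀ t ∈ Set.Icc 0 L, γ t ∈ RP m)
    (hv : ∀ t ∈ Set.Icc 0 L, HasDerivWithinAt γ (vel t) (Set.Icc 0 L) t)
    (ha : ∀ t ∈ Set.Icc 0 L, HasDerivWithinAt vel (acc t) (Set.Icc 0 L) t)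
    (hunit : ‖vel 0‖ = 1)
    (hg : ∀ t ∈ Set.Icc 0 L, ∀ w ∈ tangent (RP m) (γ t), ⟪acc t, w⟫_ℝ = 0)
    {x z : VV m} (hx : ∑ i, x i * x i = 1) (hz : ∑ i, z i * z i = 1) (h0 : γ 0 = ver x) (hLz : γ L = ver z) :
    2 * (∑ i, z i * ∑ j, vel 0 (i, j) * x j) ^ 2 = 1 - (∑ i, z i * x i) ^ 2 := by
  have h0m : (0:ℝ) ∈ Set.Icc 0 L := ⟨le_rfl, hL.le⟩
  have hLm : L ∈ Set.Icc 0 L := ⟨hL.le, le_rfl⟩
  have hP := DM_of hv
  have hP' := DM_of ha
  have hproj : ∀ t ∈ Set.Icc 0 L, mat (γ t) * mat (γ t) = mat (γ t) := by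
    intro t ht
    obtain ⟨w, hw, hw'⟩ := mem_RP.1 (hmem t ht)
    rw [← hw']
    exact mat_ver_mul w hw
  have hsymm : ∀ t ∈ Set.Icc 0 L, (mat (γ t))ᵀ = mat (γ t) := by
    intro t ht
    obtain ⟨w, hw, hw'⟩ := mem_RP.1 (hmem t ht)
    rw [← hw']
    exact mat_ver_symm w
  have hvs : ∀ t ∈ Set.Icc 0 L, (mat (vel t))ᵀ = mat (vel t) := hP.transpose.unique hL hP hsymm
  have has : ∀ t ∈ Set.Icc 0 L, (mat (acc t))ᵀ = mat (acc t) := hP'.transpose.unique hL hP' hvs
  have hcomm : ∀ t ∈ Set.Icc 0 L, mat (acc t) * mat (γ t) = mat (γ t) * mat (acc t) := by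
    intro t ht
    obtain ⟨w, hw, hw'⟩ := mem_RP.1 (hmem t ht)
    have := hg t ht
    rw [← hw'] at this ⊢
    exact comm_of_normal hw (has t ht) this
  have hH : ∀ t ∈ Set.Icc 0 L, mat (vel t) * mat (γ t) + mat (γ t) * mat (vel t) = mat (vel t) :=
    (hP.mul hP).unique hL hP hproj
  have hH0 := hH 0 h0m
  have hs0 := hvs 0 h0m
  rw [h0] at hH0
  set y : Fin m → ℝ := fun i => ∑ j, vel 0 (i, j) * x j with hy
  clear_value y
  have hvsym : ∀ i j, vel 0 (i, j) = vel 0 (j, i) := fun i j => by
    have := congrFun (congrFun hs0 j) i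
    simpa using this
  have hHij : ∀ i j, vel 0 (i, j) = y i * x j + x i * y j := by
    intro i j
    have h1 := congrFun (congrFun hH0 i) j
    simp only [Matrix.add_apply, Matrix.mul_apply, mat_apply, ver_apply] at h1
    rw [← h1]
    congr 1
    · rw [hy]
      simp only
      rw [Finset.sum_mul]
      refine Finset.sum_congr rfl fun k _ => ?_
      ring
    · rw [hy]
      simp only
      rw [Finset.mul_sum]
      refine Finset.sum_congr rfl fun k _ => ?_
      rw [hvsym k j]; ring
  set S := ∑ j, y j * x j with hS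
  have hSx : ∀ i, x i * S = 0 := by
    intro i
    have h1 : y i = ∑ j, (y i * x j + x i * y j) * x j := by
      conv_lhs => rw [hy]
      simp only
      refine Finset.sum_congr rfl fun j _ => ?_
      rw [hHij i j]
    have h2 : ∑ j, (y i * x j + x i * y j) * x j = y i * ∑ j, x j * x j + x i * S := by
      rw [hS, Finset.mul_sum, Finset.mul_sum, ← Finset.sum_add_distrib]
      refine Finset.sum_congr rfl fun j _ => ?_
      ring
    rw [h2, hx] at h1
    linarith
  have hS0 : S = 0 := by
    have h1 : ∑ i, x i * (x i * S) = 0 := Finset.sum_eq_zero fun i _ => by rw [hSx i, mul_zero]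
    have h2 : ∑ i, x i * (x i * S) = S := by
      have : ∀ i, x i * (x i * S) = (x i * x i) * S := fun i => by ring
      simp_rw [this]
      rw [← Finset.sum_mul, hx, one_mul]
    linarith
  have hxy : ∑ j, x j * y j = 0 := by
    rw [← hS0, hS]
    exact Finset.sum_congr rfl fun j _ => mul_comm _ _
  have hyy : 2 * ∑ i, y i * y i = 1 := by
    have h1 : ⟪vel 0, vel 0⟫_ℝ = 1 := by rw [real_inner_self_eq_norm_sq, hunit]; norm_num
    rw [innerE_eq] at h1
    have h2 : ∑ i, ∑ j, vel 0 (i, j) * vel 0 (i, j) = 2 * ∑ i, y i * y i := by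
      have h3 : ∀ i, ∑ j, vel 0 (i, j) * vel 0 (i, j) =
          (y i * y i) * (∑ j, x j * x j) + 2 * (y i * x i) * (∑ j, x j * y j) + (x i * x i) * ∑ j, y j * y j := by
        intro i
        rw [Finset.mul_sum, Finset.mul_sum, Finset.mul_sum, ← Finset.sum_add_distrib, ← Finset.sum_add_distrib]
        refine Finset.sum_congr rfl fun j _ => ?_
        rw [hHij i j]; ring
      simp_rw [h3, hx, hxy]
      rw [Finset.sum_add_distrib, ← Finset.sum_mul (f := fun i => x i * x i), hx]
      simp only [mul_one, mul_zero, add_zero, one_mul]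
      ring
    rw [← h2]; exact h1
  -- the component of `z` orthogonal to `x` and `y`
  set α := ∑ i, z i * x i with hα
  set β := ∑ i, z i * y i with hβ
  let u : Fin m → ℝ := fun i => z i - α * x i - 2 * β * y i
  have hxu : ∑ i, x i * u i = 0 := by
    have : ∀ i, x i * u i = z i * x i - α * (x i * x i) - 2 * β * (x i * y i) := fun i => by
      simp only [u]; ring
    simp_rw [this]
    rw [Finset.sum_sub_distrib, Finset.sum_sub_distrib, ← Finset.mul_sum, ← Finset.mul_sum, hx, hxy, ← hα]
    ring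
  have hyu : ∑ i, y i * u i = 0 := by
    have : ∀ i, y i * u i = z i * y i - α * (x i * y i) - β * (2 * (y i * y i)) := fun i => by
      simp only [u]; ring
    simp_rw [this]
    rw [Finset.sum_sub_distrib, Finset.sum_sub_distrib, ← Finset.mul_sum, ← Finset.mul_sum, ← Finset.mul_sum, hyy, hxy, ← hβ]
    ring
  have hk := kernel hL hP hP' hproj hsymm hcomm u (by
      rw [h0]
      ext i
      rw [ver_mulVec, hxu]; simp) (by
      rw [h0]
      have e : ∀ i, ((mat (vel 0) * mat (ver x) - mat (ver x) * mat (vel 0)) *ᵥ u) i =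
          y i * (∑ k, x k * u k) - x i * ∑ k, y k * u k := by
        intro i
        simp only [Matrix.mulVec, dotProduct, Matrix.sub_apply, Matrix.mul_apply, mat_apply, ver_apply]
        rw [Finset.mul_sum, Finset.mul_sum, ← Finset.sum_sub_distrib]
        refine Finset.sum_congr rfl fun k _ => ?_
        have e1 : ∑ j, vel 0 (i, j) * (x j * x k) = y i * x k := by
          rw [hy]
          simp only
          rw [Finset.sum_mul]
          refine Finset.sum_congr rfl fun j _ => ?_
          ring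
        have e2 : ∑ j, x i * x j * vel 0 (j, k) = x i * y k := by
          rw [hy]
          simp only
          rw [Finset.mul_sum]
          refine Finset.sum_congr rfl fun j _ => ?_
          rw [hvsym j k]; ring
        rw [e1, e2]; ring
      ext i
      rw [e, hxu, hyu]; simp)
  have hzu : ∑ i, z i * u i = 0 := by
    rw [hLz] at hk
    have h1 : ∀ i, z i * (∑ k, z k * u k) = 0 := fun i => by
      rw [← ver_mulVec, hk]; rfl
    have h2 : ∑ i, z i * (z i * (∑ k, z k * u k)) = 0 := Finset.sum_eq_zero fun i _ => by rw [h1 i, mul_zero]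
    have h3 : ∑ i, z i * (z i * (∑ k, z k * u k)) = (∑ i, z i * z i) * (∑ k, z k * u k) := by
      rw [Finset.sum_mul]
      refine Finset.sum_congr rfl fun i _ => ?_
      ring
    rw [h3, hz, one_mul] at h2
    exact h2
  have hfin : ∑ i, z i * u i = 1 - α ^ 2 - 2 * β ^ 2 := by
    have : ∀ i, z i * u i = z i * z i - α * (z i * x i) - 2 * β * (z i * y i) := fun i => by
      simp only [u]; ring
    simp_rw [this]
    rw [Finset.sum_sub_distrib, Finset.sum_sub_distrib, ← Finset.mul_sum, ← Finset.mul_sum, hz, ← hα, ← hβ]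
    ring
  rw [hfin] at hzu
  have hβ' : ∑ i, z i * ∑ j, vel 0 (i, j) * x j = β := by rw [hβ, hy]
  rw [hβ']
  linarith

/-- unit vectors with product `±1` have the same image under the Veronese map -/
theorem ver_eq_of {x z : VV m} (hx : ∑ i, x i * x i = 1) (hz : ∑ i, z i * z i = 1)
    (h : (∑ i, z i * x i) ^ 2 = 1) : ver x = ver z := by
  set α := ∑ i, z i * x i with hα
  have h1 : ∑ i, (z i - α * x i) * (z i - α * x i) = 0 := by
    have : ∀ i, (z i - α * x i) * (z i - α * x i) = z i * z i - 2 * α * (z i * x i) + α ^ 2 * (x i * x i) := fun i => by ring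
    simp_rw [this]
    rw [Finset.sum_add_distrib, Finset.sum_sub_distrib, ← Finset.mul_sum, ← Finset.mul_sum, hz, hx, ← hα]
    linarith
  have h2 : ∀ i, z i = α * x i := by
    intro i
    have h9 := (Finset.sum_eq_zero_iff_of_nonneg (fun i _ => mul_self_nonneg (z i - α * x i))).1 h1 i (Finset.mem_univ i)
    have h10 : z i - α * x i = 0 := mul_self_eq_zero.1 h9
    linarith
  ext ij
  rw [ver_apply, ver_apply, h2 ij.1, h2 ij.2]
  have : α * x ij.1 * (α * x ij.2) = α ^ 2 * (x ij.1 * x ij.2) := by ring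
  rw [this, h, one_mul]

end Pool.Agent.Helper544.Veronese
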